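import Pool.Agent.Run7.h692.Eq.IM

set_option autoImplicit false
set_option linter.unusedSectionVars false
open scoped TensorProduct
open CategoryTheory MulOpposite

namespace Run7.h692.Eq

attribute [local instance] T3.ring T3.modK T3.alg IM.acg IM.smul IM.mod

section

variable {K Λ : Type} [Field K] [Ring Λ] [Algebra K Λ]
variable {M M0 : Type} [AddCommGroup M] [Module Λ M] [AddCommGroup M0] [Module Λ M0]

theorem IM.proj_free (j : Fin 3) (k : ℕ) :
    Module.Projective (T3 K Λ) (IM K Λ j (Fin k → Λ)) := by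
  obtain ⟨s, r, h⟩ := IM.free_retract (K := K) (Λ := Λ) (j := j) k
  exact Module.Projective.of_split s r (LinearMap.ext h)

theorem IM.finite (j : Fin 3) [Module.Finite Λ M] : Module.Finite (T3 K Λ) (IM K Λ j M) := by
  obtain ⟨k, p, hp⟩ := exists_free Λ M
  obtain ⟨s, r, h⟩ := IM.free_retract (K := K) (Λ := Λ) (j := j) k
  have h1 : Function.Surjective r := fun z => ⟨s z, h z⟩
  have h2 : Function.Surjective (IM.map K j p ∘ₗ r) := (IM.map_surj p hp).comp h1
  exact Module.Finite.of_surjective _ h2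

/-- the first component of a map -/
def comp0 {j : Fin 3} (φ : IM K Λ j M →ₗ[T3 K Λ] IM K Λ j M0) : M →ₗ[Λ] M0 where
  toFun m := (φ (in1 j m)).1
  map_add' m n := by
    have h1 : (in1 j (m + n) : IM K Λ j M) = in1 j m + in1 j n :=
      IM.ext rfl (fun h => by rw [in1_snd, IM.add_snd, in1_snd, in1_snd, add_zero])
    rw [h1, map_add, IM.add_fst]
  map_smul' a m := by
    rw [← cst_in1, map_smul, IM.smul_fst, RingHom.id_apply]
    rfl

theorem comp0_apply {j : Fin 3} (φ : IM K Λ j M →ₗ[T3 K Λ] IM K Λ j M0) (m : M) :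
    φ (in1 j m) = in1 j (comp0 φ m) := by
  have h1 : φ (in1 j m) = (idm j : T3 K Λ) • φ (in1 j m) := by
    rw [← map_smul, idm_in1]
  rw [h1, idm_self]
  rfl

/-- a projective induced module comes from a projective module -/
theorem proj_of_IM (j : Fin 3) [Module.Finite Λ M]
    (h : Module.Projective (T3 K Λ) (IM K Λ j M)) : Module.Projective Λ M := by
  obtain ⟨k, p, hp⟩ := exists_free Λ M
  obtain ⟨s, hs⟩ := Module.projective_lifting_property (IM.map K j p) LinearMap.id
    (IM.map_surj p hp)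
  refine Module.Projective.of_split (comp0 s) p (LinearMap.ext fun m => ?_)
  have h1 : IM.map K j p (s (in1 j m)) = in1 j m := LinearMap.congr_fun hs _
  rw [comp0_apply] at h1
  exact congrArg Prod.fst h1

variable [FiniteDimensional K Λ]

/-- maps between induced modules come from maps -/
theorem eq_map {j : Fin 3} [Module.Finite Λ M] (φ : IM K Λ j M →ₗ[T3 K Λ] IM K Λ j M0)
    (z : IM K Λ j M) : φ z = IM.map K j (comp0 φ) z := by
  apply IM.hom_ext
  intro m
  rw [comp0_apply]
  exact IM.ext rfl (fun h => rfl)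

variable (M0) in
theorem ev_IM (j : Fin 3) (n : ℕ) :
    ∀ (M : Type) [AddCommGroup M] [Module Λ M] [Module.Finite Λ M], EV Λ M Λ → EV Λ M M0 →
      EX (T3 K Λ) n (IM K Λ j M) (IM K Λ j M0) := by
  have hN : IsNoetherianRing Λ := isNoeth K Λ
  induction n with
  | zero =>
    intro M _ _ _ h1 h2
    obtain ⟨k, p, hp⟩ := exists_free Λ M
    have hs := SES.ofKer hp
    refine (IM.ses hs (fun φ => hs.extend (h1 0) φ)).con0 (EX.proj (IM.proj_free j k)) ?_
    intro φ
    obtain ⟨ψ, hψ⟩ := hs.extend (h2 0) (comp0 φ)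
    refine ⟨IM.map K j ψ, fun z => ?_⟩
    rw [eq_map φ z]
    refine IM.ext (hψ _) (fun h => ?_)
    rw [IM.map_snd, IM.map_snd, IM.map_snd]
    congr 1
    apply LinearMap.ext
    intro m
    rw [pre_apply, pre_apply, pre_apply, hψ]
  | succ n ih =>
    intro M _ _ _ h1 h2
    obtain ⟨k, p, hp⟩ := exists_free Λ M
    have hs := SES.ofKer hp
    have hfi : Module.Projective Λ (Fin k → Λ) := inferInstance
    exact (IM.ses hs (fun φ => hs.extend (h1 0) φ)).conS (EX.proj (IM.proj_free j k))
      (ih _ (fun m => hs.conA (EX.proj hfi) (h1 (m + 1)))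
        (fun m => hs.conA (EX.proj hfi) (h2 (m + 1))))

/-- there are no maps between induced modules at distant vertices -/
theorem hom_zero {i j : Fin 3} (h1 : i ≠ j) (h2 : i ≠ j + 1) [Module.Finite Λ M]
    (φ : IM K Λ i M →ₗ[T3 K Λ] IM K Λ j M0) (z : IM K Λ i M) : φ z = 0 := by
  apply IM.hom_ext φ 0
  intro m
  rw [← idm_in1, map_smul, idm_other h1 h2, LinearMap.zero_apply]

variable (M0) in
theorem ev_IM' {i j : Fin 3} (hij : i ≠ j) (hij' : i ≠ j + 1) (n : ℕ) :
    ∀ (M : Type) [AddCommGroup M] [Module Λ M] [Module.Finite Λ M], EV Λ M Λ →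
      EX (T3 K Λ) n (IM K Λ i M) (IM K Λ j M0) := by
  have hN : IsNoetherianRing Λ := isNoeth K Λ
  induction n with
  | zero =>
    intro M _ _ _ h1
    obtain ⟨k, p, hp⟩ := exists_free Λ M
    have hs := SES.ofKer hp
    refine (IM.ses hs (fun φ => hs.extend (h1 0) φ)).con0 (EX.proj (IM.proj_free i k)) ?_
    intro φ
    exact ⟨0, fun z => by rw [LinearMap.zero_apply, hom_zero hij hij' φ z]⟩
  | succ n ih =>
    intro M _ _ _ h1
    obtain ⟨k, p, hp⟩ := exists_free Λ M
    have hs := SES.ofKer hp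
    have hfi : Module.Projective Λ (Fin k → Λ) := inferInstance
    exact (IM.ses hs (fun φ => hs.extend (h1 0) φ)).conS (EX.proj (IM.proj_free i k))
      (ih _ (fun m => hs.conA (EX.proj hfi) (h1 (m + 1))))

/-- the twisted module -/
def twX : IM K Λ 0 M ≃+ IM K Λ 2 M where
  toFun z := (z.1, z.2)
  invFun z := (z.1, z.2)
  left_inv z := rfl
  right_inv z := rfl
  map_add' z w := rfl

theorem twX_smul (x : T3 K Λ) (z : IM K Λ 0 M) :
    twX (T3.nu K Λ x • z) = x • (twX z : IM K Λ 2 M) := by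
  refine IM.ext rfl (fun h => ?_)
  change (T3.nu K Λ x • z).2 h = _
  rw [IM.smul_snd, IM.smul_snd]
  rfl

end

end Run7.h692.Eq
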