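import Pool.Agent.Run7.h692.Eq.EndC

set_option autoImplicit false
set_option linter.unusedSectionVars false
open scoped TensorProduct
open CategoryTheory MulOpposite Pool.Agent.Helper426Tach Pool.Agent.Helper426GSC
  Pool.Agent.Helper426TauT Pool.Agent.H546R3.Yam

namespace Run7.h692.Eq

/-- infinite dominant dimension: a coresolution by finitely generated projective-injective
modules -/
def InfDom (A : Type) [Ring A] : Prop :=
  ∃ (I : ℕ → ModuleCat.{0} A) (ε : A →ₗ[A] I 0) (d : ∀ n, I n →ₗ[A] I (n + 1)),
    (∀ n, Module.Finite A (I n) ∧ Module.Projective A (I n) ∧ Module.Injective A (I n)) ∧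
    Function.Injective ε ∧ Function.Exact ε (d 0) ∧ ∀ n, Function.Exact (d n) (d (n + 1))

attribute [local instance] GW.acg GW.mod FW.acg FW.mod

section

variable {K T : Type} [Field K] [Ring T] [Algebra K T] [FiniteDimensional K T]
variable {X : Type} [AddCommGroup X] [Module T X] [Module K X] [IsScalarTower K T X]

theorem GW_free (k : ℕ) : ∃ (s : GW T X (Fin k → T) →ₗ[AE T X] (Fin k → AE T X))
      (r : (Fin k → AE T X) →ₗ[AE T X] GW T X (Fin k → T)), ∀ g, r (s g) = g := by
  let s : GW T X (Fin k → T) →ₗ[AE T X] (Fin k → AE T X) :=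
    { toFun := fun g i => mkA (LinearMap.inl T T X ∘ₗ LinearMap.proj i ∘ₗ g.ev)
      map_add' := fun g h => by
        funext i
        apply AE_ext
        intro n
        change (((g + h).ev n i, 0) : T × X) = (g.ev n i, 0) + (h.ev n i, 0)
        rw [GW.add_ev, Prod.mk_add_mk, add_zero]
        rfl
      map_smul' := fun a g => rfl }
  let r : (Fin k → AE T X) →ₗ[AE T X] GW T X (Fin k → T) :=
    { toFun := fun b => GW.mk (LinearMap.pi fun i => (LinearMap.fst T T X) ∘ₗ fn (b i))
      map_add' := fun b c => rfl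
      map_smul' := fun a b => rfl }
  exact ⟨s, r, fun g => rfl⟩

theorem GW_proj (k : ℕ) : Module.Projective (AE T X) (GW T X (Fin k → T)) := by
  obtain ⟨s, r, hrs⟩ := GW_free (T := T) (X := X) k
  exact Module.Projective.of_split s r (LinearMap.ext hrs)

theorem GW_fin (k : ℕ) : Module.Finite (AE T X) (GW T X (Fin k → T)) := by
  obtain ⟨s, r, hrs⟩ := GW_free (T := T) (X := X) k
  exact Module.Finite.of_surjective r fun z => ⟨s z, hrs z⟩

/-- the modules which occur as cosyzygies -/
structure St (T X : Type) [Ring T] [AddCommGroup X] [Module T X] where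
  Z : ModuleCat.{0} T
  fin : Module.Finite T Z
  evz : EV T (T × X) Z

variable (lam : T →ₗ[K] K) (hlam : ∀ r, (∀ r', lam (r' * r) = 0) → r = 0)

/-- the rank -/
noncomputable def St.k (hlam : ∀ r, (∀ r', lam (r' * r) = 0) → r = 0) (z : St T X) : ℕ :=
  letI := z.fin
  (exists_emb lam hlam z.Z).choose

/-- the embedding -/
noncomputable def St.f (hlam : ∀ r, (∀ r', lam (r' * r) = 0) → r = 0) (z : St T X) :
    z.Z →ₗ[T] (Fin (z.k lam hlam) → T) :=
  letI := z.fin
  (exists_emb lam hlam z.Z).choose_spec.choose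

theorem St.f_inj (z : St T X) : Function.Injective (z.f lam hlam) :=
  letI := z.fin
  (exists_emb lam hlam z.Z).choose_spec.choose_spec

/-- the cosyzygy -/
noncomputable def St.next (hlam : ∀ r, (∀ r', lam (r' * r) = 0) → r = 0) (z : St T X) :
    St T X where
  Z := ModuleCat.of T ((Fin (z.k lam hlam) → T) ⧸ LinearMap.range (z.f lam hlam))
  fin := inferInstance
  evz := fun m => by
    have hinj : Module.Injective T T := frob_injective lam hlam
    have hfi : Module.Injective T (Fin (z.k lam hlam) → T) := inferInstance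
    exact (SES.ofCoker (z.f_inj lam hlam)).covC (EX.inj hfi) (z.evz (m + 1))

/-- the projection -/
noncomputable def St.q (hlam : ∀ r, (∀ r', lam (r' * r) = 0) → r = 0) (z : St T X) :
    (Fin (z.k lam hlam) → T) →ₗ[T] (z.next lam hlam).Z :=
  (LinearMap.range (z.f lam hlam)).mkQ

theorem St.ses (z : St T X) : SES (z.f lam hlam) (z.q lam hlam) :=
  SES.ofCoker (z.f_inj lam hlam)

theorem St.sesG (z : St T X) : SES (GW.map X (z.f lam hlam)) (GW.map X (z.q lam hlam)) :=
  GW.ses (z.ses lam hlam) (z.evz 0)

/-- the sequence of cosyzygies -/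
noncomputable def sq (hlam : ∀ r, (∀ r', lam (r' * r) = 0) → r = 0) (z : St T X) : ℕ → St T X
  | 0 => z
  | n + 1 => (sq hlam z n).next lam hlam

include hlam in
theorem infDom_E [Module.Finite T X] (hX : EV T X X) : InfDom (AE T X) := by
  have hfd : FiniteDimensional K X := Module.Finite.trans T X
  have hinj : Module.Injective T T := frob_injective lam hlam
  have hproj : Module.Projective T T := inferInstance
  have h := pdE (X := X) lam hlam
  have hNN : EV T (T × X) (T × X) := fun n =>
    EX.prodL (EX.proj hproj) (EX.prodR (EX.inj hinj) (hX n))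
  let z0 : St T X := ⟨ModuleCat.of T (T × X), inferInstance, hNN⟩
  let Z : ℕ → St T X := sq lam hlam z0
  let k : ℕ → ℕ := fun n => (Z n).k lam hlam
  let f : ∀ n, (Z n).Z →ₗ[T] (Fin (k n) → T) := fun n => (Z n).f lam hlam
  let q : ∀ n, (Fin (k n) → T) →ₗ[T] (Z (n + 1)).Z := fun n => (Z n).q lam hlam
  have hs : ∀ n, SES (GW.map X (f n)) (GW.map X (q n)) := fun n => (Z n).sesG lam hlam
  let I : ℕ → ModuleCat.{0} (AE T X) := fun n =>
    ModuleCat.of (AE T X) (GW T X (Fin (k n) → T))
  let ε : AE T X →ₗ[AE T X] I 0 := GW.map X (f 0) ∘ₗ regG T X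
  let d : ∀ n, I n →ₗ[AE T X] I (n + 1) := fun n => GW.map X (f (n + 1)) ∘ₗ GW.map X (q n)
  refine ⟨I, ε, d, fun n => ⟨GW_fin _, GW_proj _, inj_GW lam h hlam _⟩, ?_, ?_, ?_⟩
  · intro a b hab
    have h1 : regG T X a = regG T X b := (hs 0).inj hab
    have h2 : regG' T X (regG T X a) = regG' T X (regG T X b) := congrArg _ h1
    exact h2
  · intro y
    constructor
    · intro hy
      have h1 : GW.map X (q 0) y = 0 := by
        apply (hs 1).inj
        rw [map_zero]
        exact hy
      obtain ⟨g, hg⟩ := (hs 0).ex y h1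
      exact ⟨regG' T X g, hg⟩
    · rintro ⟨a, rfl⟩
      change GW.map X (f 1) (GW.map X (q 0) (GW.map X (f 0) (regG T X a))) = 0
      rw [(hs 0).comp, map_zero]
  · intro n y
    constructor
    · intro hy
      have h1 : GW.map X (q (n + 1)) y = 0 := by
        apply (hs (n + 2)).inj
        rw [map_zero]
        exact hy
      obtain ⟨g, hg⟩ := (hs (n + 1)).ex y h1
      obtain ⟨g', hg'⟩ := (hs n).surj g
      refine ⟨g', ?_⟩
      change GW.map X (f (n + 1)) (GW.map X (q n) g') = y
      rw [hg', hg]
    · rintro ⟨a, rfl⟩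
      change GW.map X (f (n + 2)) (GW.map X (q (n + 1))
        (GW.map X (f (n + 1)) (GW.map X (q n) a))) = 0
      rw [(hs (n + 1)).comp, map_zero]

/-- if the opposite endomorphism ring is self-injective then the module is projective -/
theorem proj_of_selfinj_E [Module.Finite T X] (hlam : ∀ r, (∀ r', lam (r' * r) = 0) → r = 0)
    (hA : Module.Injective (AE T X) (AE T X)) : Module.Projective T X := by
  obtain ⟨k, f, hf⟩ := exists_emb lam hlam X
  -- the module of maps to `X` is injective
  have h1 : Module.Injective (AE T X) (GW T X (T × X)) :=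
    inj_of_retract (regG' T X) (regG T X) (LinearMap.ext fun g => rfl) hA
  have h2 : Module.Injective (AE T X) (GW T X X) :=
    inj_of_retract (GW.map X (LinearMap.inr T T X)) (GW.map X (LinearMap.snd T T X))
      (LinearMap.ext fun g => rfl) h1
  have hfi : Function.Injective (GW.map X f) := by
    intro u v huv
    exact GW.ext fun n => hf (congrArg (fun z => z.ev n) huv)
  obtain ⟨ρ, hρ⟩ := h2.out (GW.map X f) hfi LinearMap.id
  let r : (Fin k → T) →ₗ[T] X :=
    { toFun := fun v => (ρ (GW.mk (elt v))).ev (1, 0)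
      map_add' := fun v w => by
        have h3 : (GW.mk (elt (v + w)) : GW T X (Fin k → T)) = GW.mk (elt v) + GW.mk (elt w) :=
          GW.ext fun n => by
            rw [GW.add_ev, GW.ev_mk, GW.ev_mk, GW.ev_mk, elt_apply, elt_apply, elt_apply, smul_add]
        rw [h3, map_add, GW.add_ev]
      map_smul' := fun t v => by
        have h3 : (GW.mk (elt (t • v)) : GW T X (Fin k → T)) =
            (mkA (elt (t, 0)) : AE T X) • GW.mk (elt v) :=
          GW.ext fun n => by
            rw [GW.smul_ev, GW.ev_mk, GW.ev_mk, elt_apply, fn_mkA, elt_apply, elt_apply,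
              ← mul_smul]
            rfl
        rw [h3, map_smul, GW.smul_ev, fn_mkA, elt_one, RingHom.id_apply, ← map_smul]
        congr 1
        rw [Prod.smul_mk, smul_eq_mul, mul_one, smul_zero] }
  refine Module.Projective.of_split f r (LinearMap.ext fun x => ?_)
  change (ρ (GW.mk (elt (f x)))).ev (1, 0) = x
  have h4 : (GW.mk (elt (f x)) : GW T X (Fin k → T)) = GW.map X f (GW.mk (elt x)) :=
    GW.ext fun n => by
      rw [GW.map_ev, GW.ev_mk, GW.ev_mk, elt_apply, elt_apply, map_smul]
  rw [h4]
  have h5 : ρ (GW.map X f (GW.mk (elt x))) = GW.mk (elt x) := hρ _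
  rw [h5, GW.ev_mk, elt_one]

end

end Run7.h692.Eq
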