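import Pool.Agent.Run7.h692.Eq.NK2
import Pool.Agent.Run7.h692.Eq.NK3
import Pool.Agent.Run7.h692.Eq.IM2
import Pool.Agent.Run7.h692.GBC
import Pool.Agent.Run7.h692.EasyDir

set_option autoImplicit false
set_option linter.unusedSectionVars false
open scoped TensorProduct
open CategoryTheory MulOpposite Pool.Agent.Helper426Tach Pool.Agent.Helper426GSC
  Pool.Agent.Helper426TauT Pool.Agent.H546R3.Yam

namespace Run7.h692.Eq

section Use

attribute [local instance] T3.ring T3.modK T3.alg IM.acg IM.smul IM.mod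

variable {K Λ : Type} [Field K] [Ring Λ] [Algebra K Λ] [FiniteDimensional K Λ]
variable {M : Type} [AddCommGroup M] [Module Λ M] [Module.Finite Λ M]

/-- from the Gorenstein bimodule conjecture -/
theorem arc_of_gbc (hG : ∀ (A : Type) [Ring A] [Algebra K A] [FiniteDimensional K A],
      GorensteinBimoduleConjectureFor K A)
    (h1 : EV Λ M M) (h2 : EV Λ M Λ) : Module.Projective Λ M := by
  have hfd : FiniteDimensional K (T3 K Λ) := T3.finite K Λ
  have hfX : Module.Finite (T3 K Λ) (IM K Λ 0 M) := IM.finite 0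
  let _ : Module K (IM K Λ 0 M) := Module.compHom _ (algebraMap K (T3 K Λ))
  have hst : IsScalarTower K (T3 K Λ) (IM K Λ 0 M) := tower_compHom K (T3 K Λ) _
  have hfK : FiniteDimensional K (IM K Λ 0 M) := Module.Finite.trans (T3 K Λ) _
  have hX : EV (T3 K Λ) (IM K Λ 0 M) (IM K Λ 0 M) := fun n => ev_IM M 0 n M h2 h1
  have hXv : EV (T3 K Λ) (IM K Λ 2 M) (IM K Λ 0 M) := fun n =>
    ev_IM' M (by decide) (by decide) n M h2
  have hcd := cd_E (T3.lam K Λ) T3.nondeg (T3.nu K Λ) T3.lam_nu
    (twX : IM K Λ 0 M ≃+ IM K Λ 2 M) twX_smul hX hXv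
  have hfA : FiniteDimensional K (AE (T3 K Λ) (IM K Λ 0 M)) := finite_AE
  let m0 : Module (AE (T3 K Λ) (IM K Λ 0 M) ⊗[K] (AE (T3 K Λ) (IM K Λ 0 M))ᵐᵒᵖ)
      (AE (T3 K Λ) (IM K Λ 0 M)) := TensorProduct.Algebra.module
  have hc : ∀ (a : AE (T3 K Λ) (IM K Λ 0 M)) (b : (AE (T3 K Λ) (IM K Λ 0 M))ᵐᵒᵖ)
      (x : AE (T3 K Λ) (IM K Λ 0 M)), (a ⊗ₜ[K] b) • x = a * x * unop b := by
    intro a b x
    rw [TensorProduct.Algebra.smul_def, mul_assoc]
    rfl
  have he1 : HasExt.{1} (ModuleCat.{0} (AE (T3 K Λ) (IM K Λ 0 M) ⊗[K]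
      (AE (T3 K Λ) (IM K Λ 0 M))ᵐᵒᵖ)) := HasExt.standard _
  have he2 : HasExt.{1} (ModuleCat.{0} ((AE (T3 K Λ) (IM K Λ 0 M) ⊗[K]
      (AE (T3 K Λ) (IM K Λ 0 M))ᵐᵒᵖ)ᵐᵒᵖ)) := HasExt.standard _
  have hA : Module.Injective (AE (T3 K Λ) (IM K Λ 0 M)) (AE (T3 K Λ) (IM K Λ 0 M)) :=
    (hG (AE (T3 K Λ) (IM K Λ 0 M)) hc).mpr (hcd.gp hc)
  exact proj_of_IM 0 (proj_of_selfinj_E (T3.lam K Λ) T3.nondeg hA)

variable (K) in
/-- from the Nakayama conjecture -/
theorem arc_of_nc (hG : ∀ (A : Type) [Ring A] [Algebra K A] [FiniteDimensional K A],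
      InfDom A → Module.Injective A A)
    (h1 : EV Λ M M) (h2 : EV Λ M Λ) : Module.Projective Λ M := by
  have hfd : FiniteDimensional K (T3 K Λ) := T3.finite K Λ
  have hfX : Module.Finite (T3 K Λ) (IM K Λ 0 M) := IM.finite 0
  let _ : Module K (IM K Λ 0 M) := Module.compHom _ (algebraMap K (T3 K Λ))
  have hst : IsScalarTower K (T3 K Λ) (IM K Λ 0 M) := tower_compHom K (T3 K Λ) _
  have hfK : FiniteDimensional K (IM K Λ 0 M) := Module.Finite.trans (T3 K Λ) _
  have hX : EV (T3 K Λ) (IM K Λ 0 M) (IM K Λ 0 M) := fun n => ev_IM M 0 n M h2 h1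
  have hfA : FiniteDimensional K (AE (T3 K Λ) (IM K Λ 0 M)) := finite_AE
  have hA : Module.Injective (AE (T3 K Λ) (IM K Λ 0 M)) (AE (T3 K Λ) (IM K Λ 0 M)) :=
    hG (AE (T3 K Λ) (IM K Λ 0 M)) (infDom_E (T3.lam K Λ) T3.nondeg hX)
  exact proj_of_IM 0 (proj_of_selfinj_E (T3.lam K Λ) T3.nondeg hA)

variable (K) in
/-- from the second conjecture of Tachikawa -/
theorem arc_of_tc2 (hG : ∀ (B : Type) [Ring B] [Algebra K B] [FiniteDimensional K B],
      Module.Injective B B → ∀ (M : Type) [AddCommGroup M] [Module B M] [Module.Finite B M],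
      EV B M M → Module.Projective B M)
    (h1 : EV Λ M M) (h2 : EV Λ M Λ) : Module.Projective Λ M := by
  have hfd : FiniteDimensional K (T3 K Λ) := T3.finite K Λ
  have hfX : Module.Finite (T3 K Λ) (IM K Λ 0 M) := IM.finite 0
  have hX : EV (T3 K Λ) (IM K Λ 0 M) (IM K Λ 0 M) := fun n => ev_IM M 0 n M h2 h1
  have hT : Module.Injective (T3 K Λ) (T3 K Λ) := frob_injective (T3.lam K Λ) T3.nondeg
  exact proj_of_IM 0 (hG (T3 K Λ) hT _ hX)

end Use

section Back

variable {K : Type} [Field K]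

/-- the first conjecture of Tachikawa follows from the conjecture of Auslander and Reiten -/
theorem tc1_of_arc {A : Type} [Ring A] [Algebra K A] [FiniteDimensional K A]
    (hG : ∀ (M : Type) [AddCommGroup M] [Module A M] [Module.Finite A M],
      EV A M M → EV A M A → Module.Projective A M)
    (h : EV A (QD K A) A) : Module.Injective A A := by
  have hf : Module.Finite A (QD K A) := qd_finite
  have hq : Module.Injective A (QD K A) := qd_injective
  have hp : Module.Projective A (QD K A) := hG (QD K A) (fun n => EX.inj hq) h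
  obtain ⟨h1, h2⟩ := center_artin K A
  exact selfinjective_of_projective (R := A) (ModuleCat.of A (QD K A)) hf hq
    (fun M hM => qd_embedding M) hp

/-- the Nakayama conjecture follows from the conjecture of Auslander and Reiten -/
theorem nc_of_arc
    (hG : ∀ (B : Type) [Ring B] [Algebra K B] [FiniteDimensional K B]
      (M : Type) [AddCommGroup M] [Module B M] [Module.Finite B M],
      EV B M M → EV B M B → Module.Projective B M)
    (A : Type) [Ring A] [Algebra K A] [FiniteDimensional K A] (hA : InfDom A) :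
    Module.Injective A A := by
  obtain ⟨I, ε, d, hI, hε, hεd, hd⟩ := hA
  have hN : IsNoetherianRing A := isNoeth K A
  obtain ⟨n, hn⟩ := exists_Q I (fun n => (hI n).1) (fun n => (hI n).2.1)
  let Q : Type := ∀ i : Fin (n + 1), I i
  have hfQ : Module.Finite A Q := by
    have : ∀ i : Fin (n + 1), Module.Finite A (I i) := fun i => (hI i).1
    infer_instance
  have hpQ : Module.Projective A Q := projective_pi _ fun i => (hI i).2.1
  have hiQ : Module.Injective A Q := by
    have : ∀ i : Fin (n + 1), Module.Injective A (I i) := fun i => (hI i).2.2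
    infer_instance
  let _ : Module K Q := Module.compHom Q (algebraMap K A)
  have hst : IsScalarTower K A Q := tower_compHom K A Q
  have hfK : Module.Finite K Q := Module.Finite.trans A Q
  have hEnd : FiniteDimensional K (Module.End A Q) := by
    have h1 : Module.Finite K (Q →ₗ[K] Q) := inferInstance
    let f : Module.End A Q →ₗ[K] (Q →ₗ[K] Q) :=
      { toFun := fun g => LinearMap.restrictScalars K g
        map_add' := fun _ _ => rfl
        map_smul' := fun _ _ => rfl }
    exact Module.Finite.of_injective f (LinearMap.restrictScalars_injective K)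
  have hfE : Module.Finite (Module.End A Q) Q :=
    Module.Finite.of_restrictScalars_finite K (Module.End A Q) Q
  have h1 : EV (Module.End A Q) Q Q := ev_QQ I d hd hε hεd hiQ hn
  have h2 : EV (Module.End A Q) Q (Module.End A Q) := ev_QE hfQ hpQ h1
  exact inj_of_proj I d hd hε hεd hiQ hn hfE (hG (Module.End A Q) Q h1 h2)

/-- the Gorenstein bimodule conjecture follows from the first conjecture of Tachikawa -/
theorem gbc_of_tc1 {A : Type} [Ring A] [Algebra K A] [FiniteDimensional K A]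
    (hG : EV A (QD K A) A → Module.Injective A A) : GorensteinBimoduleConjectureFor K A := by
  intro _ hc _ _
  refine ⟨fun hA => gp_of_selfinj K A hc hA, ?_⟩
  rintro ⟨-, -, h3, -⟩
  apply hG
  have hN : IsNoetherianRing A := isNoeth K A
  have hfQ : Module.Finite A (QD K A) := qd_finite
  have h4 : ∀ m, EX (A ⊗[K] Aᵐᵒᵖ) m A (A ⊗[K] Aᵐᵒᵖ) := by
    intro m
    have h5 := h3 (m + 1) (by omega)
    exact (Abelian.Ext.chgUniv.{0, 1} (X := ModuleCat.of (A ⊗[K] Aᵐᵒᵖ) A)
      (Y := ModuleCat.of (A ⊗[K] Aᵐᵒᵖ) (A ⊗[K] Aᵐᵒᵖ)) (n := m + 1)).symm.subsingleton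
  let E := LinearEquiv.ofBijective (baseLin (K := K) (A := A)) baseLin_bij
  intro n
  exact ev_of_hb hc (QD K A) n A fun m =>
    (h4 m).retrR E.symm.toLinearMap E.toLinearMap fun y => E.apply_symm_apply y

end Back

end Run7.h692.Eq
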