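import Pool.Agent.Run7.h692.Eq.HBV

set_option autoImplicit false
set_option linter.unusedSectionVars false
open CategoryTheory

namespace Run7.h692.Eq

section CI

variable {A L : Type} [Ring A] [Ring L] (φ : A →+* L)
variable (X : Type) [AddCommGroup X] [Module A X]

/-- coinduced modules, as a subgroup of the additive maps -/
def CIs : AddSubgroup (L →+ X) where
  carrier := {f | ∀ (a : A) (l : L), f (φ a * l) = a • f l}
  zero_mem' := fun a l => by
    rw [AddMonoidHom.zero_apply, AddMonoidHom.zero_apply, smul_zero]
  add_mem' := fun {f g} hf hg a l => by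
    rw [AddMonoidHom.add_apply, AddMonoidHom.add_apply, hf a l, hg a l, smul_add]
  neg_mem' := fun {f} hf a l => by
    rw [AddMonoidHom.neg_apply, AddMonoidHom.neg_apply, hf a l, smul_neg]

/-- coinduced modules -/
def CI : Type := CIs φ X

/-- the additive group of a coinduced module -/
@[reducible]
def CI.acg : AddCommGroup (CI φ X) := inferInstanceAs (AddCommGroup (CIs φ X))

attribute [local instance] CI.acg

variable {φ X}

/-- the value of an element of a coinduced module -/
def CI.ev (f : CI φ X) (l : L) : X := f.1 l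

theorem CI.ev_smul_left (f : CI φ X) (a : A) (l : L) : f.ev (φ a * l) = a • f.ev l := f.2 a l

theorem CI.ev_add (f g : CI φ X) (l : L) : (f + g).ev l = f.ev l + g.ev l := rfl

theorem CI.ev_sub (f g : CI φ X) (l : L) : (f - g).ev l = f.ev l - g.ev l := rfl

theorem CI.ev_zero (l : L) : (0 : CI φ X).ev l = 0 := rfl

theorem CI.ev_add' (f : CI φ X) (l l' : L) : f.ev (l + l') = f.ev l + f.ev l' := map_add f.1 l l'

theorem CI.ev_sum' (f : CI φ X) {ι : Type} (s : Finset ι) (l : ι → L) :
    f.ev (∑ i ∈ s, l i) = ∑ i ∈ s, f.ev (l i) := map_sum f.1 l s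

theorem CI.ext {f g : CI φ X} (h : ∀ l, f.ev l = g.ev l) : f = g :=
  Subtype.ext (AddMonoidHom.ext h)

/-- constructor of elements of coinduced modules -/
def CI.mk (f : L →+ X) (hf : ∀ (a : A) (l : L), f (φ a * l) = a • f l) : CI φ X := ⟨f, hf⟩

theorem CI.ev_mk (f : L →+ X) (hf : ∀ (a : A) (l : L), f (φ a * l) = a • f l) (l : L) :
    (CI.mk f hf : CI φ X).ev l = f l := rfl

variable (φ X)

/-- the module structure of a coinduced module -/
@[reducible]
def CI.mod : Module L (CI φ X) where
  smul l f := CI.mk (f.1.comp (AddMonoidHom.mulRight l)) (fun a l' => by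
    change f.ev (φ a * l' * l) = a • f.ev (l' * l)
    rw [mul_assoc, CI.ev_smul_left])
  one_smul f := CI.ext fun l => by
    change f.ev (l * 1) = f.ev l
    rw [mul_one]
  mul_smul a b f := CI.ext fun l => by
    change f.ev (l * (a * b)) = f.ev (l * a * b)
    rw [mul_assoc]
  smul_zero a := CI.ext fun l => rfl
  smul_add a f g := CI.ext fun l => rfl
  add_smul a b f := CI.ext fun l => by
    change f.ev (l * (a + b)) = f.ev (l * a) + f.ev (l * b)
    rw [mul_add, CI.ev_add']
  zero_smul f := CI.ext fun l => by
    change f.1 (l * 0) = 0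
    rw [mul_zero, map_zero]

attribute [local instance] CI.mod

variable {φ X}

theorem CI.ev_smul (f : CI φ X) (l l' : L) : (l • f).ev l' = f.ev (l' * l) := rfl

section functor

variable {X' X'' : Type} [AddCommGroup X'] [Module A X'] [AddCommGroup X''] [Module A X'']

/-- functoriality of coinduction -/
def CI.map (g : X →ₗ[A] X') : CI φ X →ₗ[L] CI φ X' where
  toFun f := CI.mk (g.toAddMonoidHom.comp f.1) (fun a l => by
    change g (f.ev (φ a * l)) = a • g (f.ev l)
    rw [CI.ev_smul_left, map_smul])
  map_add' f f' := CI.ext fun l => by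
    change g ((f + f').ev l) = g (f.ev l) + g (f'.ev l)
    rw [CI.ev_add, map_add]
  map_smul' l f := CI.ext fun l' => rfl

theorem CI.map_ev (g : X →ₗ[A] X') (f : CI φ X) (l : L) : (CI.map g f).ev l = g (f.ev l) := rfl

variable {n : ℕ} {b : Fin n → L} (hb : ∀ j a, b j * φ a = φ a * b j)
  (hbij : Function.Bijective (fun c : Fin n → A => ∑ j, φ (c j) * b j))

include hbij

theorem CI.ext_b {f g : CI φ X} (h : ∀ j, f.ev (b j) = g.ev (b j)) : f = g := by
  refine CI.ext fun l => ?_
  obtain ⟨c, rfl⟩ := hbij.2 l
  change f.ev (∑ j, φ (c j) * b j) = g.ev (∑ j, φ (c j) * b j)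
  rw [CI.ev_sum', CI.ev_sum']
  refine Finset.sum_congr rfl fun j _ => ?_
  rw [CI.ev_smul_left, CI.ev_smul_left, h]

theorem CI.exists_b (x : Fin n → X) : ∃ f : CI φ X, ∀ j, f.ev (b j) = x j := by
  classical
  let e := Equiv.ofBijective _ hbij
  have he : ∀ c, e c = ∑ j, φ (c j) * b j := fun c => rfl
  have hadd : ∀ l l', e.symm (l + l') = e.symm l + e.symm l' := by
    intro l l'
    rw [Equiv.symm_apply_eq, he]
    have h1 : ∀ j, φ ((e.symm l + e.symm l') j) * b j = φ (e.symm l j) * b j +
        φ (e.symm l' j) * b j := by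
      intro j
      rw [Pi.add_apply, map_add, add_mul]
    rw [Finset.sum_congr rfl fun j _ => h1 j, Finset.sum_add_distrib, ← he, ← he,
      Equiv.apply_symm_apply, Equiv.apply_symm_apply]
  have hmul : ∀ (a : A) l, e.symm (φ a * l) = fun j => a * e.symm l j := by
    intro a l
    rw [Equiv.symm_apply_eq, he]
    have h1 : ∀ j, φ (a * e.symm l j) * b j = φ a * (φ (e.symm l j) * b j) := by
      intro j
      rw [map_mul, mul_assoc]
    rw [Finset.sum_congr rfl fun j _ => h1 j, ← Finset.mul_sum, ← he, Equiv.apply_symm_apply]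
  have hsing : ∀ j, e.symm (b j) = Pi.single j 1 := by
    intro j
    rw [Equiv.symm_apply_eq, he, Finset.sum_eq_single j]
    · rw [Pi.single_eq_same, map_one, one_mul]
    · intro i _ hij
      rw [Pi.single_eq_of_ne hij, map_zero, zero_mul]
    · intro h
      exact absurd (Finset.mem_univ j) h
  refine ⟨CI.mk (AddMonoidHom.mk' (fun l => ∑ j, e.symm l j • x j) ?_) ?_, ?_⟩
  · intro l l'
    rw [hadd, ← Finset.sum_add_distrib]
    refine Finset.sum_congr rfl fun j _ => ?_
    rw [Pi.add_apply, add_smul]
  · intro a l
    change ∑ j, e.symm (φ a * l) j • x j = a • ∑ j, e.symm l j • x j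
    rw [hmul, Finset.smul_sum]
    refine Finset.sum_congr rfl fun j _ => ?_
    rw [mul_smul]
  · intro j
    rw [CI.ev_mk]
    change ∑ i, e.symm (b j) i • x i = x j
    rw [hsing, Finset.sum_eq_single j]
    · rw [Pi.single_eq_same, one_smul]
    · intro i _ hij
      rw [Pi.single_eq_of_ne hij, zero_smul]
    · intro h
      exact absurd (Finset.mem_univ j) h

theorem CI.ses {f : X →ₗ[A] X'} {g : X' →ₗ[A] X''} (h : SES f g) :
    SES (CI.map (φ := φ) f) (CI.map (φ := φ) g) where
  inj u v huv := CI.ext fun l => h.inj (congrArg (fun z => z.ev l) huv)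
  ex u hu := by
    have h1 : ∀ j, ∃ x, f x = u.ev (b j) := fun j => h.ex _ (congrArg (fun z => z.ev (b j)) hu)
    choose x hx using h1
    obtain ⟨v, hv⟩ := CI.exists_b (φ := φ) hbij x
    refine ⟨v, CI.ext_b hbij fun j => ?_⟩
    rw [CI.map_ev, hv, hx]
  comp u := CI.ext fun l => h.comp (u.ev l)
  surj u := by
    have h1 : ∀ j, ∃ x, g x = u.ev (b j) := fun j => h.surj _
    choose x hx using h1
    obtain ⟨v, hv⟩ := CI.exists_b (φ := φ) hbij x
    refine ⟨v, CI.ext_b hbij fun j => ?_⟩
    rw [CI.map_ev, hv, hx]

end functor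

/-- coinduction preserves injectivity -/
theorem CI.injective (J : Type) [AddCommGroup J] [Module A J] (hJ : Module.Injective A J) :
    Module.Injective L (CI φ J) := by
  refine ⟨fun U V _ _ _ _ i hi g => ?_⟩
  let _ : Module A U := Module.compHom U φ
  let _ : Module A V := Module.compHom V φ
  have hU : ∀ (a : A) (u : U), a • u = φ a • u := fun _ _ => rfl
  have hV : ∀ (a : A) (u : V), a • u = φ a • u := fun _ _ => rfl
  let i' : U →ₗ[A] V :=
    { toFun := i
      map_add' := map_add i
      map_smul' := fun a u => by rw [hU, map_smul]; rfl }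
  let g' : U →ₗ[A] J :=
    { toFun := fun u => (g u).ev 1
      map_add' := fun u v => by rw [map_add, CI.ev_add]
      map_smul' := fun a u => by
        rw [hU, map_smul, CI.ev_smul, one_mul, RingHom.id_apply, ← CI.ev_smul_left, mul_one] }
  obtain ⟨h0, hh0⟩ := hJ.out i' hi g'
  let h : V →ₗ[L] CI φ J :=
    { toFun := fun v => CI.mk (AddMonoidHom.mk' (fun l => h0 (l • v)) (fun l l' => by
        rw [add_smul, map_add])) (fun a l => by
        change h0 ((φ a * l) • v) = a • h0 (l • v)
        rw [mul_smul, ← hV, map_smul])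
      map_add' := fun v w => CI.ext fun l => by
        change h0 (l • (v + w)) = h0 (l • v) + h0 (l • w)
        rw [smul_add, map_add]
      map_smul' := fun l' v => CI.ext fun l => by
        change h0 (l • (l' • v)) = h0 ((l * l') • v)
        rw [mul_smul] }
  refine ⟨h, fun u => CI.ext fun l => ?_⟩
  change h0 (l • (i u)) = (g u).ev l
  rw [← map_smul]
  have h2 : h0 (i (l • u)) = (g (l • u)).ev 1 := hh0 (l • u)
  rw [h2, map_smul, CI.ev_smul, one_mul]

section main

variable {n : ℕ} {b : Fin n → L} (hb : ∀ j a, b j * φ a = φ a * b j)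
  (hbij : Function.Bijective (fun c : Fin n → A => ∑ j, φ (c j) * b j))
variable {S : Type} [AddCommGroup S] [Module L S] [Module A S] (hS : ∀ (a : A) (s : S), φ a • s = a • s)

include hbij hS

theorem CI.ev_of (m : ℕ) : ∀ (X : Type) [AddCommGroup X] [Module A X], EV A S X →
    EX L m S (CI φ X) := by
  induction m with
  | zero =>
    intro X _ _ hX
    obtain ⟨J, _, _, f, hJ, hf⟩ := exists_inj A X
    have hs := SES.ofCoker hf
    refine (CI.ses hbij hs).cov0 (EX.inj (CI.injective J hJ)) ?_
    intro F
    let F' : S →ₗ[A] (J ⧸ LinearMap.range f) :=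
      { toFun := fun s => (F s).ev 1
        map_add' := fun u v => by rw [map_add, CI.ev_add]
        map_smul' := fun a u => by
          rw [← hS, map_smul, CI.ev_smul, one_mul, RingHom.id_apply, ← CI.ev_smul_left, mul_one] }
    obtain ⟨H, hH⟩ := hs.lift (hX 0) F'
    let G : S →ₗ[L] CI φ J :=
      { toFun := fun v => CI.mk (AddMonoidHom.mk' (fun l => H (l • v)) (fun l l' => by
          rw [add_smul, map_add])) (fun a l => by
          change H ((φ a * l) • v) = a • H (l • v)
          rw [mul_smul, hS, map_smul])
        map_add' := fun v w => CI.ext fun l => by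
          change H (l • (v + w)) = H (l • v) + H (l • w)
          rw [smul_add, map_add]
        map_smul' := fun l' v => CI.ext fun l => by
          change H (l • (l' • v)) = H ((l * l') • v)
          rw [mul_smul] }
    refine ⟨G, fun s => CI.ext fun l => ?_⟩
    change (LinearMap.range f).mkQ (H (l • s)) = (F s).ev l
    rw [hH]
    change (F (l • s)).ev 1 = (F s).ev l
    rw [map_smul, CI.ev_smul, one_mul]
  | succ m ih =>
    intro X _ _ hX
    obtain ⟨J, _, _, f, hJ, hf⟩ := exists_inj A X
    have hs := SES.ofCoker hf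
    exact (CI.ses hbij hs).covS (EX.inj (CI.injective J hJ))
      (ih _ fun k => hs.covC (EX.inj hJ) (hX (k + 1)))

include hb in
/-- vanishing of all Ext groups over the subring gives vanishing over the big ring -/
theorem coind_vanish (m : ℕ) : ∀ (M : Type) [AddCommGroup M] [Module L M] [Module A M]
    (_ : ∀ (a : A) (x : M), φ a • x = a • x), (∀ (f : S →ₗ[A] M) (s : S), f s = 0) →
    EV A S M → EX L m S M := by
  have key : ∀ (M : Type) [AddCommGroup M] [Module L M] [Module A M]
      (_ : ∀ (a : A) (x : M), φ a • x = a • x), ∃ (C : Type) (_ : AddCommGroup C) (_ : Module L C)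
      (_ : Module A C) (_ : ∀ (a : A) (x : C), φ a • x = a • x) (f : M →ₗ[L] CI φ M)
      (g : CI φ M →ₗ[L] C) (s : C →ₗ[A] (Fin n → M)) (r : (Fin n → M) →ₗ[A] C),
      SES f g ∧ ∀ c, r (s c) = c := by
    intro M _ _ _ hM
    let η : M →ₗ[L] CI φ M :=
      { toFun := fun v => CI.mk (AddMonoidHom.mk' (fun l => l • v) (fun l l' => by
          rw [add_smul])) (fun a l => by
          change (φ a * l) • v = a • (l • v)
          rw [mul_smul, hM])
        map_add' := fun v w => CI.ext fun l => by
          change l • (v + w) = l • v + l • w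
          rw [smul_add]
        map_smul' := fun l' v => CI.ext fun l => by
          change l • (l' • v) = (l * l') • v
          rw [mul_smul] }
    have hη : ∀ v l, (η v).ev l = l • v := fun v l => rfl
    have hinj : Function.Injective η := by
      intro u v huv
      have h1 := congrArg (fun z => z.ev 1) huv
      change (η u).ev 1 = (η v).ev 1 at h1
      rw [hη, hη, one_smul, one_smul] at h1
      exact h1
    let _ : Module A (CI φ M) := Module.compHom _ φ
    have hCI : ∀ (a : A) (x : CI φ M), φ a • x = a • x := fun _ _ => rfl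
    let C := CI φ M ⧸ LinearMap.range η
    let _ : Module A C := Module.compHom _ φ
    have hC : ∀ (a : A) (x : C), φ a • x = a • x := fun _ _ => rfl
    -- the isomorphism of the coinduced module with a power
    let p : CI φ M →ₗ[A] (Fin n → M) :=
      { toFun := fun f j => f.ev (b j)
        map_add' := fun f g => rfl
        map_smul' := fun a f => by
          funext j
          change f.ev (b j * φ a) = a • f.ev (b j)
          rw [hb, CI.ev_smul_left] }
    have hp : Function.Bijective p := by
      constructor
      · intro f g hfg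
        exact CI.ext_b hbij fun j => congrFun hfg j
      · intro x
        obtain ⟨f, hf⟩ := CI.exists_b (φ := φ) hbij x
        exact ⟨f, funext hf⟩
    let e := LinearEquiv.ofBijective p hp
    let q : CI φ M →ₗ[A] C :=
      { toFun := (LinearMap.range η).mkQ
        map_add' := map_add _
        map_smul' := fun a x => by
          rw [← hCI, map_smul]
          rfl }
    let s0 : CI φ M →ₗ[A] CI φ M :=
      { toFun := fun f => f - η (f.ev 1)
        map_add' := fun f g => by
          rw [CI.ev_add, map_add]
          abel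
        map_smul' := fun a f => by
          have h1 : (a • f).ev 1 = a • f.ev 1 := by
            rw [← hCI, CI.ev_smul, one_mul, ← CI.ev_smul_left, mul_one]
          rw [h1, RingHom.id_apply, smul_sub, ← hM, map_smul, hCI] }
    have hs0 : ∀ x, η (x) - η ((η x).ev 1) = 0 := by
      intro x
      rw [hη, one_smul, sub_self]
    let σ : C →+ CI φ M := QuotientAddGroup.lift (LinearMap.range η).toAddSubgroup s0.toAddMonoidHom
      (by
        rintro x ⟨y, rfl⟩
        exact hs0 y)
    have hσ : ∀ f : CI φ M, σ (q f) = s0 f := fun f => rfl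
    have hqs : ∀ f, q (s0 f) = q f := by
      intro f
      have h1 : q (s0 f) = q f - q (η (f.ev 1)) := map_sub q _ _
      have h2 : q (η (f.ev 1)) = 0 := by
        change (LinearMap.range η).mkQ (η (f.ev 1)) = 0
        rw [Submodule.mkQ_apply, Submodule.Quotient.mk_eq_zero]
        exact ⟨_, rfl⟩
      rw [h1, h2, sub_zero]
    have hqsurj : Function.Surjective q := Submodule.mkQ_surjective _
    let σ' : C →ₗ[A] CI φ M :=
      { toFun := σ
        map_add' := map_add σ
        map_smul' := fun a x => by
          obtain ⟨f, rfl⟩ := hqsurj x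
          rw [← map_smul, hσ, hσ, map_smul, RingHom.id_apply] }
    refine ⟨C, inferInstance, inferInstance, inferInstance, hC, η, (LinearMap.range η).mkQ,
      e.toLinearMap ∘ₗ σ', q ∘ₗ e.symm.toLinearMap, SES.ofCoker hinj, ?_⟩
    intro c
    obtain ⟨f, rfl⟩ := hqsurj c
    change q (e.symm (e (σ (q f)))) = q f
    rw [LinearEquiv.symm_apply_apply, hσ, hqs]
  induction m with
  | zero =>
    intro M _ _ _ hM hh hX
    obtain ⟨C, _, _, _, hC, f, g, s, r, hs, hrs⟩ := key M hM
    refine hs.cov0 (CI.ev_of hbij hS 0 M hX) ?_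
    intro F
    have hF : ∀ x, F x = 0 := by
      intro x
      let F' : S →ₗ[A] C :=
        { toFun := F
          map_add' := map_add F
          map_smul' := fun a u => by rw [← hS, map_smul, hC]; rfl }
      have h1 : s (F' x) = 0 := by
        funext j
        exact hh ((LinearMap.proj j) ∘ₗ s ∘ₗ F') x
      have h2 := hrs (F' x)
      rw [h1, map_zero] at h2
      exact h2.symm
    exact ⟨0, fun x => by rw [LinearMap.zero_apply, map_zero, hF]⟩
  | succ m ih =>
    intro M _ _ _ hM hh hX
    obtain ⟨C, _, _, _, hC, f, g, s, r, hs, hrs⟩ := key M hM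
    refine hs.covS (CI.ev_of hbij hS (m + 1) M hX) (ih C hC ?_ ?_)
    · intro F x
      have h1 : s (F x) = 0 := by
        funext j
        exact hh ((LinearMap.proj j) ∘ₗ s ∘ₗ F) x
      have h2 := hrs (F x)
      rw [h1, map_zero] at h2
      exact h2.symm
    · intro k
      exact ((hX k).powR n).retrR s r hrs

end main

end CI

end Run7.h692.Eq
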