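import Pool.Agent.Helper426_Tach.ExtS

set_option autoImplicit false
set_option linter.unusedSectionVars false
open CategoryTheory Pool.Agent.Helper426Tach

namespace Run7.h692.Eq

/-- short exact sequences of modules -/
structure SES {R A B C : Type} [Ring R] [AddCommGroup A] [AddCommGroup B] [AddCommGroup C]
    [Module R A] [Module R B] [Module R C] (f : A →ₗ[R] B) (g : B →ₗ[R] C) : Prop where
  inj : Function.Injective f
  ex : ∀ b, g b = 0 → ∃ a, f a = b
  comp : ∀ a, g (f a) = 0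
  surj : Function.Surjective g

/-- the group `Ext^(n+1)` vanishes -/
def EX (R : Type) [Ring R] (n : ℕ) (X Y : Type) [AddCommGroup X] [AddCommGroup Y] [Module R X]
    [Module R Y] : Prop :=
  Subsingleton (Abelian.Ext.{0} (ModuleCat.of R X) (ModuleCat.of R Y) (n + 1))

/-- all positive Ext groups vanish -/
def EV (R : Type) [Ring R] (X Y : Type) [AddCommGroup X] [AddCommGroup Y] [Module R X]
    [Module R Y] : Prop := ∀ n : ℕ, EX R n X Y

section

variable {R : Type} [Ring R]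
variable {A B C X Y W : Type} [AddCommGroup A] [AddCommGroup B] [AddCommGroup C]
    [Module R A] [Module R B] [Module R C] [AddCommGroup X] [AddCommGroup Y] [AddCommGroup W]
    [Module R X] [Module R Y] [Module R W]

theorem SES.exact {f : A →ₗ[R] B} {g : B →ₗ[R] C} (h : SES f g) : Function.Exact f g := by
  intro b
  constructor
  · intro hb
    obtain ⟨a, ha⟩ := h.ex b hb
    exact ⟨a, ha⟩
  · rintro ⟨a, rfl⟩
    exact h.comp a

theorem SES.ofKer {g : B →ₗ[R] C} (hg : Function.Surjective g) :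
    SES (LinearMap.ker g).subtype g where
  inj := (LinearMap.ker g).injective_subtype
  ex b hb := ⟨⟨b, hb⟩, rfl⟩
  comp a := a.2
  surj := hg

theorem SES.ofCoker {f : A →ₗ[R] B} (hf : Function.Injective f) :
    SES f (LinearMap.range f).mkQ where
  inj := hf
  ex b hb := by
    rw [Submodule.mkQ_apply, Submodule.Quotient.mk_eq_zero] at hb
    exact hb
  comp a := by
    rw [Submodule.mkQ_apply, Submodule.Quotient.mk_eq_zero]
    exact ⟨a, rfl⟩
  surj := Submodule.mkQ_surjective _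

theorem SES.lift {f : A →ₗ[R] B} {g : B →ₗ[R] C} (h : SES f g) (hE : EX R 0 X A)
    (φ : X →ₗ[R] C) : ∃ ψ : X →ₗ[R] B, ∀ x, g (ψ x) = φ x := by
  obtain ⟨ψ, hψ⟩ := lift_of_ez (A := ModuleCat.of R A) (B := ModuleCat.of R B)
    (C := ModuleCat.of R C) (X := ModuleCat.of R X) f g h.inj h.exact h.surj hE φ
  exact ⟨ψ, fun x => LinearMap.congr_fun hψ x⟩

theorem SES.extend {f : A →ₗ[R] B} {g : B →ₗ[R] C} (h : SES f g) (hE : EX R 0 C Y)
    (φ : A →ₗ[R] Y) : ∃ ψ : B →ₗ[R] Y, ∀ a, ψ (f a) = φ a := by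
  obtain ⟨ψ, hψ⟩ := ext_of_ez (A := ModuleCat.of R A) (B := ModuleCat.of R B)
    (C := ModuleCat.of R C) (Y := ModuleCat.of R Y) f g h.inj h.exact h.surj hE φ
  exact ⟨ψ, fun x => LinearMap.congr_fun hψ x⟩

theorem SES.cov0 {f : A →ₗ[R] B} {g : B →ₗ[R] C} (h : SES f g) (hB : EX R 0 X B)
    (hl : ∀ φ : X →ₗ[R] C, ∃ ψ : X →ₗ[R] B, ∀ x, g (ψ x) = φ x) : EX R 0 X A := by
  have hS := sc_shortExact (A := ModuleCat.of R A) (B := ModuleCat.of R B)
    (C := ModuleCat.of R C) f g h.inj h.exact h.surj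
  refine subsingleton_of_forall_eq 0 fun x => ?_
  obtain ⟨y, hy⟩ := Abelian.Ext.covariant_sequence_exact₁ (ModuleCat.of R X) hS x (hB.elim _ _) rfl
  obtain ⟨φ, rfl⟩ := (Abelian.Ext.mk₀_bijective _ _).2 y
  obtain ⟨ψ, hψ⟩ := hl φ.hom
  have h1 : φ = ModuleCat.ofHom ψ ≫ ModuleCat.ofHom g := by
    apply ModuleCat.hom_ext
    apply LinearMap.ext
    intro x
    exact (hψ x).symm
  rw [← hy, h1, ← Abelian.Ext.mk₀_comp_mk₀, Abelian.Ext.comp_assoc_of_second_deg_zero]
  have h2 : (Abelian.Ext.mk₀ (ModuleCat.ofHom g)).comp hS.extClass (zero_add 1) = 0 :=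
    hS.comp_extClass
  rw [h2, Abelian.Ext.comp_zero]

theorem SES.covS {n : ℕ} {f : A →ₗ[R] B} {g : B →ₗ[R] C} (h : SES f g) (hB : EX R (n + 1) X B)
    (hC : EX R n X C) : EX R (n + 1) X A :=
  ez_cov1 (A := ModuleCat.of R A) (B := ModuleCat.of R B)
    (C := ModuleCat.of R C) (X := ModuleCat.of R X) f g h.inj h.exact h.surj hB hC

theorem SES.covC {n : ℕ} {f : A →ₗ[R] B} {g : B →ₗ[R] C} (h : SES f g) (hB : EX R n X B)
    (hA : EX R (n + 1) X A) : EX R n X C :=
  ez_cov3 (A := ModuleCat.of R A) (B := ModuleCat.of R B)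
    (C := ModuleCat.of R C) (X := ModuleCat.of R X) f g h.inj h.exact h.surj hB hA

theorem SES.covB {n : ℕ} {f : A →ₗ[R] B} {g : B →ₗ[R] C} (h : SES f g) (hA : EX R n X A)
    (hC : EX R n X C) : EX R n X B :=
  ez_cov2 (A := ModuleCat.of R A) (B := ModuleCat.of R B)
    (C := ModuleCat.of R C) (X := ModuleCat.of R X) f g h.inj h.exact h.surj hA hC

theorem SES.con0 {f : A →ₗ[R] B} {g : B →ₗ[R] C} (h : SES f g) (hB : EX R 0 B Y)
    (hl : ∀ φ : A →ₗ[R] Y, ∃ ψ : B →ₗ[R] Y, ∀ a, ψ (f a) = φ a) : EX R 0 C Y := by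
  have hS := sc_shortExact (A := ModuleCat.of R A) (B := ModuleCat.of R B)
    (C := ModuleCat.of R C) f g h.inj h.exact h.surj
  refine subsingleton_of_forall_eq 0 fun x => ?_
  obtain ⟨y, hy⟩ := Abelian.Ext.contravariant_sequence_exact₃ hS (ModuleCat.of R Y) x
    (hB.elim _ _) (Nat.add_comm 1 0)
  obtain ⟨φ, rfl⟩ := (Abelian.Ext.mk₀_bijective _ _).2 y
  obtain ⟨ψ, hψ⟩ := hl φ.hom
  have h1 : φ = ModuleCat.ofHom f ≫ ModuleCat.ofHom ψ := by
    apply ModuleCat.hom_ext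
    apply LinearMap.ext
    intro x
    exact (hψ x).symm
  rw [← hy, h1, ← Abelian.Ext.mk₀_comp_mk₀, ← Abelian.Ext.comp_assoc_of_second_deg_zero]
  have h2 : hS.extClass.comp (Abelian.Ext.mk₀ (ModuleCat.ofHom f)) (add_zero 1) = 0 :=
    hS.extClass_comp
  rw [h2, Abelian.Ext.zero_comp]

theorem SES.conS {n : ℕ} {f : A →ₗ[R] B} {g : B →ₗ[R] C} (h : SES f g) (hB : EX R (n + 1) B Y)
    (hA : EX R n A Y) : EX R (n + 1) C Y :=
  ez_contra3 (A := ModuleCat.of R A) (B := ModuleCat.of R B)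
    (C := ModuleCat.of R C) (Y := ModuleCat.of R Y) f g h.inj h.exact h.surj hA hB

theorem SES.conA {n : ℕ} {f : A →ₗ[R] B} {g : B →ₗ[R] C} (h : SES f g) (hB : EX R n B Y)
    (hC : EX R (n + 1) C Y) : EX R n A Y :=
  ez_contra1 (A := ModuleCat.of R A) (B := ModuleCat.of R B)
    (C := ModuleCat.of R C) (Y := ModuleCat.of R Y) f g h.inj h.exact h.surj hB hC

theorem SES.conB {n : ℕ} {f : A →ₗ[R] B} {g : B →ₗ[R] C} (h : SES f g) (hA : EX R n A Y)
    (hC : EX R n C Y) : EX R n B Y :=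
  ez_contra2 (A := ModuleCat.of R A) (B := ModuleCat.of R B)
    (C := ModuleCat.of R C) (Y := ModuleCat.of R Y) f g h.inj h.exact h.surj hA hC

theorem EX.retrR {n : ℕ} (s : Y →ₗ[R] W) (r : W →ₗ[R] Y) (hrs : ∀ y, r (s y) = y)
    (h : EX R n X W) : EX R n X Y :=
  ez_retract_right (X := ModuleCat.of R X) (W := ModuleCat.of R W) (Y := ModuleCat.of R Y) s r
    (LinearMap.ext hrs) h

theorem EX.retrL {n : ℕ} (s : X →ₗ[R] W) (r : W →ₗ[R] X) (hrs : ∀ y, r (s y) = y)
    (h : EX R n W Y) : EX R n X Y :=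
  ez_retract (X := ModuleCat.of R X) (W := ModuleCat.of R W) (Y := ModuleCat.of R Y) s r
    (LinearMap.ext hrs) h

theorem EX.powR {n : ℕ} (h : EX R n X Y) (r : ℕ) : EX R n X (Fin r → Y) :=
  ez_pow_right (X := ModuleCat.of R X) (Y := ModuleCat.of R Y) h r

theorem EX.powL {n : ℕ} (h : EX R n X Y) (r : ℕ) : EX R n (Fin r → X) Y :=
  ez_pow (Q := ModuleCat.of R X) (Y := ModuleCat.of R Y) h r

theorem EX.inj {n : ℕ} (h : Module.Injective R Y) : EX R n X Y :=
  ez_injective (X := ModuleCat.of R X) (I := ModuleCat.of R Y) h n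

theorem EX.proj {n : ℕ} (h : Module.Projective R X) : EX R n X Y :=
  ez_projective (P := ModuleCat.of R X) (X := ModuleCat.of R Y) h n

theorem ses_prod : SES (LinearMap.inl R A B) (LinearMap.snd R A B) where
  inj := LinearMap.inl_injective
  ex b hb := ⟨b.1, Prod.ext rfl hb.symm⟩
  comp _ := rfl
  surj := LinearMap.snd_surjective

theorem EX.prodR {n : ℕ} (hA : EX R n X A) (hB : EX R n X B) : EX R n X (A × B) :=
  (ses_prod (R := R) (A := A) (B := B)).covB hA hB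

theorem EX.prodL {n : ℕ} (hA : EX R n A Y) (hB : EX R n B Y) : EX R n (A × B) Y :=
  (ses_prod (R := R) (A := A) (B := B)).conB hA hB

end

end Run7.h692.Eq
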