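import Pool.Agent.Run7.h692.Eq.PD2
import Pool.Agent.Run7.h692.GendoFinal

set_option autoImplicit false
set_option linter.unusedSectionVars false
open scoped TensorProduct
open CategoryTheory MulOpposite Pool.Agent.Helper426Tach Pool.Agent.Helper426GSC
  Pool.Agent.Helper426TauT Pool.Agent.H546R3.Yam

namespace Run7.h692.Eq

section Defs

variable {T X W V U : Type} [Ring T] [AddCommGroup X] [Module T X] [AddCommGroup W] [Module T W]
  [AddCommGroup V] [Module T V] [AddCommGroup U] [Module T U]

/-- the opposite of the endomorphism ring of `T × X` -/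
abbrev AE (T X : Type) [Ring T] [AddCommGroup X] [Module T X] : Type :=
  (Module.End T (T × X))ᵐᵒᵖ

/-- the map of an element -/
def fn (a : AE T X) : (T × X) →ₗ[T] (T × X) := unop a

/-- the element of a map -/
def mkA (f : (T × X) →ₗ[T] (T × X)) : AE T X := op f

theorem fn_mkA (f : (T × X) →ₗ[T] (T × X)) (n : T × X) : fn (mkA f) n = f n := rfl

theorem fn_mul (a b : AE T X) (n : T × X) : fn (a * b) n = fn b (fn a n) := rfl

theorem fn_one (n : T × X) : fn (1 : AE T X) n = n := rfl

theorem fn_add (a b : AE T X) (n : T × X) : fn (a + b) n = fn a n + fn b n := rfl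

theorem fn_zero (n : T × X) : fn (0 : AE T X) n = 0 := rfl

theorem AE_ext {a b : AE T X} (h : ∀ n, fn a n = fn b n) : a = b :=
  unop_injective (LinearMap.ext h)

/-- the idempotent -/
def eE (T X : Type) [Ring T] [AddCommGroup X] [Module T X] : AE T X :=
  mkA (LinearMap.inl T T X ∘ₗ LinearMap.fst T T X)

theorem fn_eE (n : T × X) : fn (eE T X) n = (n.1, 0) := rfl

theorem eE_idem : eE T X * eE T X = eE T X := rfl

theorem elt_one (y : W) : elt (X := X) y ((1 : T), (0 : X)) = y := by
  rw [elt_apply]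
  exact one_smul T y

/-- elements of the right ideal come from elements -/
theorem fn_eA {y : AE T X} (hy : eE T X * y = y) (n : T × X) : fn y n = n.1 • fn y (1, 0) := by
  rw [← map_smul]
  conv_lhs => rw [← hy, fn_mul, fn_eE]
  congr 1
  rw [Prod.smul_mk, smul_eq_mul, mul_one, smul_zero]

theorem eA_elt (n : T × X) : eE T X * mkA (elt n) = mkA (elt n) := by
  apply AE_ext
  intro m
  rw [fn_mul, fn_eE]
  rfl

theorem eA_eq {y : AE T X} (hy : eE T X * y = y) : y = mkA (elt (fn y (1, 0))) := by
  apply AE_ext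
  intro n
  rw [fn_eA hy, fn_mkA, elt_apply]

theorem fn_Ae {x : AE T X} (hx : x * eE T X = x) (n : T × X) : fn x n = ((fn x n).1, 0) := by
  conv_lhs => rw [← hx, fn_mul, fn_eE]

/-- maps to a module, as a module over the opposite endomorphism ring -/
def GW (T X W : Type) [Ring T] [AddCommGroup X] [Module T X] [AddCommGroup W] [Module T W] :
    Type := (T × X) →ₗ[T] W

/-- the additive group -/
@[reducible]
def GW.acg (T X W : Type) [Ring T] [AddCommGroup X] [Module T X] [AddCommGroup W] [Module T W] :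
    AddCommGroup (GW T X W) := inferInstanceAs (AddCommGroup ((T × X) →ₗ[T] W))

attribute [local instance] GW.acg

/-- the value -/
def GW.ev (g : GW T X W) : (T × X) →ₗ[T] W := g

/-- the constructor -/
def GW.mk (g : (T × X) →ₗ[T] W) : GW T X W := g

theorem GW.ev_mk (g : (T × X) →ₗ[T] W) (n : T × X) : (GW.mk g).ev n = g n := rfl

theorem GW.ext {g h : GW T X W} (H : ∀ n, g.ev n = h.ev n) : g = h := LinearMap.ext H

theorem GW.add_ev (g h : GW T X W) (n : T × X) : (g + h).ev n = g.ev n + h.ev n := rfl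

theorem GW.zero_ev (n : T × X) : (0 : GW T X W).ev n = 0 := rfl

/-- the module structure -/
@[reducible]
def GW.mod (T X W : Type) [Ring T] [AddCommGroup X] [Module T X] [AddCommGroup W] [Module T W] :
    Module (AE T X) (GW T X W) where
  smul a g := GW.mk (g.ev ∘ₗ fn a)
  one_smul g := rfl
  mul_smul a b g := rfl
  smul_zero a := rfl
  smul_add a g h := rfl
  add_smul a b g := GW.ext fun n => by
    change g.ev (fn (a + b) n) = g.ev (fn a n) + g.ev (fn b n)
    rw [fn_add, map_add]
  zero_smul g := GW.ext fun n => by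
    change g.ev (fn (0 : AE T X) n) = 0
    rw [fn_zero, map_zero]

attribute [local instance] GW.mod

theorem GW.smul_ev (a : AE T X) (g : GW T X W) (n : T × X) : (a • g).ev n = g.ev (fn a n) := rfl

/-- functoriality -/
def GW.map (X : Type) [AddCommGroup X] [Module T X] (f : W →ₗ[T] V) :
    GW T X W →ₗ[AE T X] GW T X V where
  toFun g := GW.mk (f ∘ₗ g.ev)
  map_add' g h := GW.ext fun n => by
    change f ((g + h).ev n) = f (g.ev n) + f (h.ev n)
    rw [GW.add_ev, map_add]
  map_smul' a g := rfl

theorem GW.map_ev (f : W →ₗ[T] V) (g : GW T X W) (n : T × X) :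
    (GW.map X f g).ev n = f (g.ev n) := rfl

theorem GW.ses {f : W →ₗ[T] V} {g : V →ₗ[T] U} (h : SES f g) (hE : EX T 0 (T × X) W) :
    SES (GW.map X f) (GW.map X g) where
  inj u v huv := GW.ext fun n => h.inj (congrArg (fun z => z.ev n) huv)
  ex u hu := by
    have h1 : ∀ n, u.ev n ∈ LinearMap.range f := by
      intro n
      obtain ⟨a, ha⟩ := h.ex (u.ev n) (congrArg (fun z => z.ev n) hu)
      exact ⟨a, ha⟩
    let E := LinearEquiv.ofInjective f h.inj
    refine ⟨GW.mk (E.symm.toLinearMap ∘ₗ LinearMap.codRestrict _ u.ev h1), GW.ext fun n => ?_⟩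
    change f (E.symm (LinearMap.codRestrict _ u.ev h1 n)) = u.ev n
    exact LinearEquiv.ofInjective_symm_apply (h := h.inj) (f := f)
      (LinearMap.codRestrict _ u.ev h1 n)
  comp u := GW.ext fun n => h.comp (u.ev n)
  surj v := by
    obtain ⟨ψ, hψ⟩ := h.lift hE v.ev
    exact ⟨GW.mk ψ, GW.ext fun n => hψ n⟩

/-- maps from a module, as a module over the endomorphism ring -/
def FW (T X W : Type) [Ring T] [AddCommGroup X] [Module T X] [AddCommGroup W] [Module T W] :
    Type := W →ₗ[T] (T × X)

/-- the additive group -/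
@[reducible]
def FW.acg (T X W : Type) [Ring T] [AddCommGroup X] [Module T X] [AddCommGroup W] [Module T W] :
    AddCommGroup (FW T X W) := inferInstanceAs (AddCommGroup (W →ₗ[T] (T × X)))

attribute [local instance] FW.acg

/-- the value -/
def FW.ev (g : FW T X W) : W →ₗ[T] (T × X) := g

/-- the constructor -/
def FW.mk (g : W →ₗ[T] (T × X)) : FW T X W := g

theorem FW.ev_mk (g : W →ₗ[T] (T × X)) (n : W) : (FW.mk g).ev n = g n := rfl

theorem FW.ext {g h : FW T X W} (H : ∀ n, g.ev n = h.ev n) : g = h := LinearMap.ext H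

theorem FW.add_ev (g h : FW T X W) (n : W) : (g + h).ev n = g.ev n + h.ev n := rfl

theorem FW.zero_ev (n : W) : (0 : FW T X W).ev n = 0 := rfl

/-- the module structure -/
@[reducible]
def FW.mod (T X W : Type) [Ring T] [AddCommGroup X] [Module T X] [AddCommGroup W] [Module T W] :
    Module (AE T X)ᵐᵒᵖ (FW T X W) where
  smul b g := FW.mk (fn (unop b) ∘ₗ g.ev)
  one_smul g := rfl
  mul_smul a b g := rfl
  smul_zero a := FW.ext fun n => by
    change fn (unop a) 0 = 0
    rw [map_zero]
  smul_add a g h := FW.ext fun n => by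
    change fn (unop a) (g.ev n + h.ev n) = fn (unop a) (g.ev n) + fn (unop a) (h.ev n)
    rw [map_add]
  add_smul a b g := rfl
  zero_smul g := rfl

attribute [local instance] FW.mod

theorem FW.smul_ev (b : (AE T X)ᵐᵒᵖ) (g : FW T X W) (n : W) :
    (b • g).ev n = fn (unop b) (g.ev n) := rfl

/-- functoriality -/
def FW.map (X : Type) [AddCommGroup X] [Module T X] (f : W →ₗ[T] V) :
    FW T X V →ₗ[(AE T X)ᵐᵒᵖ] FW T X W where
  toFun g := FW.mk (g.ev ∘ₗ f)
  map_add' g h := rfl
  map_smul' a g := rfl

theorem FW.map_ev (f : W →ₗ[T] V) (g : FW T X V) (n : W) :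
    (FW.map X f g).ev n = g.ev (f n) := rfl

theorem FW.ses {f : W →ₗ[T] V} {g : V →ₗ[T] U} (h : SES f g) (hE : EX T 0 U (T × X)) :
    SES (FW.map X g) (FW.map X f) where
  inj u v huv := FW.ext fun n => by
    obtain ⟨z, rfl⟩ := h.surj n
    exact congrArg (fun w => w.ev z) huv
  ex u hu := by
    have hk : LinearMap.ker g ≤ LinearMap.ker u.ev := by
      intro z hz
      obtain ⟨a, rfl⟩ := h.ex z hz
      exact congrArg (fun w => w.ev a) hu
    let E := g.quotKerEquivOfSurjective h.surj
    refine ⟨FW.mk ((Submodule.liftQ _ u.ev hk) ∘ₗ E.symm.toLinearMap), FW.ext fun z => ?_⟩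
    have h3 : E.symm (g z) = Submodule.Quotient.mk z := by
      rw [LinearEquiv.symm_apply_eq]
      rfl
    change (Submodule.liftQ _ u.ev hk) (E.symm (g z)) = _
    rw [h3]
    rfl
  comp u := FW.ext fun n => by
    change u.ev (g (f n)) = 0
    rw [h.comp, map_zero]
  surj v := by
    obtain ⟨ψ, hψ⟩ := h.extend hE v.ev
    exact ⟨FW.mk ψ, FW.ext fun n => hψ n⟩

end Defs

end Run7.h692.Eq
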