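import Pool.Agent.Run7.h692.Eq.EndA

set_option autoImplicit false
set_option linter.unusedSectionVars false
open scoped TensorProduct
open CategoryTheory MulOpposite Pool.Agent.Helper426Tach Pool.Agent.Helper426GSC
  Pool.Agent.Helper426TauT Pool.Agent.H546R3.Yam

namespace Run7.h692.Eq

attribute [local instance] GW.acg GW.mod FW.acg FW.mod

section Emb

variable {K T : Type} [Field K] [Ring T] [Algebra K T] [FiniteDimensional K T]
variable (lam : T →ₗ[K] K) (hlam : ∀ r, (∀ r', lam (r' * r) = 0) → r = 0)

include hlam in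
/-- finitely generated modules over Frobenius algebras embed into free modules -/
theorem exists_emb (W : Type) [AddCommGroup W] [Module T W] [Module.Finite T W] :
    ∃ (k : ℕ) (f : W →ₗ[T] (Fin k → T)), Function.Injective f := by
  let _ : Module K W := Module.compHom W (algebraMap K T)
  have hst : IsScalarTower K T W := tower_compHom K T W
  have hfd : Module.Finite K W := Module.Finite.trans T W
  let b := Module.finBasis K W
  choose f hf using fun i => exists_hom (Y := W) lam hlam (b.coord i)
  refine ⟨_, LinearMap.pi f, fun w w' hw => ?_⟩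
  apply b.ext_elem
  intro i
  have h1 : f i w = f i w' := congrFun hw i
  have h2 := hf i w
  rw [h1, hf i w'] at h2
  exact h2.symm

end Emb

section EndB

variable {K T : Type} [Field K] [Ring T] [Algebra K T] [FiniteDimensional K T]
variable {X : Type} [AddCommGroup X] [Module T X] [Module K X] [IsScalarTower K T X]
  [FiniteDimensional K X]

theorem finite_AE : FiniteDimensional K (AE T X) := by
  have h1 : Module.Finite K (Module.End T (T × X)) := finite_end
  exact Module.Finite.equiv (MulOpposite.opLinearEquiv K)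

/-- the linear form -/
noncomputable def muE (lam : T →ₗ[K] K) : AE T X →ₗ[K] K where
  toFun a := lam (fn a (1, 0)).1
  map_add' a b := by rw [fn_add, Prod.fst_add, map_add]
  map_smul' c a := by
    change lam (c • (fn a (1, 0)).1) = c • lam (fn a (1, 0)).1
    rw [map_smul]

variable (lam : T →ₗ[K] K) (hlam : ∀ r, (∀ r', lam (r' * r) = 0) → r = 0)

theorem muE_apply (a : AE T X) : muE lam a = lam (fn a (1, 0)).1 := rfl

theorem muE_mul (a b : AE T X) : muE lam (a * b) = lam (fn b (fn a (1, 0))).1 := rfl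

theorem muE_elt (n : T × X) (b : AE T X) : muE lam (mkA (elt n) * b) = lam (fn b n).1 := by
  rw [muE_mul, fn_mkA, elt_one]

include hlam in
theorem pdE : PD K (AE T X) (eE T X) (muE lam) where
  idem := eE_idem
  nl y hy hh := by
    rw [eA_eq hy]
    have h1 : fn y (1, 0) = 0 := by
      apply (Module.forall_dual_apply_eq_zero_iff K _).mp
      intro θ
      obtain ⟨f, hf⟩ := exists_hom (Y := T × X) lam hlam θ
      have h2 := hh (mkA (LinearMap.inl T T X ∘ₗ f)) rfl
      rw [muE_mul, fn_mkA] at h2
      rw [← hf]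
      exact h2
    rw [h1]
    apply AE_ext
    intro n
    rw [fn_mkA, elt_apply, smul_zero, fn_zero]
  nr x hx hh := by
    have h1 : (LinearMap.fst T T X) ∘ₗ fn x = 0 := by
      apply hom_ext_lam lam hlam
      intro n
      have h2 := hh (mkA (elt n)) (eA_elt n)
      rw [muE_elt] at h2
      exact h2
    apply AE_ext
    intro n
    rw [fn_Ae hx, fn_zero]
    have h2 : (fn x n).1 = 0 := LinearMap.congr_fun h1 n
    rw [h2]
    rfl

/-- the modules of maps to free modules are injective -/
theorem GW_retract (h : PD K (AE T X) (eE T X) (muE lam))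
    (hl : ∀ r, (∀ r', lam (r' * r) = 0) → r = 0) (k : ℕ) :
    ∃ (s : GW T X (Fin k → T) →ₗ[AE T X] (Fin k → QD K (AE T X)))
      (r : (Fin k → QD K (AE T X)) →ₗ[AE T X] GW T X (Fin k → T)), ∀ g, r (s g) = g := by
  have hfd : FiniteDimensional K (AE T X) := finite_AE
  let s : GW T X (Fin k → T) →ₗ[AE T X] (Fin k → QD K (AE T X)) :=
    { toFun := fun g i => mkQ
        { toFun := fun a => lam (g.ev (fn a (1, 0)) i)
          map_add' := fun a b => by rw [fn_add, map_add, Pi.add_apply, map_add]
          map_smul' := fun c a => by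
            change lam (g.ev (c • fn a (1, 0)) i) = c • lam (g.ev (fn a (1, 0)) i)
            rw [← algebraMap_smul T c (fn a (1, 0)), map_smul, Pi.smul_apply, algebraMap_smul,
              map_smul] }
      map_add' := fun g h => by
        funext i
        apply qd_ext
        intro a
        change lam ((g + h).ev (fn a (1, 0)) i) = lam (g.ev (fn a (1, 0)) i) +
          lam (h.ev (fn a (1, 0)) i)
        rw [GW.add_ev, Pi.add_apply, map_add]
      map_smul' := fun b g => by
        funext i
        apply qd_ext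
        intro a
        rfl }
  have hs : ∀ g i a, ev (s g i) a = lam (g.ev (fn a (1, 0)) i) := fun _ _ _ => rfl
  let r : (Fin k → QD K (AE T X)) →ₗ[AE T X] GW T X (Fin k → T) :=
    { toFun := fun φ => GW.mk (LinearMap.pi fun i => (LinearMap.fst T T X) ∘ₗ fn (h.rep (φ i)))
      map_add' := fun φ ψ => GW.ext fun n => by
        funext i
        change (fn (h.rep (φ i + ψ i)) n).1 = (fn (h.rep (φ i)) n).1 + (fn (h.rep (ψ i)) n).1
        rw [h.rep_add, fn_add, Prod.fst_add]
      map_smul' := fun a φ => GW.ext fun n => by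
        funext i
        change (fn (h.rep (a • φ i)) n).1 = (fn (h.rep (φ i)) (fn a n)).1
        rw [h.rep_smul, fn_mul] }
  have hr : ∀ φ n i, (r φ).ev n i = (fn (h.rep (φ i)) n).1 := fun _ _ _ => rfl
  refine ⟨s, r, fun g => ?_⟩
  have h1 : ∀ i, (LinearMap.fst T T X) ∘ₗ fn (h.rep (s g i)) - LinearMap.proj i ∘ₗ g.ev = 0 := by
    intro i
    apply hom_ext_lam lam hl
    intro n
    rw [LinearMap.sub_apply, map_sub]
    have h2 := h.rep_spec (s g i) (mkA (elt n)) (eA_elt n)
    rw [muE_elt, hs, fn_mkA, elt_one] at h2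
    change lam (fn (h.rep (s g i)) n).1 - lam (g.ev n i) = 0
    rw [h2, sub_self]
  refine GW.ext fun n => ?_
  funext i
  rw [hr, ← sub_eq_zero]
  exact LinearMap.congr_fun (h1 i) n

theorem inj_GW (h : PD K (AE T X) (eE T X) (muE lam))
    (hl : ∀ r, (∀ r', lam (r' * r) = 0) → r = 0) (k : ℕ) :
    Module.Injective (AE T X) (GW T X (Fin k → T)) := by
  have hfd : FiniteDimensional K (AE T X) := finite_AE
  obtain ⟨s, r, hrs⟩ := GW_retract lam h hl k
  have hq : Module.Injective (AE T X) (QD K (AE T X)) := qd_injective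
  have hpow : Module.Injective (AE T X) (Fin k → QD K (AE T X)) := inferInstance
  exact inj_of_retract s r (LinearMap.ext hrs) hpow

/-- the modules of maps to free modules have vanishing Ext -/
theorem ex_GW (h : PD K (AE T X) (eE T X) (muE lam)) (hl : ∀ r, (∀ r', lam (r' * r) = 0) → r = 0)
    (S : Type) [AddCommGroup S] [Module (AE T X) S] (n k : ℕ) :
    EX (AE T X) n S (GW T X (Fin k → T)) := EX.inj (inj_GW lam h hl k)

/-- the modules of maps from free modules are injective on the other side -/
theorem ex_FW (h : PD K (AE T X) (eE T X) (muE lam))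
    (S : Type) [AddCommGroup S] [Module (AE T X)ᵐᵒᵖ S] (n k : ℕ) :
    EX (AE T X)ᵐᵒᵖ n S (FW T X (Fin k → T)) := by
  classical
  have hfd : FiniteDimensional K (AE T X) := finite_AE
  let s : FW T X (Fin k → T) →ₗ[(AE T X)ᵐᵒᵖ] (Fin k → QD K (AE T X)) :=
    { toFun := fun g i => mkQ
        { toFun := fun a => lam (fn a (g.ev (Pi.single i 1))).1
          map_add' := fun a b => by rw [fn_add, Prod.fst_add, map_add]
          map_smul' := fun c a => by
            change lam (c • (fn a (g.ev (Pi.single i 1))).1) = _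
            rw [map_smul]
            rfl }
      map_add' := fun g h => by
        funext i
        apply qd_ext
        intro a
        change lam (fn a ((g + h).ev (Pi.single i 1))).1 = lam (fn a (g.ev (Pi.single i 1))).1 +
          lam (fn a (h.ev (Pi.single i 1))).1
        rw [FW.add_ev, map_add, Prod.fst_add, map_add]
      map_smul' := fun b g => by
        funext i
        apply qd_ext
        intro a
        rfl }
  have hs : ∀ g i a, ev (s g i) a = lam (fn a (g.ev (Pi.single i 1))).1 := fun _ _ _ => rfl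
  let r : (Fin k → QD K (AE T X)) →ₗ[(AE T X)ᵐᵒᵖ] FW T X (Fin k → T) :=
    { toFun := fun φ => FW.mk (∑ i, (LinearMap.toSpanSingleton T (T × X) (fn (h.rp (φ i)) (1, 0)))
        ∘ₗ LinearMap.proj i)
      map_add' := fun φ ψ => FW.ext fun n => by
        rw [FW.add_ev, FW.ev_mk, FW.ev_mk, FW.ev_mk, LinearMap.sum_apply, LinearMap.sum_apply,
          LinearMap.sum_apply, ← Finset.sum_add_distrib]
        refine Finset.sum_congr rfl fun i _ => ?_
        change n i • fn (h.rp (φ i + ψ i)) (1, 0) = n i • fn (h.rp (φ i)) (1, 0) +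
          n i • fn (h.rp (ψ i)) (1, 0)
        rw [h.rp_add, fn_add, smul_add]
      map_smul' := fun b φ => FW.ext fun n => by
        rw [RingHom.id_apply, FW.smul_ev, FW.ev_mk, FW.ev_mk, LinearMap.sum_apply,
          LinearMap.sum_apply, map_sum]
        refine Finset.sum_congr rfl fun i _ => ?_
        change n i • fn (h.rp (b • φ i)) (1, 0) = fn (unop b) (n i • fn (h.rp (φ i)) (1, 0))
        rw [h.rp_smul, fn_mul, map_smul] }
  have hr : ∀ φ n, (r φ).ev n = ∑ i, n i • fn (h.rp (φ i)) (1, 0) := by
    intro φ n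
    change (∑ i, (LinearMap.toSpanSingleton T (T × X) (fn (h.rp (φ i)) (1, 0)))
        ∘ₗ LinearMap.proj i) n = _
    rw [LinearMap.sum_apply]
    rfl
  have hq : Module.Injective (AE T X)ᵐᵒᵖ (QD K (AE T X)) := qd_injective_op
  refine ((EX.inj (X := S) hq).powR k).retrR s r fun g => ?_
  refine FW.ext fun n => ?_
  have h1 : ∀ i, fn (h.rp (s g i)) (1, 0) = g.ev (Pi.single i 1) := by
    intro i
    have h2 : h.rp (s g i) = mkA (elt (g.ev (Pi.single i 1))) := by
      apply h.rp_eq _ _ (eA_elt _)
      intro x hx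
      rw [muE_elt, hs]
    rw [h2, fn_mkA, elt_one]
  have h2 : n = ∑ i, n i • (Pi.single i (1 : T) : Fin k → T) := by
    funext j
    rw [Finset.sum_apply, Finset.sum_eq_single j]
    · rw [Pi.smul_apply, Pi.single_eq_same, smul_eq_mul, mul_one]
    · intro i _ hij
      rw [Pi.smul_apply, Pi.single_eq_of_ne (Ne.symm hij), smul_zero]
    · intro h; exact absurd (Finset.mem_univ j) h
  rw [hr]
  conv_rhs => rw [h2, map_sum]
  refine Finset.sum_congr rfl fun i _ => ?_
  rw [h1, map_smul]

theorem hom_GW {S : Type} [AddCommGroup S] [Module (AE T X) S] (hS : ∀ s : S, eE T X • s = 0)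
    {W : Type} [AddCommGroup W] [Module T W] (f : S →ₗ[AE T X] GW T X W) (s : S) : f s = 0 := by
  refine GW.ext fun n => ?_
  have h1 : (mkA (elt n) : AE T X) • s = 0 := by
    rw [← eA_elt, mul_smul, hS]
  have h2 : (mkA (elt n) : AE T X) • f s = 0 := by rw [← map_smul, h1, map_zero]
  have h3 : ((mkA (elt n) : AE T X) • f s).ev (1, 0) = 0 := by
    rw [h2]
    rfl
  rw [GW.smul_ev, fn_mkA, elt_one] at h3
  exact h3

include hlam in
theorem hom_FW {S : Type} [AddCommGroup S] [Module (AE T X)ᵐᵒᵖ S]
    (hS : ∀ s : S, op (eE T X) • s = 0)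
    {W : Type} [AddCommGroup W] [Module T W] (f : S →ₗ[(AE T X)ᵐᵒᵖ] FW T X W) (s : S) :
    f s = 0 := by
  refine FW.ext fun w => ?_
  apply (Module.forall_dual_apply_eq_zero_iff K _).mp
  intro θ
  obtain ⟨g, hg⟩ := exists_hom (Y := T × X) lam hlam θ
  let b : AE T X := mkA (LinearMap.inl T T X ∘ₗ g)
  have hb : b * eE T X = b := rfl
  have h1 : op b • s = 0 := by
    rw [← hb, op_mul, mul_smul, hS]
  have h2 : op b • f s = 0 := by rw [← map_smul, h1, map_zero]
  have h3 : (op b • f s).ev w = 0 := by
    rw [h2]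
    rfl
  have h4 : g ((f s).ev w) = 0 := congrArg Prod.fst h3
  rw [← hg, h4, map_zero]

theorem ev_GW (h : PD K (AE T X) (eE T X) (muE lam)) (hl : ∀ r, (∀ r', lam (r' * r) = 0) → r = 0)
    {S : Type} [AddCommGroup S] [Module (AE T X) S] (hS : ∀ s : S, eE T X • s = 0) (n : ℕ) :
    ∀ (W : Type) [AddCommGroup W] [Module T W] [Module.Finite T W], EV T (T × X) W →
      EX (AE T X) n S (GW T X W) := by
  have hinj : Module.Injective T T := frob_injective lam hl
  induction n with
  | zero =>
    intro W _ _ _ hW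
    obtain ⟨k, f, hf⟩ := exists_emb lam hl W
    have hs := SES.ofCoker hf
    exact (GW.ses hs (hW 0)).cov0 (ex_GW lam h hl S 0 k) fun φ =>
      ⟨0, fun x => by rw [LinearMap.zero_apply, map_zero, hom_GW hS φ x]⟩
  | succ n ih =>
    intro W _ _ _ hW
    obtain ⟨k, f, hf⟩ := exists_emb lam hl W
    have hs := SES.ofCoker hf
    have hfi : Module.Injective T (Fin k → T) := inferInstance
    exact (GW.ses hs (hW 0)).covS (ex_GW lam h hl S (n + 1) k)
      (ih _ fun m => hs.covC (EX.inj hfi) (hW (m + 1)))

include hlam in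
theorem ev_FW (h : PD K (AE T X) (eE T X) (muE lam))
    {S : Type} [AddCommGroup S] [Module (AE T X)ᵐᵒᵖ S] (hS : ∀ s : S, op (eE T X) • s = 0)
    (n : ℕ) : ∀ (W : Type) [AddCommGroup W] [Module T W] [Module.Finite T W], EV T W (T × X) →
      EX (AE T X)ᵐᵒᵖ n S (FW T X W) := by
  have hN : IsNoetherianRing T := isNoeth K T
  induction n with
  | zero =>
    intro W _ _ _ hW
    obtain ⟨k, f, hf⟩ := exists_free T W
    have hs := SES.ofKer hf
    exact (FW.ses hs (hW 0)).cov0 (ex_FW lam h S 0 k) fun φ =>
      ⟨0, fun x => by rw [LinearMap.zero_apply, map_zero, hom_FW lam hlam hS φ x]⟩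
  | succ n ih =>
    intro W _ _ _ hW
    obtain ⟨k, f, hf⟩ := exists_free T W
    have hs := SES.ofKer hf
    have hfi : Module.Projective T (Fin k → T) := inferInstance
    exact (FW.ses hs (hW 0)).covS (ex_FW lam h S (n + 1) k)
      (ih _ fun m => hs.conA (EX.proj hfi) (hW (m + 1)))

/-- the algebra as a module of maps -/
def regG (T X : Type) [Ring T] [AddCommGroup X] [Module T X] :
    AE T X →ₗ[AE T X] GW T X (T × X) where
  toFun a := GW.mk (fn a)
  map_add' _ _ := rfl
  map_smul' _ _ := rfl

/-- the inverse -/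
def regG' (T X : Type) [Ring T] [AddCommGroup X] [Module T X] :
    GW T X (T × X) →ₗ[AE T X] AE T X where
  toFun a := mkA a.ev
  map_add' _ _ := rfl
  map_smul' _ _ := rfl

/-- the algebra as a module of maps, on the other side -/
def regF (T X : Type) [Ring T] [AddCommGroup X] [Module T X] :
    AE T X →ₗ[(AE T X)ᵐᵒᵖ] FW T X (T × X) where
  toFun a := FW.mk (fn a)
  map_add' _ _ := rfl
  map_smul' _ _ := rfl

/-- the inverse -/
def regF' (T X : Type) [Ring T] [AddCommGroup X] [Module T X] :
    FW T X (T × X) →ₗ[(AE T X)ᵐᵒᵖ] AE T X where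
  toFun a := mkA a.ev
  map_add' _ _ := rfl
  map_smul' _ _ := rfl

theorem left_E (h : PD K (AE T X) (eE T X) (muE lam)) (hl : ∀ r, (∀ r', lam (r' * r) = 0) → r = 0)
    [Module.Finite T X] (hX : EV T (T × X) (T × X))
    (S : Type) [AddCommGroup S] [Module (AE T X) S] (hS : ∀ s : S, eE T X • s = 0) :
    (∀ (f : S →ₗ[AE T X] AE T X) (s : S), f s = 0) ∧ EV (AE T X) S (AE T X) := by
  constructor
  · intro f s
    have h1 := hom_GW hS (regG T X ∘ₗ f) s
    have h2 : regG' T X (regG T X (f s)) = regG' T X 0 := congrArg _ h1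
    rw [map_zero] at h2
    exact h2
  · intro n
    exact (ev_GW lam h hl hS n (T × X) hX).retrR (regG T X) (regG' T X) fun y => rfl

include hlam in
theorem right_E (h : PD K (AE T X) (eE T X) (muE lam))
    [Module.Finite T X] (hX : EV T (T × X) (T × X))
    (S : Type) [AddCommGroup S] [Module (AE T X)ᵐᵒᵖ S] (hS : ∀ s : S, op (eE T X) • s = 0) :
    (∀ (f : S →ₗ[(AE T X)ᵐᵒᵖ] AE T X) (s : S), f s = 0) ∧ EV (AE T X)ᵐᵒᵖ S (AE T X) := by
  constructor
  · intro f s
    have h1 := hom_FW lam hlam hS (regF T X ∘ₗ f) s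
    have h2 : regF' T X (regF T X (f s)) = regF' T X 0 := congrArg _ h1
    rw [map_zero] at h2
    exact h2
  · intro n
    exact (ev_FW lam hlam h hS n (T × X) hX).retrR (regF T X) (regF' T X) fun y => rfl

end EndB

end Run7.h692.Eq
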