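import Pool.Agent.Run7.h692.Eq.EndB

set_option autoImplicit false
set_option linter.unusedSectionVars false
open scoped TensorProduct
open CategoryTheory MulOpposite Pool.Agent.Helper426Tach Pool.Agent.Helper426GSC
  Pool.Agent.Helper426TauT Pool.Agent.H546R3.Yam

namespace Run7.h692.Eq

attribute [local instance] GW.acg GW.mod FW.acg FW.mod

section EndC

variable {K T : Type} [Field K] [Ring T] [Algebra K T] [FiniteDimensional K T]
variable {X : Type} [AddCommGroup X] [Module T X] [Module K X] [IsScalarTower K T X]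
  [FiniteDimensional K X]
variable (lam : T →ₗ[K] K) (hlam : ∀ r, (∀ r', lam (r' * r) = 0) → r = 0)
variable (ν : T ≃+* T) (hν : ∀ s t, lam (s * t) = lam (ν t * s))

/-- the functional of an element -/
noncomputable def phi (n : T × X) : QD K (AE T X) := mkQ
  { toFun := fun a => lam (fn a n).1
    map_add' := fun a b => by rw [fn_add, Prod.fst_add, map_add]
    map_smul' := fun c a => by
      change lam (c • (fn a n).1) = c • lam (fn a n).1
      rw [map_smul] }

theorem phi_ev (n : T × X) (a : AE T X) : ev (phi lam n) a = lam (fn a n).1 := rfl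

theorem phi_add (n m : T × X) : phi lam (n + m) = phi lam n + phi lam m := by
  apply qd_ext
  intro a
  rw [ev_add, phi_ev, phi_ev, phi_ev, map_add, Prod.fst_add, map_add]

include hlam in
theorem phi_inj {n m : T × X} (h : phi lam n = phi lam m) : n = m := by
  rw [← sub_eq_zero]
  apply (Module.forall_dual_apply_eq_zero_iff K _).mp
  intro θ
  obtain ⟨g, hg⟩ := exists_hom (Y := T × X) lam hlam θ
  rw [← hg, map_sub, map_sub, sub_eq_zero]
  exact congrArg (fun z => ev z (mkA (LinearMap.inl T T X ∘ₗ g))) h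

include hν in
theorem phi_nu (t : T) (n : T × X) :
    phi lam (ν t • n) = (mkA (elt (t, 0)) : AE T X) • phi lam n := by
  apply qd_ext
  intro a
  rw [ev_smul, phi_ev, phi_ev, fn_mul, fn_mkA, elt_apply, map_smul]
  change lam (ν t * (fn a n).1) = lam ((fn a n).1 * t)
  exact (hν _ _).symm

theorem phi_rp (h : PD K (AE T X) (eE T X) (muE lam)) [FiniteDimensional K (AE T X)]
    (ψ : QD K (AE T X)) : phi lam (fn (h.rp ψ) (1, 0)) = eE T X • ψ := by
  apply qd_ext
  intro a
  have h1 : (a * eE T X) * eE T X = a * eE T X := by rw [mul_assoc, eE_idem]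
  rw [ev_smul, phi_ev, ← h.rp_spec ψ _ h1, muE_mul, fn_mul, fn_eE]

theorem elt_tau (t : T) (n : T × X) :
    (mkA (elt (t, 0)) : AE T X) * mkA (elt n) = mkA (elt (t • n)) := by
  apply AE_ext
  intro m
  rw [fn_mul, fn_mkA, fn_mkA, fn_mkA, elt_apply, elt_apply, elt_apply, ← mul_smul]
  rfl

theorem elt_fn (a : AE T X) (n : T × X) :
    (mkA (elt n) : AE T X) * a = mkA (elt (fn a n)) := by
  apply AE_ext
  intro m
  rw [fn_mul, fn_mkA, fn_mkA, elt_apply, elt_apply, map_smul]

theorem elt_add' (n m : T × X) : (mkA (elt (n + m)) : AE T X) = mkA (elt n) + mkA (elt m) := by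
  apply AE_ext
  intro u
  rw [fn_add, fn_mkA, fn_mkA, fn_mkA, elt_apply, elt_apply, elt_apply, smul_add]

variable {Nv : Type} [AddCommGroup Nv] [Module T Nv] (tw : (T × X) ≃+ Nv)
  (htw : ∀ (t : T) (n : T × X), tw (ν t • n) = t • tw n)

include hlam hν htw in
theorem tach_lift (h : PD K (AE T X) (eE T X) (muE lam))
    {W V : Type} [AddCommGroup W] [Module T W] [AddCommGroup V] [Module T V]
    (p : V →ₗ[T] W) (hp : ∀ F : Nv →ₗ[T] W, ∃ G : Nv →ₗ[T] V, ∀ z, p (G z) = F z)
    (F : QD K (AE T X) →ₗ[AE T X] GW T X W) :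
    ∃ H : QD K (AE T X) →ₗ[AE T X] GW T X V, ∀ φ, GW.map X p (H φ) = F φ := by
  have hfd : FiniteDimensional K (AE T X) := finite_AE
  have htw' : ∀ (t : T) (z : Nv), tw.symm (t • z) = ν t • tw.symm z := by
    intro t z
    rw [AddEquiv.symm_apply_eq, htw, AddEquiv.apply_symm_apply]
  let Fe : Nv →ₗ[T] W :=
    { toFun := fun z => (F (phi lam (tw.symm z))).ev (1, 0)
      map_add' := fun z w => by rw [map_add, phi_add, map_add, GW.add_ev]
      map_smul' := fun t z => by
        rw [htw', phi_nu lam ν hν, map_smul, GW.smul_ev, fn_mkA, elt_one, RingHom.id_apply,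
          ← map_smul]
        congr 1
        rw [Prod.smul_mk, smul_eq_mul, mul_one, smul_zero] }
  obtain ⟨He, hHe⟩ := hp Fe
  have key : ∀ (n : T × X) (φ : QD K (AE T X)),
      phi lam (fn (h.rp ((mkA (elt n) : AE T X) • φ)) (1, 0)) = (mkA (elt n) : AE T X) • φ := by
    intro n φ
    rw [phi_rp, ← mul_smul, eA_elt]
  have key2 : ∀ (t : T) (n : T × X) (φ : QD K (AE T X)),
      fn (h.rp ((mkA (elt (t • n)) : AE T X) • φ)) (1, 0) =
        ν t • fn (h.rp ((mkA (elt n) : AE T X) • φ)) (1, 0) := by
    intro t n φ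
    apply phi_inj lam hlam
    rw [phi_nu lam ν hν, key, key, ← mul_smul, elt_tau]
  let H : QD K (AE T X) →ₗ[AE T X] GW T X V :=
    { toFun := fun φ => GW.mk
        { toFun := fun n => He (tw (fn (h.rp ((mkA (elt n) : AE T X) • φ)) (1, 0)))
          map_add' := fun n m => by
            rw [elt_add', add_smul, h.rp_add, fn_add, map_add, map_add]
          map_smul' := fun t n => by
            rw [key2, htw, map_smul, RingHom.id_apply] }
      map_add' := fun φ ψ => GW.ext fun n => by
        change He (tw (fn (h.rp ((mkA (elt n) : AE T X) • (φ + ψ))) (1, 0))) =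
          He (tw (fn (h.rp ((mkA (elt n) : AE T X) • φ)) (1, 0))) +
          He (tw (fn (h.rp ((mkA (elt n) : AE T X) • ψ)) (1, 0)))
        rw [smul_add, h.rp_add, fn_add, map_add, map_add]
      map_smul' := fun a φ => GW.ext fun n => by
        change He (tw (fn (h.rp ((mkA (elt n) : AE T X) • (a • φ))) (1, 0))) =
          He (tw (fn (h.rp ((mkA (elt (fn a n)) : AE T X) • φ)) (1, 0)))
        rw [← mul_smul, elt_fn] }
  refine ⟨H, fun φ => GW.ext fun n => ?_⟩
  change p (He (tw (fn (h.rp ((mkA (elt n) : AE T X) • φ)) (1, 0)))) = (F φ).ev n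
  rw [hHe]
  change (F (phi lam (tw.symm (tw (fn (h.rp ((mkA (elt n) : AE T X) • φ)) (1, 0)))))).ev (1, 0) = _
  rw [AddEquiv.symm_apply_apply, key, map_smul, GW.smul_ev, fn_mkA, elt_one]

include hlam hν htw in
theorem ev_tach (h : PD K (AE T X) (eE T X) (muE lam)) (n : ℕ) :
    ∀ (W : Type) [AddCommGroup W] [Module T W] [Module.Finite T W], EV T (T × X) W →
      EV T Nv W → EX (AE T X) n (QD K (AE T X)) (GW T X W) := by
  have hinj : Module.Injective T T := frob_injective lam hlam
  induction n with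
  | zero =>
    intro W _ _ _ hW hV
    obtain ⟨k, f, hf⟩ := exists_emb lam hlam W
    have hs := SES.ofCoker hf
    exact (GW.ses hs (hW 0)).cov0 (ex_GW lam h hlam _ 0 k)
      (tach_lift lam hlam ν hν tw htw h _ (fun F => hs.lift (hV 0) F))
  | succ n ih =>
    intro W _ _ _ hW hV
    obtain ⟨k, f, hf⟩ := exists_emb lam hlam W
    have hs := SES.ofCoker hf
    have hfi : Module.Injective T (Fin k → T) := inferInstance
    exact (GW.ses hs (hW 0)).covS (ex_GW lam h hlam _ (n + 1) k)
      (ih _ (fun m => hs.covC (EX.inj hfi) (hW (m + 1)))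
        (fun m => hs.covC (EX.inj hfi) (hV (m + 1))))

end EndC

section Final

variable {K T : Type} [Field K] [Ring T] [Algebra K T] [FiniteDimensional K T]
variable {X : Type} [AddCommGroup X] [Module T X] [Module K X] [IsScalarTower K T X]
  [Module.Finite T X]
variable (lam : T →ₗ[K] K) (hlam : ∀ r, (∀ r', lam (r' * r) = 0) → r = 0)
variable (ν : T ≃+* T) (hν : ∀ s t, lam (s * t) = lam (ν t * s))
variable {Xv : Type} [AddCommGroup Xv] [Module T Xv] (tw : X ≃+ Xv)
  (htw : ∀ (t : T) (n : X), tw (ν t • n) = t • tw n)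

include hlam hν htw in
/-- the criterion applies to endomorphism algebras over Frobenius algebras -/
theorem cd_E (hX : EV T X X) (hXv : EV T Xv X) : CD K (AE T X) (eE T X) (muE lam) := by
  have hfd : FiniteDimensional K X := Module.Finite.trans T X
  have hinj : Module.Injective T T := frob_injective lam hlam
  have hproj : Module.Projective T T := inferInstance
  have h := pdE (X := X) lam hlam
  have hNN : EV T (T × X) (T × X) := fun n =>
    EX.prodL (EX.proj hproj) (EX.prodR (EX.inj hinj) (hX n))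
  have hNv : EV T (T × Xv) (T × X) := fun n =>
    EX.prodL (EX.proj hproj) (EX.prodR (EX.inj hinj) (hXv n))
  let tw' : (T × X) ≃+ (T × Xv) := AddEquiv.prodCongr ν.symm.toAddEquiv tw
  have htw' : ∀ (t : T) (n : T × X), tw' (ν t • n) = t • tw' n := by
    intro t n
    have h1 : ν.symm (ν t * n.1) = t * ν.symm n.1 := by
      rw [map_mul, RingEquiv.symm_apply_apply]
    exact Prod.ext h1 (htw t n.2)
  refine ⟨h, fun S _ _ hS => left_E lam h hlam hNN S hS,
    fun S _ _ hS => right_E lam hlam h hNN S hS, fun n => ?_⟩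
  exact (ev_tach lam hlam ν hν tw' htw' h n (T × X) hNN hNv).retrR (regG T X) (regG' T X)
    fun y => rfl

end Final

end Run7.h692.Eq
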