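import Pool.Agent.Run7.h692.Eq.TR
import Pool.Agent.Run7.h692.Eq.Coind
import Pool.Agent.Run7.h692.GPSeq

set_option autoImplicit false
set_option linter.unusedSectionVars false
open scoped TensorProduct
open CategoryTheory MulOpposite Pool.Agent.Helper426Tach Pool.Agent.Helper426GSC
  Pool.Agent.Helper426TauT

namespace Run7.h692.Eq

section Pair

variable {K A : Type} [Field K] [Ring A] [Algebra K A]

/-- a perfect pairing between `eA` and `Ae` given by a linear form on `eAe` -/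
structure PD (K A : Type) [Field K] [Ring A] [Algebra K A] (e : A) (μ : A →ₗ[K] K) : Prop where
  idem : e * e = e
  nl : ∀ y, e * y = y → (∀ x, x * e = x → μ (y * x) = 0) → y = 0
  nr : ∀ x, x * e = x → (∀ y, e * y = y → μ (y * x) = 0) → x = 0

/-- the right ideal of the idempotent -/
def rI (K : Type) {A : Type} [Field K] [Ring A] [Algebra K A] (e : A) : Submodule K A where
  carrier := {y | e * y = y}
  zero_mem' := mul_zero e
  add_mem' := fun {a b} ha hb => by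
    change e * (a + b) = a + b
    rw [mul_add, ha, hb]
  smul_mem' := fun c x hx => by
    change e * (c • x) = c • x
    rw [mul_smul_comm, hx]

/-- the left ideal of the idempotent -/
def lI (K : Type) {A : Type} [Field K] [Ring A] [Algebra K A] (e : A) : Submodule K A where
  carrier := {y | y * e = y}
  zero_mem' := zero_mul e
  add_mem' := fun {a b} ha hb => by
    change (a + b) * e = a + b
    rw [add_mul, ha, hb]
  smul_mem' := fun c x hx => by
    change (c • x) * e = c • x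
    rw [smul_mul_assoc, hx]

variable {e : A} {μ : A →ₗ[K] K}

theorem PD.exists_rep [FiniteDimensional K A] (h : PD K A e μ) (φ : A →ₗ[K] K) :
    ∃ x : A, x * e = x ∧ ∀ y, e * y = y → μ (y * x) = φ y := by
  let P : lI K e →ₗ[K] Module.Dual K (rI K e) :=
    LinearMap.mk₂ K (fun (x : lI K e) (y : rI K e) => μ ((y : A) * x))
      (fun x x' y => by rw [Submodule.coe_add, mul_add, map_add])
      (fun c x y => by rw [Submodule.coe_smul, mul_smul_comm, map_smul])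
      (fun x y y' => by rw [Submodule.coe_add, add_mul, map_add])
      (fun c x y => by rw [Submodule.coe_smul, smul_mul_assoc, map_smul])
  let Q : rI K e →ₗ[K] Module.Dual K (lI K e) :=
    LinearMap.mk₂ K (fun (y : rI K e) (x : lI K e) => μ ((y : A) * x))
      (fun x y y' => by rw [Submodule.coe_add, add_mul, map_add])
      (fun c x y => by rw [Submodule.coe_smul, smul_mul_assoc, map_smul])
      (fun x x' y => by rw [Submodule.coe_add, mul_add, map_add])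
      (fun c x y => by rw [Submodule.coe_smul, mul_smul_comm, map_smul])
  have hP : Function.Injective P := by
    rw [injective_iff_map_eq_zero]
    intro x hx
    apply Subtype.ext
    exact h.nr x x.2 fun y hy => LinearMap.congr_fun hx ⟨y, hy⟩
  have hQ : Function.Injective Q := by
    rw [injective_iff_map_eq_zero]
    intro y hy
    apply Subtype.ext
    exact h.nl y y.2 fun x hx => LinearMap.congr_fun hy ⟨x, hx⟩
  have h1 := LinearMap.finrank_le_finrank_of_injective hP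
  have h2 := LinearMap.finrank_le_finrank_of_injective hQ
  rw [Subspace.dual_finrank_eq] at h1 h2
  have h3 : Module.finrank K (lI K e) = Module.finrank K (Module.Dual K (rI K e)) := by
    rw [Subspace.dual_finrank_eq]
    exact le_antisymm h1 h2
  have hs := (LinearMap.injective_iff_surjective_of_finrank_eq_finrank h3).mp hP
  obtain ⟨x, hx⟩ := hs (φ ∘ₗ (rI K e).subtype)
  exact ⟨x, x.2, fun y hy => LinearMap.congr_fun hx ⟨y, hy⟩⟩

theorem PD.unique (h : PD K A e μ) {x x' : A} (hx : x * e = x) (hx' : x' * e = x')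
    (hh : ∀ y, e * y = y → μ (y * x) = μ (y * x')) : x = x' := by
  rw [← sub_eq_zero]
  apply h.nr
  · rw [sub_mul, hx, hx']
  · intro y hy
    rw [mul_sub, map_sub, hh y hy, sub_self]

/-- the representing element of a functional -/
noncomputable def PD.rep [FiniteDimensional K A] (h : PD K A e μ) (φ : QD K A) : A :=
  (h.exists_rep (show A →ₗ[K] K from φ)).choose

theorem PD.rep_mul [FiniteDimensional K A] (h : PD K A e μ) (φ : QD K A) :
    h.rep φ * e = h.rep φ := (h.exists_rep (show A →ₗ[K] K from φ)).choose_spec.1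

theorem PD.rep_spec [FiniteDimensional K A] (h : PD K A e μ) (φ : QD K A) (y : A)
    (hy : e * y = y) : μ (y * h.rep φ) = ev φ y :=
  (h.exists_rep (show A →ₗ[K] K from φ)).choose_spec.2 y hy

theorem PD.rep_add [FiniteDimensional K A] (h : PD K A e μ) (φ ψ : QD K A) :
    h.rep (φ + ψ) = h.rep φ + h.rep ψ := by
  apply h.unique (h.rep_mul _)
  · rw [add_mul, h.rep_mul, h.rep_mul]
  · intro y hy
    rw [h.rep_spec _ y hy, mul_add, map_add, h.rep_spec _ y hy, h.rep_spec _ y hy, ev_add]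

theorem PD.rep_smul [FiniteDimensional K A] (h : PD K A e μ) (a : A) (φ : QD K A) :
    h.rep (a • φ) = a * h.rep φ := by
  apply h.unique (h.rep_mul _)
  · rw [mul_assoc, h.rep_mul]
  · intro y hy
    have h1 : e * (y * a) = y * a := by rw [← mul_assoc, hy]
    rw [h.rep_spec _ y hy, ev_smul, ← mul_assoc, h.rep_spec _ _ h1]

end Pair

section Free

variable {A L : Type} [Ring A] [Ring L] (φ : A →+* L)
variable {n : ℕ} {b : Fin n → L}
  (hbij : Function.Bijective (fun c : Fin n → A => ∑ j, φ (c j) * b j))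
variable {S : Type} [AddCommGroup S] [Module A S]

include hbij in
theorem free_kl [Module A L] (hL : ∀ (a : A) (x : L), φ a * x = a • x)
    (h0 : ∀ (f : S →ₗ[A] A) (s : S), f s = 0) (h1 : EV A S A) :
    (∀ (f : S →ₗ[A] L) (s : S), f s = 0) ∧ EV A S L := by
  let p : (Fin n → A) →ₗ[A] L :=
    { toFun := fun c => ∑ j, φ (c j) * b j
      map_add' := fun c d => by
        rw [← Finset.sum_add_distrib]
        refine Finset.sum_congr rfl fun j _ => ?_
        rw [Pi.add_apply, map_add, add_mul]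
      map_smul' := fun a c => by
        rw [RingHom.id_apply, ← hL, Finset.mul_sum]
        refine Finset.sum_congr rfl fun j _ => ?_
        rw [Pi.smul_apply, smul_eq_mul, map_mul, mul_assoc] }
  let e : (Fin n → A) ≃ₗ[A] L := LinearEquiv.ofBijective p hbij
  constructor
  · intro f s
    have h2 : e.symm (f s) = 0 := by
      funext j
      exact h0 ((LinearMap.proj j) ∘ₗ e.symm.toLinearMap ∘ₗ f) s
    rw [← e.apply_symm_apply (f s), h2, map_zero]
  · intro m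
    exact ((h1 m).powR n).retrR e.symm.toLinearMap e.toLinearMap fun y => e.apply_symm_apply y

end Free

section Crit

variable {K A : Type} [Field K] [Ring A] [Algebra K A]

/-- modules over the enveloping algebra killed on one side by the idempotent -/
def KlE (K : Type) {A : Type} [Field K] [Ring A] [Algebra K A] (e : A) (S : Type)
    [AddCommGroup S] [Module (A ⊗[K] Aᵐᵒᵖ) S] : Prop :=
  (∀ s : S, (e ⊗ₜ[K] (1 : Aᵐᵒᵖ)) • s = 0) ∨ (∀ s : S, ((1 : A) ⊗ₜ[K] op e) • s = 0)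

/-- the hypotheses of the criterion -/
structure CD (K A : Type) [Field K] [Ring A] [Algebra K A] (e : A) (μ : A →ₗ[K] K) : Prop where
  pd : PD K A e μ
  left : ∀ (S : Type) [AddCommGroup S] [Module A S], (∀ s : S, e • s = 0) →
    (∀ (f : S →ₗ[A] A) (s : S), f s = 0) ∧ EV A S A
  right : ∀ (S : Type) [AddCommGroup S] [Module Aᵐᵒᵖ S], (∀ s : S, op e • s = 0) →
    (∀ (f : S →ₗ[Aᵐᵒᵖ] A) (s : S), f s = 0) ∧ EV Aᵐᵒᵖ S A
  tach : EV A (QD K A) A

variable {e : A} {μ : A →ₗ[K] K}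

theorem bij_left {n : ℕ} (bs : Module.Basis (Fin n) K A) :
    Function.Bijective (fun c : Fin n → A =>
      ∑ j, (Algebra.TensorProduct.includeLeft : A →ₐ[K] A ⊗[K] Aᵐᵒᵖ).toRingHom (c j) *
        ((1 : A) ⊗ₜ[K] op (bs j))) := by
  classical
  let bo : Module.Basis (Fin n) K Aᵐᵒᵖ := bs.map (MulOpposite.opLinearEquiv K)
  have hbo : ∀ j, bo j = op (bs j) := fun j => rfl
  have h1 : ∀ c : Fin n → A,
      (∑ j, (Algebra.TensorProduct.includeLeft : A →ₐ[K] A ⊗[K] Aᵐᵒᵖ).toRingHom (c j) *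
        ((1 : A) ⊗ₜ[K] op (bs j))) = (TensorProduct.equivFinsuppOfBasisRight bo).symm
          (Finsupp.equivFunOnFinite.symm c) := by
    intro c
    rw [TensorProduct.equivFinsuppOfBasisRight_symm_apply, Finsupp.sum_fintype]
    · refine Finset.sum_congr rfl fun j _ => ?_
      change (c j ⊗ₜ[K] (1 : Aᵐᵒᵖ)) * ((1 : A) ⊗ₜ[K] op (bs j)) = _
      rw [Algebra.TensorProduct.tmul_mul_tmul, mul_one, one_mul, hbo]
      rfl
    · intro i
      exact TensorProduct.zero_tmul _ _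
  have h2 : (fun c : Fin n → A =>
      ∑ j, (Algebra.TensorProduct.includeLeft : A →ₐ[K] A ⊗[K] Aᵐᵒᵖ).toRingHom (c j) *
        ((1 : A) ⊗ₜ[K] op (bs j))) = (fun c => (TensorProduct.equivFinsuppOfBasisRight bo).symm
          (Finsupp.equivFunOnFinite.symm c)) := funext h1
  rw [h2]
  exact (TensorProduct.equivFinsuppOfBasisRight bo).symm.bijective.comp
    Finsupp.equivFunOnFinite.symm.bijective

theorem bij_right {n : ℕ} (bs : Module.Basis (Fin n) K A) :
    Function.Bijective (fun c : Fin n → Aᵐᵒᵖ =>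
      ∑ j, (Algebra.TensorProduct.includeRight : Aᵐᵒᵖ →ₐ[K] A ⊗[K] Aᵐᵒᵖ).toRingHom (c j) *
        ((bs j) ⊗ₜ[K] (1 : Aᵐᵒᵖ))) := by
  have h1 : (fun c : Fin n → Aᵐᵒᵖ =>
      ∑ j, (Algebra.TensorProduct.includeRight : Aᵐᵒᵖ →ₐ[K] A ⊗[K] Aᵐᵒᵖ).toRingHom (c j) *
        ((bs j) ⊗ₜ[K] (1 : Aᵐᵒᵖ))) = (cA bs) ∘ (fun c j => unop (c j)) := by
    funext c
    refine Finset.sum_congr rfl fun j _ => ?_
    change ((1 : A) ⊗ₜ[K] c j) * ((bs j) ⊗ₜ[K] (1 : Aᵐᵒᵖ)) = bs j ⊗ₜ[K] op (unop (c j))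
    rw [Algebra.TensorProduct.tmul_mul_tmul, mul_one, one_mul, op_unop]
  rw [h1]
  refine Function.Bijective.comp ⟨cA_inj bs, cA_surj bs⟩ ⟨?_, ?_⟩
  · intro c d hcd
    funext j
    exact unop_injective (congrFun hcd j)
  · intro c
    exact ⟨fun j => op (c j), rfl⟩

variable [FiniteDimensional K A]

theorem CD.kl_L (h : CD K A e μ) (S : Type) [AddCommGroup S] [Module (A ⊗[K] Aᵐᵒᵖ) S]
    (hS : KlE K e S) : (∀ (f : S →ₗ[A ⊗[K] Aᵐᵒᵖ] (A ⊗[K] Aᵐᵒᵖ)) (s : S), f s = 0) ∧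
      EV (A ⊗[K] Aᵐᵒᵖ) S (A ⊗[K] Aᵐᵒᵖ) := by
  let bs := Module.finBasis K A
  rcases hS with hS | hS
  · let φ : A →+* A ⊗[K] Aᵐᵒᵖ :=
      (Algebra.TensorProduct.includeLeft : A →ₐ[K] A ⊗[K] Aᵐᵒᵖ).toRingHom
    let _ : Module A S := Module.compHom S φ
    have hS' : ∀ (a : A) (s : S), φ a • s = a • s := fun _ _ => rfl
    obtain ⟨h1, h2⟩ := h.left S (fun s => hS s)
    let m0 : Module A (A ⊗[K] Aᵐᵒᵖ) := Module.compHom (A ⊗[K] Aᵐᵒᵖ) φ
    obtain ⟨h3, h4⟩ := @free_kl A (A ⊗[K] Aᵐᵒᵖ) _ _ φ _ _ (bij_left bs) S _ _ m0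
      (fun _ _ => rfl) h1 h2
    constructor
    · intro f s
      exact h3 (@LinearMap.mk A A _ _ (RingHom.id A) S (A ⊗[K] Aᵐᵒᵖ) _ _ _ m0 ⟨f, map_add f⟩
        (fun a x => map_smul f (φ a) x)) s
    · intro m
      exact @coind_vanish A (A ⊗[K] Aᵐᵒᵖ) _ _ φ _ (fun j => (1 : A) ⊗ₜ[K] op (bs j))
        (fun j a => by
          change ((1 : A) ⊗ₜ[K] op (bs j)) * (a ⊗ₜ[K] (1 : Aᵐᵒᵖ)) =
            (a ⊗ₜ[K] (1 : Aᵐᵒᵖ)) * ((1 : A) ⊗ₜ[K] op (bs j))
          rw [Algebra.TensorProduct.tmul_mul_tmul, Algebra.TensorProduct.tmul_mul_tmul, one_mul,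
            mul_one, mul_one, one_mul]) (bij_left bs) S _ _ _ hS' m (A ⊗[K] Aᵐᵒᵖ) _ _ m0
        (fun _ _ => rfl) h3 h4
  · let φ : Aᵐᵒᵖ →+* A ⊗[K] Aᵐᵒᵖ :=
      (Algebra.TensorProduct.includeRight : Aᵐᵒᵖ →ₐ[K] A ⊗[K] Aᵐᵒᵖ).toRingHom
    let _ : Module Aᵐᵒᵖ S := Module.compHom S φ
    have hS' : ∀ (a : Aᵐᵒᵖ) (s : S), φ a • s = a • s := fun _ _ => rfl
    obtain ⟨h1, h2⟩ := h.right S (fun s => hS s)
    have h1' : ∀ (f : S →ₗ[Aᵐᵒᵖ] Aᵐᵒᵖ) (s : S), f s = 0 := by
      intro f s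
      have h5 := h1 ((opReg (A := A)).toLinearMap ∘ₗ f) s
      exact (opReg (A := A)).injective (h5.trans (map_zero _).symm)
    have h2' : EV Aᵐᵒᵖ S Aᵐᵒᵖ := fun m => (h2 m).retrR (opReg (A := A)).toLinearMap
      (opReg (A := A)).symm.toLinearMap (fun y => (opReg (A := A)).symm_apply_apply y)
    let m0 : Module Aᵐᵒᵖ (A ⊗[K] Aᵐᵒᵖ) := Module.compHom (A ⊗[K] Aᵐᵒᵖ) φ
    obtain ⟨h3, h4⟩ := @free_kl Aᵐᵒᵖ (A ⊗[K] Aᵐᵒᵖ) _ _ φ _ _ (bij_right bs) S _ _ m0
      (fun _ _ => rfl) h1' h2'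
    constructor
    · intro f s
      exact h3 (@LinearMap.mk Aᵐᵒᵖ Aᵐᵒᵖ _ _ (RingHom.id Aᵐᵒᵖ) S (A ⊗[K] Aᵐᵒᵖ) _ _ _ m0
        ⟨f, map_add f⟩ (fun a x => map_smul f (φ a) x)) s
    · intro m
      exact @coind_vanish Aᵐᵒᵖ (A ⊗[K] Aᵐᵒᵖ) _ _ φ _ (fun j => (bs j) ⊗ₜ[K] (1 : Aᵐᵒᵖ))
        (fun j a => by
          change ((bs j) ⊗ₜ[K] (1 : Aᵐᵒᵖ)) * ((1 : A) ⊗ₜ[K] a) =
            ((1 : A) ⊗ₜ[K] a) * ((bs j) ⊗ₜ[K] (1 : Aᵐᵒᵖ))
          rw [Algebra.TensorProduct.tmul_mul_tmul, Algebra.TensorProduct.tmul_mul_tmul, one_mul,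
            mul_one, mul_one, one_mul]) (bij_right bs) S _ _ _ hS' m (A ⊗[K] Aᵐᵒᵖ) _ _ m0
        (fun _ _ => rfl) h3 h4

variable [Module (A ⊗[K] Aᵐᵒᵖ) A]
  (hc : ∀ (a : A) (b : Aᵐᵒᵖ) (x : A), (a ⊗ₜ[K] b) • x = a * x * unop b)

include hc in
theorem CD.kl_A (h : CD K A e μ) (S : Type) [AddCommGroup S] [Module (A ⊗[K] Aᵐᵒᵖ) S]
    (hS : KlE K e S) : (∀ (f : S →ₗ[A ⊗[K] Aᵐᵒᵖ] A) (s : S), f s = 0) ∧
      EV (A ⊗[K] Aᵐᵒᵖ) S A := by
  let bs := Module.finBasis K A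
  rcases hS with hS | hS
  · let φ : A →+* A ⊗[K] Aᵐᵒᵖ :=
      (Algebra.TensorProduct.includeLeft : A →ₐ[K] A ⊗[K] Aᵐᵒᵖ).toRingHom
    let _ : Module A S := Module.compHom S φ
    have hS' : ∀ (a : A) (s : S), φ a • s = a • s := fun _ _ => rfl
    have hM : ∀ (a : A) (x : A), φ a • x = a • x := by
      intro a x
      change (a ⊗ₜ[K] (1 : Aᵐᵒᵖ)) • x = a * x
      rw [hc, unop_one, mul_one]
    obtain ⟨h1, h2⟩ := h.left S (fun s => hS s)
    constructor
    · intro f s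
      exact h1 { toFun := f
                 map_add' := map_add f
                 map_smul' := fun a x => by rw [← hS', map_smul, hM]; rfl } s
    · intro m
      exact coind_vanish (φ := φ) (b := fun j => (1 : A) ⊗ₜ[K] op (bs j))
        (fun j a => by
          change ((1 : A) ⊗ₜ[K] op (bs j)) * (a ⊗ₜ[K] (1 : Aᵐᵒᵖ)) =
            (a ⊗ₜ[K] (1 : Aᵐᵒᵖ)) * ((1 : A) ⊗ₜ[K] op (bs j))
          rw [Algebra.TensorProduct.tmul_mul_tmul, Algebra.TensorProduct.tmul_mul_tmul, one_mul,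
            mul_one, mul_one, one_mul]) (bij_left bs) hS' m A hM h1 h2
  · let φ : Aᵐᵒᵖ →+* A ⊗[K] Aᵐᵒᵖ :=
      (Algebra.TensorProduct.includeRight : Aᵐᵒᵖ →ₐ[K] A ⊗[K] Aᵐᵒᵖ).toRingHom
    let _ : Module Aᵐᵒᵖ S := Module.compHom S φ
    have hS' : ∀ (a : Aᵐᵒᵖ) (s : S), φ a • s = a • s := fun _ _ => rfl
    have hM : ∀ (a : Aᵐᵒᵖ) (x : A), φ a • x = a • x := by
      intro a x
      change ((1 : A) ⊗ₜ[K] a) • x = x * unop a
      rw [hc, one_mul]
    obtain ⟨h1, h2⟩ := h.right S (fun s => hS s)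
    constructor
    · intro f s
      exact h1 { toFun := f
                 map_add' := map_add f
                 map_smul' := fun a x => by rw [← hS', map_smul, hM]; rfl } s
    · intro m
      exact coind_vanish (φ := φ) (b := fun j => (bs j) ⊗ₜ[K] (1 : Aᵐᵒᵖ))
        (fun j a => by
          change ((bs j) ⊗ₜ[K] (1 : Aᵐᵒᵖ)) * ((1 : A) ⊗ₜ[K] a) =
            ((1 : A) ⊗ₜ[K] a) * ((bs j) ⊗ₜ[K] (1 : Aᵐᵒᵖ))
          rw [Algebra.TensorProduct.tmul_mul_tmul, Algebra.TensorProduct.tmul_mul_tmul, one_mul,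
            mul_one, mul_one, one_mul]) (bij_right bs) hS' m A hM h1 h2

end Crit

end Run7.h692.Eq
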