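import Pool.Agent.Run7.h692.Eq.GPcrit

set_option autoImplicit false
set_option linter.unusedSectionVars false
open scoped TensorProduct
open CategoryTheory MulOpposite Pool.Agent.Helper426Tach Pool.Agent.Helper426GSC
  Pool.Agent.Helper426TauT

namespace Run7.h692.Eq

/-- restriction of scalars to the ground field is compatible -/
theorem tower_compHom (K L M : Type) [Field K] [Ring L] [Algebra K L] [AddCommGroup M]
    [Module L M] : @IsScalarTower K L M _ _ (Module.compHom M (algebraMap K L)).toSMul :=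
  letI := Module.compHom M (algebraMap K L)
  ⟨fun c r x => by
    rw [Algebra.smul_def, mul_smul]
    rfl⟩

section G

variable {K A : Type} [Field K] [Ring A] [Algebra K A] [FiniteDimensional K A]
variable {e : A} {μ : A →ₗ[K] K}
variable {M : Type} [AddCommGroup M] [Module (A ⊗[K] Aᵐᵒᵖ) M] [Module K M]
  [IsScalarTower K (A ⊗[K] Aᵐᵒᵖ) M]

/-- the functional on the algebra attached to a functional on a bimodule -/
noncomputable def Th1 (θ : M →ₗ[K] K) (m : M) (x : A) : QD K A := mkQ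
  { toFun := fun a => θ ((a ⊗ₜ[K] op x) • m)
    map_add' := fun a b => by rw [TensorProduct.add_tmul, add_smul, map_add]
    map_smul' := fun c a => by
      rw [RingHom.id_apply, ← map_smul, ← TensorProduct.smul_tmul', smul_assoc] }

theorem Th1_ev (θ : M →ₗ[K] K) (m : M) (x a : A) :
    ev (Th1 θ m x) a = θ ((a ⊗ₜ[K] op x) • m) := rfl

theorem Th1_add_x (θ : M →ₗ[K] K) (m : M) (x x' : A) :
    Th1 θ m (x + x') = Th1 θ m x + Th1 θ m x' := by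
  apply qd_ext
  intro a
  rw [ev_add, Th1_ev, Th1_ev, Th1_ev, MulOpposite.op_add, TensorProduct.tmul_add, add_smul,
    map_add]

theorem Th1_smul_x (θ : M →ₗ[K] K) (m : M) (c : K) (x : A) :
    Th1 θ m (c • x) = c • Th1 θ m x := by
  apply qd_ext
  intro a
  rw [ev_smulK, Th1_ev, Th1_ev, MulOpposite.op_smul, TensorProduct.tmul_smul, smul_assoc,
    map_smul, smul_eq_mul]

theorem Th1_add_m (θ : M →ₗ[K] K) (m m' : M) (x : A) :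
    Th1 θ (m + m') x = Th1 θ m x + Th1 θ m' x := by
  apply qd_ext
  intro a
  rw [ev_add, Th1_ev, Th1_ev, Th1_ev, smul_add, map_add]

theorem Th1_smul_m (θ : M →ₗ[K] K) (m : M) (a : A) (b : Aᵐᵒᵖ) (x : A) :
    Th1 θ ((a ⊗ₜ[K] b) • m) x = a • Th1 θ m (unop b * x) := by
  apply qd_ext
  intro a'
  rw [ev_smul, Th1_ev, Th1_ev, ← mul_smul, Algebra.TensorProduct.tmul_mul_tmul, op_mul, op_unop]

theorem PD.rep_smulK (h : PD K A e μ) (c : K) (φ : QD K A) : h.rep (c • φ) = c • h.rep φ := by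
  rw [smulK_eq, h.rep_smul, ← Algebra.smul_def]

/-- the bimodule map attached to a functional -/
noncomputable def gmap (h : PD K A e μ) (θ : M →ₗ[K] K) :
    M →ₗ[A ⊗[K] Aᵐᵒᵖ] HB K A (QD K A) A :=
  linOfTmul
    { toFun := fun m => HB.mk
        { toFun := fun φ => h.rep (Th1 θ m (h.rep φ))
          map_add' := fun φ ψ => by rw [h.rep_add, Th1_add_x, h.rep_add]
          map_smul' := fun c φ => by rw [h.rep_smulK, Th1_smul_x, h.rep_smulK, RingHom.id_apply] }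
      map_zero' := by
        apply HB.ext
        intro φ
        change h.rep (Th1 θ (0 : M) (h.rep φ)) = 0
        have h1 : Th1 θ (0 : M) (h.rep φ) = 0 := by
          apply qd_ext
          intro a
          rw [Th1_ev, smul_zero, map_zero, ev_zero]
        have h2 : h.rep (0 : QD K A) = 0 := by
          have h3 := h.rep_add (0 : QD K A) 0
          rw [add_zero] at h3
          exact left_eq_add.mp h3
        rw [h1, h2]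
      map_add' := fun m m' => by
        apply HB.ext
        intro φ
        change h.rep (Th1 θ (m + m') (h.rep φ)) = h.rep (Th1 θ m (h.rep φ)) +
          h.rep (Th1 θ m' (h.rep φ))
        rw [Th1_add_m, h.rep_add] }
    (fun a b m => by
      apply HB.ext
      intro φ
      rw [HB.smul_tmul]
      change h.rep (Th1 θ ((a ⊗ₜ[K] b) • m) (h.rep φ)) = a • h.rep (Th1 θ m (h.rep (unop b • φ)))
      rw [Th1_smul_m, h.rep_smul, h.rep_smul, smul_eq_mul])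

theorem gmap_ev (h : PD K A e μ) (θ : M →ₗ[K] K) (m : M) (φ : QD K A) :
    (gmap h θ m).ev φ = h.rep (Th1 θ m (h.rep φ)) := rfl

theorem exists_g (h : PD K A e μ) (n : M) (hn : (e ⊗ₜ[K] op e) • n = n) (hn0 : n ≠ 0) :
    ∃ g : M →ₗ[A ⊗[K] Aᵐᵒᵖ] (A ⊗[K] Aᵐᵒᵖ), g n ≠ 0 := by
  obtain ⟨θ, hθ⟩ : ∃ θ : M →ₗ[K] K, θ n ≠ 0 := by
    by_contra hcon
    push Not at hcon
    exact hn0 ((Module.forall_dual_apply_eq_zero_iff K n).mp hcon)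
  let E := LinearEquiv.ofBijective (baseLin (K := K) (A := A)) baseLin_bij
  refine ⟨E.symm.toLinearMap ∘ₗ gmap h θ, ?_⟩
  intro h0
  have h1 : gmap h θ n = 0 := by
    have h2 : E (E.symm (gmap h θ n)) = E 0 := congrArg E h0
    rw [LinearEquiv.apply_symm_apply, map_zero] at h2
    exact h2
  let φ : QD K A := mkQ (μ ∘ₗ LinearMap.mulRight K e)
  have hφ : h.rep φ = e := by
    apply h.unique (h.rep_mul _) h.idem
    intro y hy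
    rw [h.rep_spec _ y hy]
    rfl
  have h3 : (gmap h θ n).ev φ = 0 := by
    rw [h1]
    rfl
  rw [gmap_ev, hφ] at h3
  have h4 := h.rep_spec (Th1 θ n e) e h.idem
  rw [h3, mul_zero, map_zero, Th1_ev, hn] at h4
  exact hθ h4.symm

end G

section Tor

variable {K A : Type} [Field K] [Ring A] [Algebra K A] [FiniteDimensional K A]
variable {e : A} {μ : A →ₗ[K] K}

theorem PD.htor (h : PD K A e μ) (M : Type) [AddCommGroup M] [Module (A ⊗[K] Aᵐᵒᵖ) M]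
    (hk : ∀ (S : Type) [AddCommGroup S] [Module (A ⊗[K] Aᵐᵒᵖ) S], KlE K e S →
      ∀ (f : S →ₗ[A ⊗[K] Aᵐᵒᵖ] M) (s : S), f s = 0)
    (m : M) (hm : ∀ g : M →ₗ[A ⊗[K] Aᵐᵒᵖ] (A ⊗[K] Aᵐᵒᵖ), g m = 0) : m = 0 := by
  let _ : Module K M := Module.compHom M (algebraMap K (A ⊗[K] Aᵐᵒᵖ))
  have hst : IsScalarTower K (A ⊗[K] Aᵐᵒᵖ) M := tower_compHom K (A ⊗[K] Aᵐᵒᵖ) M
  by_contra hm0
  let N0 : Submodule (A ⊗[K] Aᵐᵒᵖ) M :=
    { carrier := {m | ∀ g : M →ₗ[A ⊗[K] Aᵐᵒᵖ] (A ⊗[K] Aᵐᵒᵖ), g m = 0}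
      zero_mem' := fun g => map_zero g
      add_mem' := fun {a b} ha hb g => by rw [map_add, ha g, hb g, add_zero]
      smul_mem' := fun l x hx g => by rw [map_smul, hx g, smul_zero] }
  have hmN : m ∈ N0 := hm
  -- an element not killed on the left
  obtain ⟨n1, hn1, hn1e⟩ : ∃ n ∈ N0, (e ⊗ₜ[K] (1 : Aᵐᵒᵖ)) • n ≠ 0 := by
    by_contra hcon
    push Not at hcon
    have h1 : KlE K e N0 := Or.inl fun s => Subtype.ext (hcon s s.2)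
    exact hm0 (hk N0 h1 N0.subtype ⟨m, hmN⟩)
  let n2 : M := (e ⊗ₜ[K] (1 : Aᵐᵒᵖ)) • n1
  have hn2 : n2 ∈ N0 := N0.smul_mem _ hn1
  let S1 : Submodule (A ⊗[K] Aᵐᵒᵖ) M := Submodule.span _ {n2}
  obtain ⟨l, hl⟩ : ∃ l : A ⊗[K] Aᵐᵒᵖ, ((1 : A) ⊗ₜ[K] op e) • (l • n2) ≠ 0 := by
    by_contra hcon
    push Not at hcon
    have h1 : KlE K e S1 := Or.inr fun s => Subtype.ext (by
      obtain ⟨l, hl⟩ := Submodule.mem_span_singleton.mp s.2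
      change ((1 : A) ⊗ₜ[K] op e) • (s : M) = 0
      rw [← hl]
      exact hcon l)
    exact hn1e (hk S1 h1 S1.subtype ⟨n2, Submodule.mem_span_singleton_self n2⟩)
  obtain ⟨b, hb⟩ : ∃ b : Aᵐᵒᵖ, (e ⊗ₜ[K] (op e * b)) • n1 ≠ 0 := by
    by_contra hcon
    push Not at hcon
    apply hl
    induction l using TensorProduct.induction_on with
    | zero =>
      have h1 : (0 : A ⊗[K] Aᵐᵒᵖ) • n2 = 0 := zero_smul (A ⊗[K] Aᵐᵒᵖ) n2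
      rw [h1, smul_zero]
    | tmul a b =>
      have h1 : ((1 : A) ⊗ₜ[K] op e) * ((a ⊗ₜ[K] b) * (e ⊗ₜ[K] (1 : Aᵐᵒᵖ))) =
          (a ⊗ₜ[K] (1 : Aᵐᵒᵖ)) * (e ⊗ₜ[K] (op e * b)) := by
        rw [Algebra.TensorProduct.tmul_mul_tmul, Algebra.TensorProduct.tmul_mul_tmul,
          Algebra.TensorProduct.tmul_mul_tmul, one_mul, one_mul, mul_one]
      change ((1 : A) ⊗ₜ[K] op e) • ((a ⊗ₜ[K] b) • ((e ⊗ₜ[K] (1 : Aᵐᵒᵖ)) • n1)) = 0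
      rw [← mul_smul, ← mul_smul, mul_assoc, h1, mul_smul, hcon, smul_zero]
    | add x y hx hy =>
      have h1 : ((1 : A) ⊗ₜ[K] op e) • (x • n2) = 0 := by
        by_contra h2
        exact h2 (hx h2)
      have h1' : ((1 : A) ⊗ₜ[K] op e) • (y • n2) = 0 := by
        by_contra h2
        exact h2 (hy h2)
      rw [add_smul, smul_add, h1, h1', add_zero]
  let n3 : M := (e ⊗ₜ[K] (op e * b)) • n1
  have hn3 : n3 ∈ N0 := N0.smul_mem _ hn1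
  have hn3e : (e ⊗ₜ[K] op e) • n3 = n3 := by
    change (e ⊗ₜ[K] op e) • ((e ⊗ₜ[K] (op e * b)) • n1) = (e ⊗ₜ[K] (op e * b)) • n1
    rw [← mul_smul, Algebra.TensorProduct.tmul_mul_tmul, ← mul_assoc, ← op_mul, h.idem]
  obtain ⟨g, hg⟩ := exists_g h n3 hn3e hb
  exact hg (hn3 g)

theorem CD.gc [Module (A ⊗[K] Aᵐᵒᵖ) A]
    (hc : ∀ (a : A) (b : Aᵐᵒᵖ) (x : A), (a ⊗ₜ[K] b) • x = a * x * unop b)
    (h : CD K A e μ) : GC (L := A ⊗[K] Aᵐᵒᵖ) (fun S => KlE K e S) A := by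
  have hN : IsNoetherianRing A := isNoeth K A
  refine ⟨?_, ?_, ?_⟩
  · refine Module.Finite.of_surjective (LinearMap.toSpanSingleton (A ⊗[K] Aᵐᵒᵖ) A 1)
      (fun a => ⟨a ⊗ₜ[K] 1, ?_⟩)
    rw [LinearMap.toSpanSingleton_apply, hc, mul_one, unop_one, mul_one]
  · intro n
    have hfQ : Module.Finite A (QD K A) := qd_finite
    have h1 := hb_of_ev hc (QD K A) n A h.tach
    let E := LinearEquiv.ofBijective (baseLin (K := K) (A := A)) baseLin_bij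
    exact h1.retrR E.toLinearMap E.symm.toLinearMap fun y => E.symm_apply_apply y
  · intro S _ _ hS
    exact h.kl_A hc S hS

/-- the criterion: the conditions of the frozen statement hold -/
theorem CD.gp [Module (A ⊗[K] Aᵐᵒᵖ) A]
    (hc : ∀ (a : A) (b : Aᵐᵒᵖ) (x : A), (a ⊗ₜ[K] b) • x = a * x * MulOpposite.unop b)
    (h : CD K A e μ)
    [HasExt.{1} (ModuleCat.{0} (A ⊗[K] Aᵐᵒᵖ))]
    [HasExt.{1} (ModuleCat.{0} ((A ⊗[K] Aᵐᵒᵖ)ᵐᵒᵖ))] :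
      ((∀ m : A, (∀ f : A →ₗ[A ⊗[K] Aᵐᵒᵖ] (A ⊗[K] Aᵐᵒᵖ), f m = 0) → m = 0) ∧
       (∀ φ : (A →ₗ[A ⊗[K] Aᵐᵒᵖ] (A ⊗[K] Aᵐᵒᵖ)) →ₗ[((A ⊗[K] Aᵐᵒᵖ)ᵐᵒᵖ)] (A ⊗[K] Aᵐᵒᵖ),
          ∃ m : A, ∀ f : A →ₗ[A ⊗[K] Aᵐᵒᵖ] (A ⊗[K] Aᵐᵒᵖ), φ f = f m) ∧
       (∀ i : ℕ, 1 ≤ i →
          Subsingleton (Abelian.Ext.{1} (ModuleCat.of (A ⊗[K] Aᵐᵒᵖ) A)
            (ModuleCat.of (A ⊗[K] Aᵐᵒᵖ) (A ⊗[K] Aᵐᵒᵖ)) i)) ∧
       (∀ i : ℕ, 1 ≤ i →
          Subsingleton (Abelian.Ext.{1}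
            (ModuleCat.of ((A ⊗[K] Aᵐᵒᵖ)ᵐᵒᵖ) (A →ₗ[A ⊗[K] Aᵐᵒᵖ] (A ⊗[K] Aᵐᵒᵖ)))
            (ModuleCat.of ((A ⊗[K] Aᵐᵒᵖ)ᵐᵒᵖ) (A ⊗[K] Aᵐᵒᵖ)) i))) := by
  have hfo : Module.Finite K Aᵐᵒᵖ := Module.Finite.equiv (MulOpposite.opLinearEquiv K)
  have hfL : FiniteDimensional K (A ⊗[K] Aᵐᵒᵖ) := inferInstance
  have hgc := h.gc hc
  have htor : ∀ (M : Type) [AddCommGroup M] [Module (A ⊗[K] Aᵐᵒᵖ) M]
      [Module.Finite (A ⊗[K] Aᵐᵒᵖ) M], (∀ (S : Type) [AddCommGroup S]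
      [Module (A ⊗[K] Aᵐᵒᵖ) S], KlE K e S → ∀ (f : S →ₗ[A ⊗[K] Aᵐᵒᵖ] M) (s : S), f s = 0) →
      ∀ m : M, (∀ g : M →ₗ[A ⊗[K] Aᵐᵒᵖ] (A ⊗[K] Aᵐᵒᵖ), g m = 0) → m = 0 :=
    fun M _ _ _ hk m hm => h.pd.htor M hk m hm
  have hL : ∀ (S : Type) [AddCommGroup S] [Module (A ⊗[K] Aᵐᵒᵖ) S], KlE K e S →
      (∀ (f : S →ₗ[A ⊗[K] Aᵐᵒᵖ] (A ⊗[K] Aᵐᵒᵖ)) (s : S), f s = 0) ∧
      EV (A ⊗[K] Aᵐᵒᵖ) S (A ⊗[K] Aᵐᵒᵖ) := fun S _ _ hS => h.kl_L S hS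
  refine ⟨fun m hm => hgc.torsionless _ htor hL A m hm,
    fun φ => hgc.reflexive K _ htor hL A φ, ?_, ?_⟩
  · intro i hi
    obtain ⟨j, rfl⟩ : ∃ j, i = j + 1 := ⟨i - 1, by omega⟩
    have h0 : Subsingleton (Abelian.Ext.{0} (ModuleCat.of (A ⊗[K] Aᵐᵒᵖ) A)
            (ModuleCat.of (A ⊗[K] Aᵐᵒᵖ) (A ⊗[K] Aᵐᵒᵖ)) (j + 1)) := hgc.ev j
    exact (Abelian.Ext.chgUniv.{1, 0} (X := ModuleCat.of (A ⊗[K] Aᵐᵒᵖ) A)
      (Y := ModuleCat.of (A ⊗[K] Aᵐᵒᵖ) (A ⊗[K] Aᵐᵒᵖ)) (n := j + 1)).symm.subsingleton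
  · intro i hi
    obtain ⟨j, rfl⟩ : ∃ j, i = j + 1 := ⟨i - 1, by omega⟩
    have h0 : Subsingleton (Abelian.Ext.{0}
            (ModuleCat.of ((A ⊗[K] Aᵐᵒᵖ)ᵐᵒᵖ) (A →ₗ[A ⊗[K] Aᵐᵒᵖ] (A ⊗[K] Aᵐᵒᵖ)))
            (ModuleCat.of ((A ⊗[K] Aᵐᵒᵖ)ᵐᵒᵖ) (A ⊗[K] Aᵐᵒᵖ)) (j + 1)) :=
      hgc.dual_ex K _ htor hL j A
    exact (Abelian.Ext.chgUniv.{1, 0}
      (X := ModuleCat.of ((A ⊗[K] Aᵐᵒᵖ)ᵐᵒᵖ) (A →ₗ[A ⊗[K] Aᵐᵒᵖ] (A ⊗[K] Aᵐᵒᵖ)))
      (Y := ModuleCat.of ((A ⊗[K] Aᵐᵒᵖ)ᵐᵒᵖ) (A ⊗[K] Aᵐᵒᵖ)) (n := j + 1)).symm.subsingleton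

end Tor

end Run7.h692.Eq
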