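import Pool.Agent.Run7.h692.Eq.EV
import Pool.Agent.Run7.h692.SelfInj2

set_option autoImplicit false
set_option linter.unusedSectionVars false
open scoped TensorProduct
open CategoryTheory MulOpposite Pool.Agent.Helper426Tach Pool.Agent.Helper426GSC

namespace Run7.h692.Eq

section SESs

variable {K A : Type} [Field K] [Ring A] [Algebra K A]
variable {Y Y' Y'' X X' X'' : Type} [AddCommGroup Y] [AddCommGroup X] [Module A Y] [Module A X]
  [Module K Y] [Module K X] [IsScalarTower K A Y] [IsScalarTower K A X]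
  [AddCommGroup Y'] [AddCommGroup X'] [Module A Y'] [Module A X']
  [Module K Y'] [Module K X'] [IsScalarTower K A Y'] [IsScalarTower K A X']
  [AddCommGroup Y''] [AddCommGroup X''] [Module A Y''] [Module A X'']
  [Module K Y''] [Module K X''] [IsScalarTower K A Y''] [IsScalarTower K A X'']

theorem hb_ses_right {f : X' →ₗ[A] X} {g : X →ₗ[A] X''} (h : SES f g) :
    SES (HB.map (K := K) (LinearMap.id : Y →ₗ[A] Y) f) (HB.map (LinearMap.id : Y →ₗ[A] Y) g) where
  inj u v huv := by
    refine HB.ext fun y => h.inj ?_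
    exact congrArg (fun z => z.ev y) huv
  ex u hu := by
    have h3 : ∀ y, u.ev y ∈ LinearMap.range (f.restrictScalars K) := by
      intro y
      have h4 : g (u.ev y) = 0 := congrArg (fun z => z.ev y) hu
      obtain ⟨z, hz⟩ := h.ex _ h4
      exact ⟨z, hz⟩
    let e := LinearEquiv.ofInjective (f.restrictScalars K) h.inj
    refine ⟨HB.mk (e.symm.toLinearMap ∘ₗ LinearMap.codRestrict _ u.ev h3), HB.ext fun y => ?_⟩
    change (f.restrictScalars K) (e.symm (LinearMap.codRestrict _ u.ev h3 y)) = u.ev y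
    have h5 := LinearEquiv.ofInjective_symm_apply (h := h.inj) (f := f.restrictScalars K)
      (LinearMap.codRestrict _ u.ev h3 y)
    exact h5
  comp u := by
    refine HB.ext fun y => ?_
    exact h.comp (u.ev y)
  surj v := by
    obtain ⟨s, hs⟩ := (g.restrictScalars K).exists_rightInverse_of_surjective
      (LinearMap.range_eq_top.mpr h.surj)
    refine ⟨HB.mk (s ∘ₗ v.ev), HB.ext fun y => ?_⟩
    exact LinearMap.congr_fun hs (v.ev y)

theorem hb_ses_left {f : Y' →ₗ[A] Y} {g : Y →ₗ[A] Y''} (h : SES f g) :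
    SES (HB.map (K := K) g (LinearMap.id : X →ₗ[A] X)) (HB.map f (LinearMap.id : X →ₗ[A] X)) where
  inj u v huv := by
    refine HB.ext fun y => ?_
    obtain ⟨z, rfl⟩ := h.surj y
    exact congrArg (fun w => w.ev z) huv
  ex u hu := by
    obtain ⟨s, hs⟩ := (g.restrictScalars K).exists_rightInverse_of_surjective
      (LinearMap.range_eq_top.mpr h.surj)
    refine ⟨HB.mk (u.ev ∘ₗ s), HB.ext fun y => ?_⟩
    change u.ev (s (g y)) = u.ev y
    have h3 : g (s (g y) - y) = 0 := by
      rw [map_sub, sub_eq_zero]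
      exact LinearMap.congr_fun hs (g y)
    obtain ⟨z, hz⟩ := h.ex _ h3
    have h4 : u.ev (f z) = 0 := congrArg (fun w => w.ev z) hu
    rw [hz, map_sub, sub_eq_zero] at h4
    exact h4
  comp v := by
    refine HB.ext fun y => ?_
    change v.ev (g (f y)) = 0
    rw [h.comp, map_zero]
  surj v := by
    obtain ⟨s, hs⟩ := (f.restrictScalars K).exists_leftInverse_of_injective
      (LinearMap.ker_eq_bot.mpr h.inj)
    refine ⟨HB.mk (v.ev ∘ₗ s), HB.ext fun y => ?_⟩
    exact congrArg v.ev (LinearMap.congr_fun hs y)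

end SESs

section Homs

variable {K A : Type} [Field K] [Ring A] [Algebra K A] [Module (A ⊗[K] Aᵐᵒᵖ) A]
variable {Y X : Type} [AddCommGroup Y] [AddCommGroup X] [Module A Y] [Module A X]
  [Module K Y] [Module K X] [IsScalarTower K A Y] [IsScalarTower K A X]

/-- the bimodule map of a module map -/
noncomputable def ofHom (hc : ∀ (a : A) (b : Aᵐᵒᵖ) (x : A), (a ⊗ₜ[K] b) • x = a * x * unop b)
    (φ : Y →ₗ[A] X) : A →ₗ[A ⊗[K] Aᵐᵒᵖ] HB K A Y X :=
  linOfTmul
    { toFun := fun a => HB.mk
        { toFun := fun y => a • φ y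
          map_add' := fun y z => by rw [map_add, smul_add]
          map_smul' := fun c y => by
            have h1 : φ (c • y) = c • φ y := by
              rw [← algebraMap_smul A c y, map_smul, algebraMap_smul]
            rw [h1, RingHom.id_apply, smul_comm] }
      map_zero' := by
        apply HB.ext
        intro y
        change (0 : A) • φ y = 0
        rw [zero_smul]
      map_add' := fun a b => by
        apply HB.ext
        intro y
        change (a + b) • φ y = a • φ y + b • φ y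
        rw [add_smul] }
    (fun a b x => by
      apply HB.ext
      intro y
      rw [HB.smul_tmul]
      change ((a ⊗ₜ[K] b) • x) • φ y = a • (x • φ (unop b • y))
      rw [hc, map_smul, mul_smul, mul_smul])

theorem ofHom_ev (hc : ∀ (a : A) (b : Aᵐᵒᵖ) (x : A), (a ⊗ₜ[K] b) • x = a * x * unop b)
    (φ : Y →ₗ[A] X) (a : A) (y : Y) : (ofHom hc φ a).ev y = a • φ y := rfl

/-- the module map of a bimodule map -/
noncomputable def homOf (hc : ∀ (a : A) (b : Aᵐᵒᵖ) (x : A), (a ⊗ₜ[K] b) • x = a * x * unop b)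
    (F : A →ₗ[A ⊗[K] Aᵐᵒᵖ] HB K A Y X) : Y →ₗ[A] X where
  toFun := (F 1).ev
  map_add' := map_add _
  map_smul' a y := by
    have h1 : (a ⊗ₜ[K] (1 : Aᵐᵒᵖ)) • (1 : A) = ((1 : A) ⊗ₜ[K] op a) • (1 : A) := by
      rw [hc, hc, unop_one, unop_op, mul_one, mul_one, one_mul, one_mul]
    have h2 : (a ⊗ₜ[K] (1 : Aᵐᵒᵖ)) • F 1 = ((1 : A) ⊗ₜ[K] op a) • F 1 := by
      rw [← map_smul, ← map_smul, h1]
    have h3 := congrArg (fun z => z.ev y) h2
    have h4 : ((a ⊗ₜ[K] (1 : Aᵐᵒᵖ)) • F 1).ev y = (((1 : A) ⊗ₜ[K] op a) • F 1).ev y := h3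
    rw [HB.smul_tmul, HB.smul_tmul, unop_one, one_smul, unop_op, one_smul] at h4
    rw [RingHom.id_apply]
    exact h4.symm

theorem homOf_apply (hc : ∀ (a : A) (b : Aᵐᵒᵖ) (x : A), (a ⊗ₜ[K] b) • x = a * x * unop b)
    (F : A →ₗ[A ⊗[K] Aᵐᵒᵖ] HB K A Y X) (y : Y) : homOf hc F y = (F 1).ev y := rfl

theorem hom_ext_one (hc : ∀ (a : A) (b : Aᵐᵒᵖ) (x : A), (a ⊗ₜ[K] b) • x = a * x * unop b)
    {Z : Type} [AddCommGroup Z] [Module (A ⊗[K] Aᵐᵒᵖ) Z]
    (F G : A →ₗ[A ⊗[K] Aᵐᵒᵖ] Z) (h : F 1 = G 1) (a : A) : F a = G a := by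
  have h1 : a = (a ⊗ₜ[K] (1 : Aᵐᵒᵖ)) • (1 : A) := by rw [hc, unop_one, mul_one, mul_one]
  rw [h1, map_smul, map_smul, h]

end Homs

section Main

variable {K A : Type} [Field K] [Ring A] [Algebra K A] [Module (A ⊗[K] Aᵐᵒᵖ) A]

/-- a surjection from a finitely generated free module -/
theorem exists_free (A : Type) [Ring A] (X : Type) [AddCommGroup X] [Module A X]
    [Module.Finite A X] :
    ∃ (n : ℕ) (p : (Fin n → A) →ₗ[A] X), Function.Surjective p :=
  Module.Finite.exists_fin' A X

/-- an embedding into an injective module -/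
theorem exists_inj (A : Type) [Ring A] (X : Type) [AddCommGroup X] [Module A X] :
    ∃ (J : Type) (_ : AddCommGroup J) (_ : Module A J) (f : X →ₗ[A] J),
      Module.Injective A J ∧ Function.Injective f := by
  let J := Injective.under (ModuleCat.of A X)
  refine ⟨J, inferInstance, inferInstance, (Injective.ι (ModuleCat.of A X)).hom, ?_, ?_⟩
  · exact (Module.injective_iff_injective_object A J).mpr (inferInstance : Injective J)
  · exact (ModuleCat.mono_iff_injective _).mp inferInstance

variable [IsNoetherianRing A]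
  (hc : ∀ (a : A) (b : Aᵐᵒᵖ) (x : A), (a ⊗ₜ[K] b) • x = a * x * unop b)

include hc

theorem hb_base (J : Type) [AddCommGroup J] [Module A J] [Module K J] [IsScalarTower K A J]
    (hJ : Module.Injective A J) (n : ℕ) :
    ∀ (Y : Type) [AddCommGroup Y] [Module A Y] [Module K Y] [IsScalarTower K A Y]
      [Module.Finite A Y], EX (A ⊗[K] Aᵐᵒᵖ) n A (HB K A Y J) := by
  induction n with
  | zero =>
    intro Y _ _ _ _ _
    obtain ⟨m, p, hp⟩ := exists_free A Y
    have hs := SES.ofKer hp
    refine (hb_ses_left (K := K) (X := J) hs).cov0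
      (EX.inj (hb_pow_injective (hb_coind_injective J hJ) m)) ?_
    intro φ
    obtain ⟨ψ, hψ⟩ := hJ.out (LinearMap.ker p).subtype (LinearMap.ker p).injective_subtype
      (homOf hc φ)
    refine ⟨ofHom hc ψ, ?_⟩
    apply hom_ext_one hc ((HB.map (LinearMap.ker p).subtype LinearMap.id) ∘ₗ ofHom hc ψ) φ
    refine HB.ext fun y => ?_
    change (ofHom hc ψ 1).ev ((LinearMap.ker p).subtype y) = (φ 1).ev y
    rw [ofHom_ev, one_smul, hψ]
    rfl
  | succ n ih =>
    intro Y _ _ _ _ _
    obtain ⟨m, p, hp⟩ := exists_free A Y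
    have hs := SES.ofKer hp
    exact (hb_ses_left (K := K) (X := J) hs).covS
      (EX.inj (hb_pow_injective (hb_coind_injective J hJ) m)) (ih (LinearMap.ker p))

/-- Ext over the algebra controls Ext over the enveloping algebra -/
theorem hb_of_ev (Y : Type) [AddCommGroup Y] [Module A Y] [Module K Y] [IsScalarTower K A Y]
      [Module.Finite A Y] (n : ℕ) :
    ∀ (X : Type) [AddCommGroup X] [Module A X] [Module K X] [IsScalarTower K A X],
      EV A Y X → EX (A ⊗[K] Aᵐᵒᵖ) n A (HB K A Y X) := by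
  induction n with
  | zero =>
    intro X _ _ _ _ hX
    obtain ⟨J, _, _, f, hJ, hf⟩ := exists_inj A X
    let _ : Module K J := Module.compHom J (algebraMap K A)
    have hst : IsScalarTower K A J := ⟨fun c r x => by
      rw [Algebra.smul_def, mul_smul]
      rfl⟩
    have hs := SES.ofCoker hf
    let _ : Module K (J ⧸ LinearMap.range f) := Module.compHom _ (algebraMap K A)
    have hst2 : IsScalarTower K A (J ⧸ LinearMap.range f) := ⟨fun c r x => by
      rw [Algebra.smul_def, mul_smul]
      rfl⟩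
    refine (hb_ses_right (K := K) (Y := Y) hs).cov0 (hb_base hc J hJ 0 Y) ?_
    intro φ
    obtain ⟨ψ, hψ⟩ := hs.lift (hX 0) (homOf hc φ)
    refine ⟨ofHom hc ψ, ?_⟩
    apply hom_ext_one hc ((HB.map LinearMap.id (LinearMap.range f).mkQ) ∘ₗ ofHom hc ψ) φ
    refine HB.ext fun y => ?_
    change (LinearMap.range f).mkQ ((ofHom hc ψ 1).ev y) = (φ 1).ev y
    rw [ofHom_ev, one_smul, hψ]
    rfl
  | succ n ih =>
    intro X _ _ _ _ hX
    obtain ⟨J, _, _, f, hJ, hf⟩ := exists_inj A X
    let _ : Module K J := Module.compHom J (algebraMap K A)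
    have hst : IsScalarTower K A J := ⟨fun c r x => by
      rw [Algebra.smul_def, mul_smul]
      rfl⟩
    have hs := SES.ofCoker hf
    let _ : Module K (J ⧸ LinearMap.range f) := Module.compHom _ (algebraMap K A)
    have hst2 : IsScalarTower K A (J ⧸ LinearMap.range f) := ⟨fun c r x => by
      rw [Algebra.smul_def, mul_smul]
      rfl⟩
    exact (hb_ses_right (K := K) (Y := Y) hs).covS (hb_base hc J hJ (n + 1) Y)
      (ih _ fun m => hs.covC (EX.inj hJ) (hX (m + 1)))

/-- Ext over the enveloping algebra controls Ext over the algebra -/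
theorem ev_of_hb (Y : Type) [AddCommGroup Y] [Module A Y] [Module K Y] [IsScalarTower K A Y]
      [Module.Finite A Y] (n : ℕ) :
    ∀ (X : Type) [AddCommGroup X] [Module A X] [Module K X] [IsScalarTower K A X],
      (∀ m, EX (A ⊗[K] Aᵐᵒᵖ) m A (HB K A Y X)) → EX A n Y X := by
  induction n with
  | zero =>
    intro X _ _ _ _ hX
    obtain ⟨J, _, _, f, hJ, hf⟩ := exists_inj A X
    let _ : Module K J := Module.compHom J (algebraMap K A)
    have hst : IsScalarTower K A J := ⟨fun c r x => by
      rw [Algebra.smul_def, mul_smul]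
      rfl⟩
    have hs := SES.ofCoker hf
    let _ : Module K (J ⧸ LinearMap.range f) := Module.compHom _ (algebraMap K A)
    have hst2 : IsScalarTower K A (J ⧸ LinearMap.range f) := ⟨fun c r x => by
      rw [Algebra.smul_def, mul_smul]
      rfl⟩
    refine hs.cov0 (EX.inj hJ) ?_
    intro φ
    obtain ⟨ψ, hψ⟩ := (hb_ses_right (K := K) (Y := Y) hs).lift (hX 0) (ofHom hc φ)
    refine ⟨homOf hc ψ, fun y => ?_⟩
    have h1 := congrArg (fun z => z.ev y) (hψ 1)
    change (LinearMap.range f).mkQ ((ψ 1).ev y) = (ofHom hc φ 1).ev y at h1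
    rw [ofHom_ev, one_smul] at h1
    exact h1
  | succ n ih =>
    intro X _ _ _ _ hX
    obtain ⟨J, _, _, f, hJ, hf⟩ := exists_inj A X
    let _ : Module K J := Module.compHom J (algebraMap K A)
    have hst : IsScalarTower K A J := ⟨fun c r x => by
      rw [Algebra.smul_def, mul_smul]
      rfl⟩
    have hs := SES.ofCoker hf
    let _ : Module K (J ⧸ LinearMap.range f) := Module.compHom _ (algebraMap K A)
    have hst2 : IsScalarTower K A (J ⧸ LinearMap.range f) := ⟨fun c r x => by
      rw [Algebra.smul_def, mul_smul]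
      rfl⟩
    exact hs.covS (EX.inj hJ) (ih _ fun m => (hb_ses_right (K := K) (Y := Y) hs).covC
      (hb_base hc J hJ m Y) (hX (m + 1)))

end Main

end Run7.h692.Eq
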