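import Pool.Agent.Run7.h692.Eq.T3

set_option autoImplicit false
set_option linter.unusedSectionVars false
open scoped TensorProduct
open CategoryTheory MulOpposite

namespace Run7.h692.Eq

attribute [local instance] T3.ring T3.modK T3.alg

theorem SES.desc {R A B C Y : Type} [Ring R] [AddCommGroup A] [AddCommGroup B] [AddCommGroup C]
    [AddCommGroup Y] [Module R A] [Module R B] [Module R C] [Module R Y] {f : A →ₗ[R] B}
    {g : B →ₗ[R] C} (h : SES f g) (u : B →ₗ[R] Y) (hu : ∀ a, u (f a) = 0) :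
    ∃ v : C →ₗ[R] Y, ∀ b, v (g b) = u b := by
  have hk : LinearMap.ker g ≤ LinearMap.ker u := by
    intro z hz
    obtain ⟨a, rfl⟩ := h.ex z hz
    exact hu a
  let E := g.quotKerEquivOfSurjective h.surj
  refine ⟨(Submodule.liftQ _ u hk) ∘ₗ E.symm.toLinearMap, fun z => ?_⟩
  have h3 : E.symm (g z) = Submodule.Quotient.mk z := by
    rw [LinearEquiv.symm_apply_eq]
    rfl
  change (Submodule.liftQ _ u hk) (E.symm (g z)) = _
  rw [h3]
  rfl

section Pre

variable (K : Type) {Λ : Type} [Field K] [Ring Λ] [Algebra K Λ]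
variable {M M' : Type} [AddCommGroup M] [Module Λ M] [AddCommGroup M'] [Module Λ M']

/-- right multiplication on the dual -/
def mR (a : Λ) : (M →ₗ[Λ] Λ) →ₗ[K] (M →ₗ[Λ] Λ) where
  toFun h := (LinearMap.toSpanSingleton Λ Λ a) ∘ₗ h
  map_add' h g := by
    apply LinearMap.ext
    intro m
    change (h m + g m) * a = h m * a + g m * a
    rw [add_mul]
  map_smul' c h := by
    apply LinearMap.ext
    intro m
    change (c • h m) * a = c • (h m * a)
    rw [smul_mul_assoc]

theorem mR_apply (a : Λ) (h : M →ₗ[Λ] Λ) (m : M) : mR K a h m = h m * a := rfl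

/-- precomposition -/
def pre (u : M →ₗ[Λ] M') : (M' →ₗ[Λ] Λ) →ₗ[K] (M →ₗ[Λ] Λ) where
  toFun h := h ∘ₗ u
  map_add' _ _ := rfl
  map_smul' _ _ := rfl

theorem pre_apply (u : M →ₗ[Λ] M') (h : M' →ₗ[Λ] Λ) (m : M) : pre K u h m = h (u m) := rfl

/-- the functional of an element -/
def st (f : Λ →ₗ[K] K) (m : M) : (M →ₗ[Λ] Λ) →ₗ[K] K where
  toFun h := f (h m)
  map_add' h g := map_add f _ _
  map_smul' c h := map_smul f c _

theorem st_apply (f : Λ →ₗ[K] K) (m : M) (h : M →ₗ[Λ] Λ) : st K f m h = f (h m) := rfl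

theorem fin_dual [FiniteDimensional K Λ] (M : Type) [AddCommGroup M] [Module Λ M]
    [Module.Finite Λ M] : FiniteDimensional K (M →ₗ[Λ] Λ) := by
  let _ : Module K M := Module.compHom M (algebraMap K Λ)
  have hst : IsScalarTower K Λ M := tower_compHom K Λ M
  have hfd : Module.Finite K M := Module.Finite.trans Λ M
  have h1 : Module.Finite K (M →ₗ[K] Λ) := inferInstance
  let f : (M →ₗ[Λ] Λ) →ₗ[K] (M →ₗ[K] Λ) :=
    { toFun := fun g => LinearMap.restrictScalars K g
      map_add' := fun _ _ => rfl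
      map_smul' := fun _ _ => rfl }
  exact Module.Finite.of_injective f (LinearMap.restrictScalars_injective K)

end Pre

/-- the module of a module over the threefold cover, at a vertex -/
def IM (K Λ : Type) [Field K] [Ring Λ] [Algebra K Λ] (_ : Fin 3) (M : Type) [AddCommGroup M]
    [Module Λ M] : Type := M × ((M →ₗ[Λ] Λ) →ₗ[K] K)

section IM

variable (K Λ : Type) [Field K] [Ring Λ] [Algebra K Λ] (j : Fin 3)
variable (M : Type) [AddCommGroup M] [Module Λ M]

/-- the additive group -/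
@[reducible]
def IM.acg : AddCommGroup (IM K Λ j M) :=
  inferInstanceAs (AddCommGroup (M × ((M →ₗ[Λ] Λ) →ₗ[K] K)))

attribute [local instance] IM.acg

variable {K Λ j M}

theorem IM.ext {z w : IM K Λ j M} (h1 : z.1 = w.1) (h2 : ∀ h, z.2 h = w.2 h) : z = w :=
  Prod.ext h1 (LinearMap.ext h2)

theorem IM.add_fst (z w : IM K Λ j M) : (z + w).1 = z.1 + w.1 := rfl

theorem IM.add_snd (z w : IM K Λ j M) (h : M →ₗ[Λ] Λ) : (z + w).2 h = z.2 h + w.2 h := rfl

theorem IM.zero_fst : (0 : IM K Λ j M).1 = 0 := rfl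

theorem IM.zero_snd (h : M →ₗ[Λ] Λ) : (0 : IM K Λ j M).2 h = 0 := rfl

variable (K Λ j M)

/-- the action -/
@[reducible]
def IM.smul : SMul (T3 K Λ) (IM K Λ j M) :=
  ⟨fun x z => (x.1 j • z.1, z.2 ∘ₗ mR K (x.1 (j + 1)) + st K (x.2 j) z.1)⟩

attribute [local instance] IM.smul

variable {K Λ j M}

theorem IM.smul_fst (x : T3 K Λ) (z : IM K Λ j M) : (x • z).1 = x.1 j • z.1 := rfl

theorem IM.smul_snd (x : T3 K Λ) (z : IM K Λ j M) (h : M →ₗ[Λ] Λ) :
    (x • z).2 h = z.2 (mR K (x.1 (j + 1)) h) + x.2 j (h z.1) := rfl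

variable (K Λ j M)

/-- the module structure -/
@[reducible]
def IM.mod : Module (T3 K Λ) (IM K Λ j M) :=
  { IM.smul K Λ j M with
    one_smul := fun z => IM.ext (by rw [IM.smul_fst, T3.one_fst, one_smul]) (fun h => by
      have h1 : mR K ((1 : T3 K Λ).1 (j + 1)) h = h := by
        apply LinearMap.ext
        intro m
        rw [mR_apply, T3.one_fst, mul_one]
      rw [IM.smul_snd, h1, T3.one_snd, add_zero])
    mul_smul := fun x y z => IM.ext
      (by rw [IM.smul_fst, IM.smul_fst, IM.smul_fst, T3.mul_fst, mul_smul]) (fun h => by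
      have h1 : mR K ((x * y).1 (j + 1)) h = mR K (y.1 (j + 1)) (mR K (x.1 (j + 1)) h) := by
        apply LinearMap.ext
        intro m
        rw [mR_apply, mR_apply, mR_apply, T3.mul_fst, mul_assoc]
      rw [IM.smul_snd, IM.smul_snd, IM.smul_snd, h1, T3.mul_snd, mR_apply, IM.smul_fst, map_smul,
        smul_eq_mul, add_assoc])
    smul_zero := fun x => IM.ext (by rw [IM.smul_fst, IM.zero_fst, smul_zero]) (fun h => by
      rw [IM.smul_snd, IM.zero_snd, IM.zero_snd, IM.zero_fst, map_zero, map_zero, add_zero])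
    smul_add := fun x z w => IM.ext
      (by rw [IM.add_fst, IM.smul_fst, IM.smul_fst, IM.smul_fst, IM.add_fst, smul_add])
      (fun h => by
        rw [IM.add_snd, IM.smul_snd, IM.smul_snd, IM.smul_snd, IM.add_snd, IM.add_fst, map_add,
          map_add]
        abel)
    add_smul := fun x y z => IM.ext
      (by rw [IM.add_fst, IM.smul_fst, IM.smul_fst, IM.smul_fst, T3.add_fst, add_smul])
      (fun h => by
        have h1 : mR K ((x + y).1 (j + 1)) h = mR K (x.1 (j + 1)) h + mR K (y.1 (j + 1)) h := by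
          apply LinearMap.ext
          intro m
          rw [LinearMap.add_apply, mR_apply, mR_apply, mR_apply, T3.add_fst, mul_add]
        rw [IM.add_snd, IM.smul_snd, IM.smul_snd, IM.smul_snd, h1, T3.add_snd, map_add]
        abel)
    zero_smul := fun z => IM.ext (by rw [IM.smul_fst, T3.zero_fst, zero_smul, IM.zero_fst])
      (fun h => by
        have h1 : mR K ((0 : T3 K Λ).1 (j + 1)) h = 0 := by
          apply LinearMap.ext
          intro m
          rw [mR_apply, T3.zero_fst, mul_zero, LinearMap.zero_apply]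
        rw [IM.smul_snd, h1, map_zero, T3.zero_snd, IM.zero_snd, add_zero]) }

attribute [local instance] IM.mod

variable {K Λ j M}

/-- the elements of the first component -/
def in1 (j : Fin 3) (m : M) : IM K Λ j M := (m, 0)

/-- the elements of the second component -/
def in2 (j : Fin 3) (ξ : (M →ₗ[Λ] Λ) →ₗ[K] K) : IM K Λ j M := (0, ξ)

theorem in1_fst (m : M) : (in1 j m : IM K Λ j M).1 = m := rfl

theorem in1_snd (m : M) (h : M →ₗ[Λ] Λ) : (in1 j m : IM K Λ j M).2 h = 0 := rfl

theorem in2_fst (ξ : (M →ₗ[Λ] Λ) →ₗ[K] K) : (in2 j ξ : IM K Λ j M).1 = 0 := rfl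

theorem in2_snd (ξ : (M →ₗ[Λ] Λ) →ₗ[K] K) (h : M →ₗ[Λ] Λ) :
    (in2 j ξ : IM K Λ j M).2 h = ξ h := rfl

theorem in_add (z : IM K Λ j M) : z = in1 j z.1 + in2 j z.2 :=
  IM.ext (by rw [IM.add_fst, in1_fst, in2_fst, add_zero])
    (fun h => by rw [IM.add_snd, in1_snd, in2_snd, zero_add])

/-- the elements of the diagonal -/
def cst (a : Λ) : T3 K Λ := (fun _ => a, fun _ => 0)

theorem cst_in1 (a : Λ) (m : M) : (cst a : T3 K Λ) • (in1 j m : IM K Λ j M) = in1 j (a • m) :=
  IM.ext rfl (fun h => by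
    rw [IM.smul_snd, in1_snd, in1_snd, zero_add]
    rfl)

/-- the idempotents -/
def idm (j : Fin 3) : T3 K Λ := (Pi.single j 1, fun _ => 0)

theorem idm_in1 (m : M) : (idm j : T3 K Λ) • (in1 j m : IM K Λ j M) = in1 j m :=
  IM.ext (by
    rw [IM.smul_fst, in1_fst]
    change (Pi.single j (1 : Λ) : Fin 3 → Λ) j • m = m
    rw [Pi.single_eq_same, one_smul]) (fun h => by
    rw [IM.smul_snd, in1_snd, in1_snd, zero_add]
    rfl)

theorem idm_self (z : IM K Λ j M) : (idm j : T3 K Λ) • z = in1 j z.1 := by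
  refine IM.ext ?_ (fun h => ?_)
  · rw [IM.smul_fst, in1_fst]
    change (Pi.single j (1 : Λ) : Fin 3 → Λ) j • z.1 = z.1
    rw [Pi.single_eq_same, one_smul]
  · have h1 : (idm j : T3 K Λ).1 (j + 1) = 0 := by
      change (Pi.single j (1 : Λ) : Fin 3 → Λ) (j + 1) = 0
      rw [Pi.single_eq_of_ne (f3_ne j)]
    have h2 : mR K ((idm j : T3 K Λ).1 (j + 1)) h = 0 := by
      rw [h1]
      apply LinearMap.ext
      intro m
      rw [mR_apply, mul_zero, LinearMap.zero_apply]
    rw [IM.smul_snd, in1_snd, h2, map_zero, zero_add]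
    rfl

theorem idm_other {i : Fin 3} (h1 : i ≠ j) (h2 : i ≠ j + 1) (z : IM K Λ j M) :
    (idm i : T3 K Λ) • z = 0 := by
  refine IM.ext ?_ (fun h => ?_)
  · rw [IM.smul_fst, IM.zero_fst]
    change (Pi.single i (1 : Λ) : Fin 3 → Λ) j • z.1 = 0
    rw [Pi.single_eq_of_ne (Ne.symm h1), zero_smul]
  · have h3 : (idm i : T3 K Λ).1 (j + 1) = 0 := by
      change (Pi.single i (1 : Λ) : Fin 3 → Λ) (j + 1) = 0
      rw [Pi.single_eq_of_ne (Ne.symm h2)]
    have h4 : mR K ((idm i : T3 K Λ).1 (j + 1)) h = 0 := by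
      rw [h3]
      apply LinearMap.ext
      intro m
      rw [mR_apply, mul_zero, LinearMap.zero_apply]
    rw [IM.smul_snd, h4, map_zero, zero_add, IM.zero_snd]
    rfl

/-- the elements of the second part of the ring -/
def fE (j : Fin 3) (f : Λ →ₗ[K] K) : T3 K Λ := (0, Pi.single j f)

theorem fE_in1 (f : Λ →ₗ[K] K) (m : M) :
    (fE j f : T3 K Λ) • (in1 j m : IM K Λ j M) = in2 j (st K f m) := by
  refine IM.ext ?_ (fun h => ?_)
  · rw [IM.smul_fst, in2_fst]
    exact zero_smul _ _
  · rw [IM.smul_snd, in1_snd, zero_add, in2_snd, st_apply, in1_fst]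
    change (Pi.single j f : Fin 3 → (Λ →ₗ[K] K)) j (h m) = f (h m)
    rw [Pi.single_eq_same]

theorem cst_in2 (c : K) (ξ : (M →ₗ[Λ] Λ) →ₗ[K] K) :
    (cst (algebraMap K Λ c) : T3 K Λ) • (in2 j ξ : IM K Λ j M) = in2 j (c • ξ) := by
  refine IM.ext ?_ (fun h => ?_)
  · rw [IM.smul_fst, in2_fst, in2_fst, smul_zero]
  · have h1 : mR K ((cst (algebraMap K Λ c) : T3 K Λ).1 (j + 1)) h = c • h := by
      apply LinearMap.ext
      intro m
      rw [mR_apply, LinearMap.smul_apply, Algebra.smul_def, Algebra.commutes]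
      rfl
    rw [IM.smul_snd, h1, in2_snd, in2_snd, map_smul, LinearMap.smul_apply]
    exact add_zero _

/-- maps out of these modules are determined by the first component -/
theorem IM.hom_ext [FiniteDimensional K Λ] [Module.Finite Λ M] {Y : Type} [AddCommGroup Y]
    [Module (T3 K Λ) Y] (F G : IM K Λ j M →ₗ[T3 K Λ] Y)
    (h : ∀ m, F (in1 j m) = G (in1 j m)) (z : IM K Λ j M) : F z = G z := by
  have hfd : FiniteDimensional K (M →ₗ[Λ] Λ) := fin_dual K M
  let P : Submodule K ((M →ₗ[Λ] Λ) →ₗ[K] K) :=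
    { carrier := {ξ | F (in2 j ξ) = G (in2 j ξ)}
      add_mem' := fun {ξ η} h1 h2 => by
        have h3 : (in2 j (ξ + η) : IM K Λ j M) = in2 j ξ + in2 j η :=
          IM.ext (by rw [IM.add_fst, in2_fst, in2_fst, in2_fst, add_zero]) (fun _ => rfl)
        change F (in2 j (ξ + η)) = G (in2 j (ξ + η))
        rw [h3, map_add, map_add]
        exact congrArg₂ _ h1 h2
      zero_mem' := by
        have h3 : (in2 j 0 : IM K Λ j M) = 0 := rfl
        change F (in2 j 0) = G (in2 j 0)
        rw [h3, map_zero, map_zero]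
      smul_mem' := fun c ξ h1 => by
        change F (in2 j (c • ξ)) = G (in2 j (c • ξ))
        rw [← cst_in2, map_smul, map_smul]
        exact congrArg _ h1 }
  have hP : ∀ ξ, ξ ∈ P := by
    intro ξ
    by_contra hξ
    obtain ⟨φ, hφ, hI⟩ := Submodule.exists_le_ker_of_notMem hξ
    obtain ⟨u, rfl⟩ := (Module.bijective_dual_eval K (M →ₗ[Λ] Λ)).2 φ
    apply hφ
    have hu : u = 0 := by
      apply LinearMap.ext
      intro m
      apply (Module.forall_dual_apply_eq_zero_iff K _).mp
      intro f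
      have h1 : st K f m ∈ P := by
        change F (in2 j (st K f m)) = G (in2 j (st K f m))
        rw [← fE_in1, map_smul, map_smul, h]
      exact hI h1
    rw [hu, map_zero]
    rfl
  rw [in_add z, map_add, map_add, h]
  exact congrArg _ (hP z.2)

section map

variable {M' M'' : Type} [AddCommGroup M'] [Module Λ M'] [AddCommGroup M''] [Module Λ M'']

variable (K j) in
/-- functoriality -/
def IM.map (u : M →ₗ[Λ] M') : IM K Λ j M →ₗ[T3 K Λ] IM K Λ j M' where
  toFun z := (u z.1, z.2 ∘ₗ pre K u)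
  map_add' z w := IM.ext (map_add u _ _) (fun h => rfl)
  map_smul' x z := IM.ext (map_smul u _ _) (fun h => rfl)

theorem IM.map_fst (u : M →ₗ[Λ] M') (z : IM K Λ j M) : (IM.map K j u z).1 = u z.1 := rfl

theorem IM.map_snd (u : M →ₗ[Λ] M') (z : IM K Λ j M) (h : M' →ₗ[Λ] Λ) :
    (IM.map K j u z).2 h = z.2 (pre K u h) := rfl

theorem IM.map_surj (u : M →ₗ[Λ] M') (hu : Function.Surjective u) :
    Function.Surjective (IM.map K j u) := by
  intro z
  obtain ⟨m, hm⟩ := hu z.1
  have hp : Function.Injective (pre K u) := by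
    intro h h' hh
    apply LinearMap.ext
    intro m
    obtain ⟨n, rfl⟩ := hu m
    exact LinearMap.congr_fun hh n
  obtain ⟨p, hp'⟩ := (pre K u).exists_leftInverse_of_injective (LinearMap.ker_eq_bot.mpr hp)
  refine ⟨(m, z.2 ∘ₗ p), IM.ext hm (fun h => ?_)⟩
  rw [IM.map_snd]
  change z.2 (p (pre K u h)) = z.2 h
  exact congrArg z.2 (LinearMap.congr_fun hp' h)

theorem IM.ses {f : M →ₗ[Λ] M'} {g : M' →ₗ[Λ] M''} (h : SES f g)
    (hext : ∀ φ : M →ₗ[Λ] Λ, ∃ ψ : M' →ₗ[Λ] Λ, ∀ a, ψ (f a) = φ a) :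
    SES (IM.map K j f) (IM.map K j g) where
  inj z w hzw := by
    refine IM.ext (h.inj (congrArg Prod.fst hzw)) (fun φ => ?_)
    obtain ⟨ψ, hψ⟩ := hext φ
    have h1 : pre K f ψ = φ := LinearMap.ext hψ
    have h2 : (IM.map K j f z).2 ψ = (IM.map K j f w).2 ψ := by rw [hzw]
    rw [IM.map_snd, IM.map_snd, h1] at h2
    exact h2
  ex z hz := by
    obtain ⟨a, ha⟩ := h.ex z.1 (congrArg Prod.fst hz)
    have hs : Function.Surjective (pre K f : (M' →ₗ[Λ] Λ) →ₗ[K] (M →ₗ[Λ] Λ)) := by
      intro φ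
      obtain ⟨ψ, hψ⟩ := hext φ
      exact ⟨ψ, LinearMap.ext hψ⟩
    obtain ⟨σ, hσ⟩ := (pre K f).exists_rightInverse_of_surjective (LinearMap.range_eq_top.mpr hs)
    refine ⟨(a, z.2 ∘ₗ σ), IM.ext ha (fun φ => ?_)⟩
    rw [IM.map_snd]
    change z.2 (σ (pre K f φ)) = z.2 φ
    have h1 : pre K f (σ (pre K f φ)) = pre K f φ := LinearMap.congr_fun hσ _
    obtain ⟨v, hv⟩ := h.desc (σ (pre K f φ) - φ) (fun b => by
      rw [LinearMap.sub_apply, sub_eq_zero]
      exact LinearMap.congr_fun h1 b)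
    have h2 : pre K g v = σ (pre K f φ) - φ := LinearMap.ext hv
    have h3 : (IM.map K j g z).2 v = 0 := by
      rw [hz]
      rfl
    rw [IM.map_snd, h2, map_sub, sub_eq_zero] at h3
    exact h3
  comp z := IM.ext (h.comp _) (fun φ => by
    have h1 : pre K f (pre K g φ) = 0 := by
      apply LinearMap.ext
      intro m
      rw [pre_apply, pre_apply, h.comp, map_zero, LinearMap.zero_apply]
    rw [IM.map_snd, IM.map_snd, h1, map_zero, IM.zero_snd])
  surj := IM.map_surj g h.surj

end map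

/-- the first component, as an additive map -/
def fstH : IM K Λ j M →+ M where
  toFun z := z.1
  map_zero' := rfl
  map_add' _ _ := rfl

/-- the second component at a functional, as an additive map -/
def sndH (h : M →ₗ[Λ] Λ) : IM K Λ j M →+ K where
  toFun z := z.2 h
  map_zero' := rfl
  map_add' _ _ := rfl

/-- the modules of free modules are retracts of free modules -/
theorem IM.free_retract (k : ℕ) : ∃ (s : IM K Λ j (Fin k → Λ) →ₗ[T3 K Λ] (Fin k → T3 K Λ))
    (r : (Fin k → T3 K Λ) →ₗ[T3 K Λ] IM K Λ j (Fin k → Λ)), ∀ z, r (s z) = z := by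
  classical
  let ph : IM K Λ j (Fin k → Λ) → Fin k → (Λ →ₗ[K] K) := fun z i =>
    { toFun := fun a => z.2 (mR K a (LinearMap.proj i))
      map_add' := fun a b => by
        rw [← map_add]
        congr 1
        apply LinearMap.ext
        intro m
        rw [LinearMap.add_apply, mR_apply, mR_apply, mR_apply, mul_add]
      map_smul' := fun c a => by
        rw [RingHom.id_apply, ← map_smul]
        congr 1
        apply LinearMap.ext
        intro m
        rw [LinearMap.smul_apply, mR_apply, mR_apply, mul_smul_comm] }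
  have hph : ∀ z i a, ph z i a = z.2 (mR K a (LinearMap.proj i)) := fun _ _ _ => rfl
  let s : IM K Λ j (Fin k → Λ) →ₗ[T3 K Λ] (Fin k → T3 K Λ) :=
    { toFun := fun z i => (Pi.single j (z.1 i), Pi.single j (ph z i))
      map_add' := fun z w => by
        funext i
        refine T3.ext (fun l => ?_) (fun l a => ?_)
        · change (Pi.single j ((z + w).1 i) : Fin 3 → Λ) l =
            (Pi.single j (z.1 i) : Fin 3 → Λ) l + (Pi.single j (w.1 i) : Fin 3 → Λ) l
          rw [IM.add_fst, Pi.add_apply, Pi.single_add, Pi.add_apply]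
        · change (Pi.single j (ph (z + w) i) : Fin 3 → (Λ →ₗ[K] K)) l a =
            (Pi.single j (ph z i) : Fin 3 → (Λ →ₗ[K] K)) l a +
              (Pi.single j (ph w i) : Fin 3 → (Λ →ₗ[K] K)) l a
          have h1 : ph (z + w) i = ph z i + ph w i := rfl
          rw [h1, Pi.single_add, Pi.add_apply, LinearMap.add_apply]
      map_smul' := fun x z => by
        funext i
        refine T3.ext (fun l => ?_) (fun l a => ?_)
        · change (Pi.single j ((x • z).1 i) : Fin 3 → Λ) l =
            x.1 l * (Pi.single j (z.1 i) : Fin 3 → Λ) l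
          rcases eq_or_ne l j with rfl | hl
          · rw [Pi.single_eq_same, Pi.single_eq_same]
            rfl
          · rw [Pi.single_eq_of_ne hl, Pi.single_eq_of_ne hl, mul_zero]
        · change (Pi.single j (ph (x • z) i) : Fin 3 → (Λ →ₗ[K] K)) l a =
            (Pi.single j (ph z i) : Fin 3 → (Λ →ₗ[K] K)) l (a * x.1 (l + 1)) +
              x.2 l ((Pi.single j (z.1 i) : Fin 3 → Λ) l * a)
          rcases eq_or_ne l j with rfl | hl
          · rw [Pi.single_eq_same, Pi.single_eq_same, Pi.single_eq_same, hph, hph, IM.smul_snd]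
            have h1 : mR K (x.1 (l + 1)) (mR K a (LinearMap.proj i)) =
                mR K (a * x.1 (l + 1)) (LinearMap.proj i : (Fin k → Λ) →ₗ[Λ] Λ) := by
              apply LinearMap.ext
              intro m
              rw [mR_apply, mR_apply, mR_apply, mul_assoc]
            rw [h1, mR_apply]
            rfl
          · rw [Pi.single_eq_of_ne hl, Pi.single_eq_of_ne hl, Pi.single_eq_of_ne hl, zero_mul,
              map_zero, LinearMap.zero_apply, LinearMap.zero_apply, add_zero] }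
  let r : (Fin k → T3 K Λ) →ₗ[T3 K Λ] IM K Λ j (Fin k → Λ) :=
    ∑ i, (LinearMap.toSpanSingleton (T3 K Λ) (IM K Λ j (Fin k → Λ)) (in1 j (Pi.single i 1)))
        ∘ₗ LinearMap.proj i
  have hr : ∀ t, r t = ∑ i, t i • in1 j (Pi.single i 1) := by
    intro t
    change (∑ i, (LinearMap.toSpanSingleton (T3 K Λ) (IM K Λ j (Fin k → Λ))
      (in1 j (Pi.single i 1))) ∘ₗ LinearMap.proj i) t = _
    rw [LinearMap.sum_apply]
    rfl
  refine ⟨s, r, fun z => ?_⟩
  have hdec : ∀ v : Fin k → Λ, v = ∑ i, v i • (Pi.single i (1 : Λ) : Fin k → Λ) := by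
    intro v
    funext l
    rw [Finset.sum_apply, Finset.sum_eq_single l]
    · rw [Pi.smul_apply, Pi.single_eq_same, smul_eq_mul, mul_one]
    · intro i _ hij
      rw [Pi.smul_apply, Pi.single_eq_of_ne (Ne.symm hij), smul_zero]
    · intro h; exact absurd (Finset.mem_univ l) h
  rw [hr]
  refine IM.ext ?_ (fun h => ?_)
  · change fstH (∑ i, s z i • (in1 j (Pi.single i 1) : IM K Λ j (Fin k → Λ))) = z.1
    rw [map_sum]
    conv_rhs => rw [hdec z.1]
    refine Finset.sum_congr rfl fun i _ => ?_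
    change (Pi.single j (z.1 i) : Fin 3 → Λ) j • (Pi.single i 1 : Fin k → Λ) = _
    rw [Pi.single_eq_same]
  · change sndH h (∑ i, s z i • (in1 j (Pi.single i 1) : IM K Λ j (Fin k → Λ))) = z.2 h
    rw [map_sum]
    have h1 : h = ∑ i, mR K (h (Pi.single i 1)) (LinearMap.proj i) := by
      apply LinearMap.ext
      intro v
      rw [LinearMap.sum_apply]
      conv_lhs => rw [hdec v, map_sum]
      refine Finset.sum_congr rfl fun i _ => ?_
      rw [map_smul, smul_eq_mul, mR_apply]
      rfl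
    conv_rhs => rw [h1, map_sum]
    refine Finset.sum_congr rfl fun i _ => ?_
    change (s z i • (in1 j (Pi.single i 1) : IM K Λ j (Fin k → Λ))).2 h = _
    rw [IM.smul_snd, in1_snd, zero_add, in1_fst]
    change (Pi.single j (ph z i) : Fin 3 → (Λ →ₗ[K] K)) j (h (Pi.single i 1)) = _
    rw [Pi.single_eq_same, hph]

end IM

end Run7.h692.Eq
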