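import Pool.Agent.Run7.h692.Eq.EV

set_option autoImplicit false
set_option linter.unusedSectionVars false
open CategoryTheory

namespace Run7.h692.Eq

section Add

variable {A : Type} [Ring A]

/-- retracts of finite powers -/
def InAdd (Q I : Type) [AddCommGroup Q] [Module A Q] [AddCommGroup I] [Module A I] : Prop :=
  ∃ (m : ℕ) (s : I →ₗ[A] (Fin m → Q)) (r : (Fin m → Q) →ₗ[A] I), ∀ x, r (s x) = x

/-- partial traces -/
def Trc (I : ℕ → ModuleCat.{0} A) (n : ℕ) : Submodule A A :=
  ⨆ i : Fin (n + 1), ⨆ f : I i →ₗ[A] A, LinearMap.range f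

theorem Trc_mem (I : ℕ → ModuleCat.{0} A) {n i : ℕ} (hi : i ≤ n) (f : I i →ₗ[A] A) (p : I i) :
    f p ∈ Trc I n := by
  have h1 : LinearMap.range f ≤ Trc I n :=
    (le_iSup (fun f : I i →ₗ[A] A => LinearMap.range f) f).trans
      (le_iSup (fun i : Fin (n + 1) => ⨆ f : I i →ₗ[A] A, LinearMap.range f)
        (⟨i, Nat.lt_succ_of_le hi⟩ : Fin (n + 1)))
  exact h1 ⟨p, rfl⟩

theorem Trc_mono (I : ℕ → ModuleCat.{0} A) : Monotone (Trc I) := by
  intro n m hnm
  refine iSup_le fun i => iSup_le fun f => ?_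
  rintro x ⟨p, rfl⟩
  exact Trc_mem I (le_trans (Nat.le_of_lt_succ i.2) hnm) f p

/-- finitely many modules suffice -/
theorem exists_Q [IsNoetherianRing A] (I : ℕ → ModuleCat.{0} A)
    (hf : ∀ n, Module.Finite A (I n)) (hp : ∀ n, Module.Projective A (I n)) :
    ∃ n : ℕ, ∀ j, InAdd (A := A) (∀ i : Fin (n + 1), I i) (I j) := by
  classical
  obtain ⟨n, hn⟩ := monotone_stabilizes_iff_noetherian.mpr (inferInstance : IsNoetherian A A)
    ⟨Trc I, Trc_mono I⟩
  have hn' : ∀ m, n ≤ m → Trc I n = Trc I m := hn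
  refine ⟨n, fun j => ?_⟩
  have hfj := hf j
  have hpj := hp j
  let S : Submodule A (I j) := ⨆ g : (∀ i : Fin (n + 1), I i) →ₗ[A] I j, LinearMap.range g
  have h1 : ∀ (a : A), a ∈ Trc I n → ∀ x : I j, a • x ∈ S := by
    intro a ha x
    have h2 : Trc I n ≤ Submodule.comap (LinearMap.toSpanSingleton A (I j) x) S := by
      refine iSup_le fun i => iSup_le fun f => ?_
      rintro b ⟨p, rfl⟩
      change f p • x ∈ S
      let g : (∀ i : Fin (n + 1), I i) →ₗ[A] I j :=
        (LinearMap.toSpanSingleton A (I j) x) ∘ₗ f ∘ₗ LinearMap.proj i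
      have h3 : g (Pi.single i p) = f p • x := by
        change f ((Pi.single i p : ∀ i : Fin (n + 1), I i) i) • x = f p • x
        rw [Pi.single_eq_same]
      rw [← h3]
      exact (le_iSup (fun g : (∀ i : Fin (n + 1), I i) →ₗ[A] I j => LinearMap.range g) g)
        ⟨_, rfl⟩
    exact h2 ha
  obtain ⟨k, p, hpk⟩ := Module.Finite.exists_fin' A (I j)
  obtain ⟨s, hs⟩ := Module.projective_lifting_property p LinearMap.id hpk
  have hS : S = ⊤ := by
    rw [eq_top_iff]
    intro y _
    have h2 : s y = ∑ i, s y i • (Pi.single i (1 : A) : Fin k → A) := by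
      funext l
      rw [Finset.sum_apply, Finset.sum_eq_single l]
      · rw [Pi.smul_apply, Pi.single_eq_same, smul_eq_mul, mul_one]
      · intro i _ hij
        rw [Pi.smul_apply, Pi.single_eq_of_ne (Ne.symm hij), smul_zero]
      · intro h; exact absurd (Finset.mem_univ l) h
    have h3 : y = ∑ i, s y i • p (Pi.single i 1) := by
      have h4 : p (s y) = y := LinearMap.congr_fun hs y
      conv_lhs => rw [← h4, h2, map_sum]
      exact Finset.sum_congr rfl fun i _ => map_smul p _ _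
    rw [h3]
    refine Submodule.sum_mem _ fun i _ => h1 _ ?_ _
    have h5 : s y i ∈ Trc I (max j n) :=
      Trc_mem I (le_max_left j n) (LinearMap.proj i ∘ₗ s) y
    rw [hn' _ (le_max_right j n)]
    exact h5
  have hc : IsCompactElement (⊤ : Submodule A (I j)) :=
    (Submodule.fg_iff_compact _).mp hfj.fg_top
  obtain ⟨L, hL⟩ := CompleteLattice.IsCompactElement.exists_finset_of_le_iSup _ hc
    (fun g : (∀ i : Fin (n + 1), I i) →ₗ[A] I j => LinearMap.range g) (le_of_eq hS.symm)
  let g : Fin L.card → ((∀ i : Fin (n + 1), I i) →ₗ[A] I j) := fun i => (L.equivFin.symm i).1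
  let r : (Fin L.card → (∀ i : Fin (n + 1), I i)) →ₗ[A] I j :=
    ∑ i, g i ∘ₗ LinearMap.proj i
  have hr : Function.Surjective r := by
    rw [← LinearMap.range_eq_top, eq_top_iff]
    refine hL.trans (iSup_le fun f => iSup_le fun hfL => ?_)
    rintro x ⟨q, rfl⟩
    refine ⟨Pi.single (L.equivFin ⟨f, hfL⟩) q, ?_⟩
    change (∑ i, g i ∘ₗ LinearMap.proj i) _ = _
    rw [LinearMap.sum_apply, Finset.sum_eq_single (L.equivFin ⟨f, hfL⟩)]
    · change g (L.equivFin ⟨f, hfL⟩) ((Pi.single (L.equivFin ⟨f, hfL⟩) q :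
        Fin L.card → (∀ i : Fin (n + 1), I i)) (L.equivFin ⟨f, hfL⟩)) = f q
      rw [Pi.single_eq_same]
      change (L.equivFin.symm (L.equivFin ⟨f, hfL⟩)).1 q = f q
      rw [Equiv.symm_apply_apply]
    · intro i _ hi
      change g i ((Pi.single (L.equivFin ⟨f, hfL⟩) q :
        Fin L.card → (∀ i : Fin (n + 1), I i)) i) = 0
      rw [Pi.single_eq_of_ne hi, map_zero]
    · intro h; exact absurd (Finset.mem_univ _) h
  obtain ⟨t, ht⟩ := Module.projective_lifting_property r LinearMap.id hr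
  exact ⟨L.card, t, r, fun x => LinearMap.congr_fun ht x⟩

end Add

end Run7.h692.Eq
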