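import Pool.Agent.Run7.h692.Eq.NK1

set_option autoImplicit false
set_option linter.unusedSectionVars false
open CategoryTheory

namespace Run7.h692.Eq

section

variable {A : Type} [Ring A] {Q : Type} [AddCommGroup Q] [Module A Q]
variable {W V U : Type} [AddCommGroup W] [Module A W] [AddCommGroup V] [Module A V]
  [AddCommGroup U] [Module A U]

/-- precomposition, linear over the endomorphism ring -/
def hm (Q : Type) [AddCommGroup Q] [Module A Q] (f : W →ₗ[A] V) :
    (V →ₗ[A] Q) →ₗ[Module.End A Q] (W →ₗ[A] Q) where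
  toFun h := h ∘ₗ f
  map_add' _ _ := rfl
  map_smul' _ _ := rfl

theorem hm_apply (f : W →ₗ[A] V) (h : V →ₗ[A] Q) (w : W) : hm Q f h w = h (f w) := rfl

/-- evaluation, linear over the endomorphism ring -/
def evm (Q : Type) [AddCommGroup Q] [Module A Q] (w : W) :
    (W →ₗ[A] Q) →ₗ[Module.End A Q] Q where
  toFun h := h w
  map_add' _ _ := rfl
  map_smul' _ _ := rfl

theorem evm_apply (w : W) (h : W →ₗ[A] Q) : evm Q w h = h w := rfl

theorem desc' {f : U →ₗ[A] V} {g : V →ₗ[A] W} (h : SES f g) (u : V →ₗ[A] Q)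
    (hu : ∀ a, u (f a) = 0) : ∃ v : W →ₗ[A] Q, ∀ b, v (g b) = u b := by
  have hk : LinearMap.ker g ≤ LinearMap.ker u := by
    intro z hz
    obtain ⟨a, rfl⟩ := h.ex z hz
    exact hu a
  let E := g.quotKerEquivOfSurjective h.surj
  refine ⟨(Submodule.liftQ _ u hk) ∘ₗ E.symm.toLinearMap, fun z => ?_⟩
  have h3 : E.symm (g z) = Submodule.Quotient.mk z := by
    rw [LinearEquiv.symm_apply_eq]
    rfl
  change (Submodule.liftQ _ u hk) (E.symm (g z)) = _
  rw [h3]
  rfl

theorem hm_ses {f : U →ₗ[A] V} {g : V →ₗ[A] W} (h : SES f g) (hQ : Module.Injective A Q) :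
    SES (hm Q g) (hm Q f) where
  inj u v huv := by
    apply LinearMap.ext
    intro n
    obtain ⟨z, rfl⟩ := h.surj n
    exact LinearMap.congr_fun huv z
  ex u hu := by
    obtain ⟨v, hv⟩ := desc' h u (fun a => LinearMap.congr_fun hu a)
    exact ⟨v, LinearMap.ext hv⟩
  comp u := by
    apply LinearMap.ext
    intro n
    rw [hm_apply, hm_apply, h.comp, map_zero, LinearMap.zero_apply]
  surj v := by
    obtain ⟨w, hw⟩ := hQ.out f h.inj v
    exact ⟨w, LinearMap.ext hw⟩

variable (Q W) in
/-- reflexive modules with respect to a module -/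
def RF : Prop := ∀ φ : (W →ₗ[A] Q) →ₗ[Module.End A Q] Q, ∃ w : W, ∀ h, φ h = h w

theorem sum_split {m : ℕ} {s : W →ₗ[A] (Fin m → Q)} {r : (Fin m → Q) →ₗ[A] W}
    (hrs : ∀ x, r (s x) = x) (x : W) :
    x = ∑ i, r (Pi.single i (s x i)) := by
  rw [← map_sum, Finset.univ_sum_single, hrs]

theorem rf_add (h : InAdd (A := A) Q W) : RF (A := A) Q W := by
  classical
  obtain ⟨m, s, r, hrs⟩ := h
  intro φ
  let w : Fin m → Q := fun i => φ (LinearMap.proj i ∘ₗ s)
  refine ⟨r w, fun h => ?_⟩
  let b : Fin m → Module.End A Q := fun i => h ∘ₗ r ∘ₗ LinearMap.single A (fun _ => Q) i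
  have h1 : h = ∑ i, b i • ((LinearMap.proj i ∘ₗ s : W →ₗ[A] Q)) := by
    apply LinearMap.ext
    intro x
    rw [LinearMap.sum_apply]
    conv_lhs => rw [sum_split hrs x, map_sum]
    rfl
  have h2 : h (r w) = ∑ i, b i (w i) := by
    conv_lhs => rw [← Finset.univ_sum_single w, map_sum, map_sum]
    rfl
  rw [h2]
  conv_lhs => rw [h1, map_sum]
  refine Finset.sum_congr rfl fun i _ => ?_
  rw [map_smul]
  rfl

theorem rf_cok {f : U →ₗ[A] V} {g : V →ₗ[A] W} (h : SES f g) (hQ : Module.Injective A Q)
    (hV : RF (A := A) Q V) (hW : ∀ w : W, (∀ h : W →ₗ[A] Q, h w = 0) → w = 0) :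
    RF (A := A) Q U := by
  intro φ
  obtain ⟨y, hy⟩ := hV (φ ∘ₗ hm Q f)
  have h1 : g y = 0 := by
    apply hW
    intro k
    have h2 := hy (k ∘ₗ g)
    have h3 : hm Q f (k ∘ₗ g) = 0 := by
      apply LinearMap.ext
      intro n
      change k (g (f n)) = 0
      rw [h.comp, map_zero]
    rw [LinearMap.comp_apply, h3, map_zero] at h2
    exact h2.symm
  obtain ⟨z, rfl⟩ := h.ex y h1
  refine ⟨z, fun k => ?_⟩
  obtain ⟨k', hk'⟩ := hQ.out f h.inj k
  have h4 : hm Q f k' = k := LinearMap.ext hk'
  have h5 := hy k'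
  rw [LinearMap.comp_apply, h4] at h5
  rw [h5]
  exact hk' z

theorem proj_hm (h : InAdd (A := A) Q W) : Module.Projective (Module.End A Q) (W →ₗ[A] Q) := by
  classical
  obtain ⟨m, s, r, hrs⟩ := h
  let S : (W →ₗ[A] Q) →ₗ[Module.End A Q] (Fin m → Module.End A Q) :=
    { toFun := fun h i => h ∘ₗ r ∘ₗ LinearMap.single A (fun _ => Q) i
      map_add' := fun _ _ => rfl
      map_smul' := fun _ _ => rfl }
  let R : (Fin m → Module.End A Q) →ₗ[Module.End A Q] (W →ₗ[A] Q) :=
    { toFun := fun b => ∑ i, (b i : Q →ₗ[A] Q) ∘ₗ LinearMap.proj i ∘ₗ s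
      map_add' := fun b c => by
        rw [← Finset.sum_add_distrib]
        exact Finset.sum_congr rfl fun i _ => rfl
      map_smul' := fun a b => by
        rw [RingHom.id_apply, Finset.smul_sum]
        exact Finset.sum_congr rfl fun i _ => rfl }
  refine Module.Projective.of_split S R (LinearMap.ext fun h => ?_)
  apply LinearMap.ext
  intro x
  change (∑ i, (h ∘ₗ r ∘ₗ LinearMap.single A (fun _ => Q) i) ∘ₗ LinearMap.proj i ∘ₗ s) x = h x
  rw [LinearMap.sum_apply]
  conv_rhs => rw [sum_split hrs x, map_sum]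
  rfl

theorem cogen_add (h : InAdd (A := A) Q W) (w : W) (hw : ∀ k : W →ₗ[A] Q, k w = 0) : w = 0 := by
  obtain ⟨m, s, r, hrs⟩ := h
  rw [← hrs w]
  have h1 : s w = 0 := by
    funext i
    exact hw (LinearMap.proj i ∘ₗ s)
  rw [h1, map_zero]

variable (I : ℕ → ModuleCat.{0} A) (d : ∀ n, I n →ₗ[A] I (n + 1))
  (hd : ∀ n, Function.Exact (d n) (d (n + 1)))

/-- the cosyzygy map -/
def cz (n : ℕ) (hd : ∀ n, Function.Exact (d n) (d (n + 1))) :
    I n →ₗ[A] LinearMap.ker (d (n + 1)) :=
  LinearMap.codRestrict _ (d n) fun x => (hd n (d n x)).mpr ⟨x, rfl⟩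

theorem cz_ses (n : ℕ) : SES (LinearMap.ker (d n)).subtype (cz I d n hd) where
  inj := (LinearMap.ker (d n)).injective_subtype
  ex b hb := ⟨⟨b, congrArg Subtype.val hb⟩, rfl⟩
  comp a := Subtype.ext a.2
  surj b := by
    obtain ⟨x, hx⟩ := (hd n b.1).mp b.2
    exact ⟨x, Subtype.ext hx⟩

include hd in
theorem rf_ker (hQ : Module.Injective A Q) (hI : ∀ n, InAdd (A := A) Q (I n)) (n : ℕ) :
    RF (A := A) Q (LinearMap.ker (d n)) := by
  apply rf_cok (cz_ses I d hd n) hQ (rf_add (hI n))
  intro w hw
  apply Subtype.ext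
  apply cogen_add (hI (n + 1))
  intro k
  exact hw (k ∘ₗ (LinearMap.ker (d (n + 1))).subtype)

include hd in
theorem ev_seq (hQ : Module.Injective A Q) (hI : ∀ n, InAdd (A := A) Q (I n)) (m : ℕ) :
    ∀ n, EX (Module.End A Q) m ((LinearMap.ker (d n)) →ₗ[A] Q) Q := by
  induction m with
  | zero =>
    intro n
    refine (hm_ses (cz_ses I d hd n) hQ).con0 (EX.proj (proj_hm (hI n))) ?_
    intro φ
    obtain ⟨z, hz⟩ := rf_ker I d hd hQ hI (n + 1) φ
    obtain ⟨y, rfl⟩ := (cz_ses I d hd n).surj z
    refine ⟨evm Q y, fun k => ?_⟩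
    rw [hz]
    rfl
  | succ m ih =>
    intro n
    exact (hm_ses (cz_ses I d hd n) hQ).conS (EX.proj (proj_hm (hI n))) (ih (n + 1))

variable {ε : A →ₗ[A] I 0} (hε : Function.Injective ε) (hεd : Function.Exact ε (d 0))

include hε hεd hd in
theorem ev_QQ (hQ : Module.Injective A Q) (hI : ∀ n, InAdd (A := A) Q (I n)) :
    EV (Module.End A Q) Q Q := by
  intro m
  let E0 : A →ₗ[A] LinearMap.ker (d 0) := LinearMap.codRestrict _ ε fun x =>
    (hεd (ε x)).mpr ⟨x, rfl⟩
  have hE0 : Function.Bijective E0 := by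
    constructor
    · intro x y hxy
      exact hε (congrArg Subtype.val hxy)
    · intro z
      obtain ⟨x, hx⟩ := (hεd z.1).mp z.2
      exact ⟨x, Subtype.ext hx⟩
  let E := LinearEquiv.ofBijective E0 hE0
  let s : Q →ₗ[Module.End A Q] ((LinearMap.ker (d 0)) →ₗ[A] Q) :=
    { toFun := fun q => (LinearMap.toSpanSingleton A Q q) ∘ₗ E.symm.toLinearMap
      map_add' := fun q q' => by
        apply LinearMap.ext
        intro x
        change E.symm x • (q + q') = E.symm x • q + E.symm x • q'
        rw [smul_add]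
      map_smul' := fun b q => by
        apply LinearMap.ext
        intro x
        change E.symm x • (b q) = b (E.symm x • q)
        rw [map_smul] }
  refine (ev_seq I d hd hQ hI m 0).retrL s (evm Q (E 1)) fun q => ?_
  change E.symm (E 1) • q = q
  rw [LinearEquiv.symm_apply_apply, one_smul]

/-- the endomorphism ring is a retract of a power of a finitely generated projective module -/
theorem end_retract (hf : Module.Finite A Q) (hp : Module.Projective A Q) :
    ∃ (m : ℕ) (s : Module.End A Q →ₗ[Module.End A Q] (Fin m → Q))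
      (r : (Fin m → Q) →ₗ[Module.End A Q] Module.End A Q), ∀ x, r (s x) = x := by
  classical
  obtain ⟨m, p, hpk⟩ := Module.Finite.exists_fin' A Q
  obtain ⟨t, ht⟩ := Module.projective_lifting_property p LinearMap.id hpk
  let s : Module.End A Q →ₗ[Module.End A Q] (Fin m → Q) :=
    { toFun := fun b i => b (p (Pi.single i 1))
      map_add' := fun _ _ => rfl
      map_smul' := fun _ _ => rfl }
  let r : (Fin m → Q) →ₗ[Module.End A Q] Module.End A Q :=
    { toFun := fun v => ∑ i, (LinearMap.toSpanSingleton A Q (v i)) ∘ₗ LinearMap.proj i ∘ₗ t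
      map_add' := fun v w => by
        rw [← Finset.sum_add_distrib]
        refine Finset.sum_congr rfl fun i _ => ?_
        apply LinearMap.ext
        intro x
        change t x i • (v i + w i) = t x i • v i + t x i • w i
        rw [smul_add]
      map_smul' := fun b v => by
        rw [RingHom.id_apply, Finset.smul_sum]
        refine Finset.sum_congr rfl fun i _ => ?_
        apply LinearMap.ext
        intro x
        change t x i • (b (v i)) = b (t x i • v i)
        rw [map_smul] }
  refine ⟨m, s, r, fun b => ?_⟩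
  apply LinearMap.ext
  intro x
  change (∑ i, (LinearMap.toSpanSingleton A Q (b (p (Pi.single i 1)))) ∘ₗ
    LinearMap.proj i ∘ₗ t) x = b x
  rw [LinearMap.sum_apply]
  have h2 : t x = ∑ i, t x i • (Pi.single i (1 : A) : Fin m → A) := by
    funext l
    rw [Finset.sum_apply, Finset.sum_eq_single l]
    · rw [Pi.smul_apply, Pi.single_eq_same, smul_eq_mul, mul_one]
    · intro i _ hij
      rw [Pi.smul_apply, Pi.single_eq_of_ne (Ne.symm hij), smul_zero]
    · intro h; exact absurd (Finset.mem_univ l) h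
  have h3 : p (t x) = x := LinearMap.congr_fun ht x
  conv_rhs => rw [← h3, h2, map_sum, map_sum]
  refine Finset.sum_congr rfl fun i _ => ?_
  rw [map_smul, map_smul]
  rfl

theorem ev_QE (hf : Module.Finite A Q) (hp : Module.Projective A Q)
    (h : EV (Module.End A Q) Q Q) : EV (Module.End A Q) Q (Module.End A Q) := by
  obtain ⟨m, s, r, hrs⟩ := end_retract hf hp
  intro n
  exact ((h n).powR m).retrR s r hrs

include hε hεd hd in
/-- if `Q` is projective over its endomorphism ring then `A` is self-injective -/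
theorem inj_of_proj (hQ : Module.Injective A Q) (hI : ∀ n, InAdd (A := A) Q (I n))
    (hfQ : Module.Finite (Module.End A Q) Q)
    (hpr : Module.Projective (Module.End A Q) Q) : Module.Injective A A := by
  classical
  -- the algebra acts faithfully
  have hfaith : ∀ a : A, (∀ q : Q, a • q = 0) → a = 0 := by
    intro a ha
    apply hε
    rw [map_zero]
    apply cogen_add (hI 0)
    intro k
    have h1 : ε a = a • ε 1 := by rw [← map_smul, smul_eq_mul, mul_one]
    rw [h1, map_smul]
    exact ha _
  -- every endomorphism over the endomorphism ring is a multiplication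
  have hmul : ∀ θ : Q →ₗ[Module.End A Q] Q, ∃ a : A, ∀ q, θ q = a • q := by
    intro θ
    let E0 : A →ₗ[A] LinearMap.ker (d 0) := LinearMap.codRestrict _ ε fun x =>
      (hεd (ε x)).mpr ⟨x, rfl⟩
    have hE0 : Function.Bijective E0 := by
      constructor
      · intro x y hxy
        exact hε (congrArg Subtype.val hxy)
      · intro z
        obtain ⟨x, hx⟩ := (hεd z.1).mp z.2
        exact ⟨x, Subtype.ext hx⟩
    let E := LinearEquiv.ofBijective E0 hE0
    obtain ⟨z, hz⟩ := rf_ker I d hd hQ hI 0 (θ ∘ₗ evm Q (E 1))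
    refine ⟨E.symm z, fun q => ?_⟩
    have h1 := hz ((LinearMap.toSpanSingleton A Q q) ∘ₗ E.symm.toLinearMap)
    have h2 : evm Q (E 1) ((LinearMap.toSpanSingleton A Q q) ∘ₗ E.symm.toLinearMap) = q := by
      change E.symm (E 1) • q = q
      rw [LinearEquiv.symm_apply_apply, one_smul]
    rw [LinearMap.comp_apply, h2] at h1
    exact h1
  obtain ⟨m, p, hpk⟩ := Module.Finite.exists_fin' (Module.End A Q) Q
  obtain ⟨t, ht⟩ := Module.projective_lifting_property p LinearMap.id hpk
  let θ : (Fin m → Q) → (Q →ₗ[Module.End A Q] Q) := fun v =>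
    { toFun := fun q => ∑ i, (t q i) (v i)
      map_add' := fun q q' => by
        rw [← Finset.sum_add_distrib]
        refine Finset.sum_congr rfl fun i _ => ?_
        rw [map_add]
        rfl
      map_smul' := fun b q => by
        rw [RingHom.id_apply, Finset.smul_sum]
        refine Finset.sum_congr rfl fun i _ => ?_
        rw [map_smul]
        rfl }
  have hθ : ∀ v q, θ v q = ∑ i, (t q i) (v i) := fun _ _ => rfl
  choose r0 hr0 using fun v => hmul (θ v)
  have huniq : ∀ a b : A, (∀ q : Q, a • q = b • q) → a = b := by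
    intro a b h
    rw [← sub_eq_zero]
    apply hfaith
    intro q
    rw [sub_smul, h, sub_self]
  let r : (Fin m → Q) →ₗ[A] A :=
    { toFun := r0
      map_add' := fun v w => by
        apply huniq
        intro q
        rw [add_smul, ← hr0, ← hr0, ← hr0, hθ, hθ, hθ, ← Finset.sum_add_distrib]
        refine Finset.sum_congr rfl fun i _ => ?_
        rw [Pi.add_apply, map_add]
      map_smul' := fun a v => by
        apply huniq
        intro q
        rw [RingHom.id_apply, smul_eq_mul, mul_smul, ← hr0, ← hr0, hθ, hθ, Finset.smul_sum]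
        refine Finset.sum_congr rfl fun i _ => ?_
        rw [Pi.smul_apply, map_smul] }
  let s : A →ₗ[A] (Fin m → Q) :=
    { toFun := fun a i => a • p (Pi.single i 1)
      map_add' := fun a b => by
        funext i
        exact add_smul _ _ _
      map_smul' := fun a b => by
        funext i
        exact mul_smul _ _ _ }
  have hrs : ∀ a, r (s a) = a := by
    intro a
    apply huniq
    intro q
    change r0 (s a) • q = a • q
    rw [← hr0, hθ]
    have h2 : t q = ∑ i, t q i • (Pi.single i (1 : Module.End A Q) : Fin m → Module.End A Q) := by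
      funext l
      rw [Finset.sum_apply, Finset.sum_eq_single l]
      · rw [Pi.smul_apply, Pi.single_eq_same, smul_eq_mul, mul_one]
      · intro i _ hij
        rw [Pi.smul_apply, Pi.single_eq_of_ne (Ne.symm hij), smul_zero]
      · intro h; exact absurd (Finset.mem_univ l) h
    have h3 : p (t q) = q := LinearMap.congr_fun ht q
    conv_rhs => rw [← h3, h2, map_sum, Finset.smul_sum]
    refine Finset.sum_congr rfl fun i _ => ?_
    rw [map_smul]
    change (t q i) (a • p (Pi.single i 1)) = a • (t q i) (p (Pi.single i 1))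
    rw [map_smul]
  have hpow : Module.Injective A (Fin m → Q) := inferInstance
  refine ⟨fun X Y _ _ _ _ f hf u => ?_⟩
  obtain ⟨v, hv⟩ := hpow.out f hf (s ∘ₗ u)
  refine ⟨r ∘ₗ v, fun z => ?_⟩
  rw [LinearMap.comp_apply, hv]
  exact hrs (u z)

end

end Run7.h692.Eq
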