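import Pool.Agent.Run7.h692.Eq.GPfull

set_option autoImplicit false
set_option linter.unusedSectionVars false
open scoped TensorProduct
open CategoryTheory MulOpposite Pool.Agent.Helper426Tach Pool.Agent.Helper426GSC
  Pool.Agent.Helper426TauT

namespace Run7.h692.Eq

section Pair

variable {K A : Type} [Field K] [Ring A] [Algebra K A] [FiniteDimensional K A]
variable {e : A} {μ : A →ₗ[K] K}

theorem PD.exists_rep' (h : PD K A e μ) (φ : A →ₗ[K] K) :
    ∃ y : A, e * y = y ∧ ∀ x, x * e = x → μ (y * x) = φ x := by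
  let P : lI K e →ₗ[K] Module.Dual K (rI K e) :=
    LinearMap.mk₂ K (fun (x : lI K e) (y : rI K e) => μ ((y : A) * x))
      (fun x x' y => by rw [Submodule.coe_add, mul_add, map_add])
      (fun c x y => by rw [Submodule.coe_smul, mul_smul_comm, map_smul])
      (fun x y y' => by rw [Submodule.coe_add, add_mul, map_add])
      (fun c x y => by rw [Submodule.coe_smul, smul_mul_assoc, map_smul])
  let Q : rI K e →ₗ[K] Module.Dual K (lI K e) :=
    LinearMap.mk₂ K (fun (y : rI K e) (x : lI K e) => μ ((y : A) * x))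
      (fun x y y' => by rw [Submodule.coe_add, add_mul, map_add])
      (fun c x y => by rw [Submodule.coe_smul, smul_mul_assoc, map_smul])
      (fun x x' y => by rw [Submodule.coe_add, mul_add, map_add])
      (fun c x y => by rw [Submodule.coe_smul, mul_smul_comm, map_smul])
  have hP : Function.Injective P := by
    rw [injective_iff_map_eq_zero]
    intro x hx
    apply Subtype.ext
    exact h.nr x x.2 fun y hy => LinearMap.congr_fun hx ⟨y, hy⟩
  have hQ : Function.Injective Q := by
    rw [injective_iff_map_eq_zero]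
    intro y hy
    apply Subtype.ext
    exact h.nl y y.2 fun x hx => LinearMap.congr_fun hy ⟨x, hx⟩
  have h1 := LinearMap.finrank_le_finrank_of_injective hP
  have h2 := LinearMap.finrank_le_finrank_of_injective hQ
  rw [Subspace.dual_finrank_eq] at h1 h2
  have h3 : Module.finrank K (rI K e) = Module.finrank K (Module.Dual K (lI K e)) := by
    rw [Subspace.dual_finrank_eq]
    exact le_antisymm h2 h1
  have hs := (LinearMap.injective_iff_surjective_of_finrank_eq_finrank h3).mp hQ
  obtain ⟨x, hx⟩ := hs (φ ∘ₗ (lI K e).subtype)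
  exact ⟨x, x.2, fun y hy => LinearMap.congr_fun hx ⟨y, hy⟩⟩

theorem PD.unique' (h : PD K A e μ) {y y' : A} (hy : e * y = y) (hy' : e * y' = y')
    (hh : ∀ x, x * e = x → μ (y * x) = μ (y' * x)) : y = y' := by
  rw [← sub_eq_zero]
  apply h.nl
  · rw [mul_sub, hy, hy']
  · intro x hx
    rw [sub_mul, map_sub, hh x hx, sub_self]

/-- the representing element of a functional, on the right -/
noncomputable def PD.rp (h : PD K A e μ) (φ : QD K A) : A :=
  (h.exists_rep' (show A →ₗ[K] K from φ)).choose

theorem PD.rp_mul (h : PD K A e μ) (φ : QD K A) : e * h.rp φ = h.rp φ :=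
  (h.exists_rep' (show A →ₗ[K] K from φ)).choose_spec.1

theorem PD.rp_spec (h : PD K A e μ) (φ : QD K A) (x : A) (hx : x * e = x) :
    μ (h.rp φ * x) = ev φ x :=
  (h.exists_rep' (show A →ₗ[K] K from φ)).choose_spec.2 x hx

theorem PD.rp_eq (h : PD K A e μ) (φ : QD K A) (y : A) (hy : e * y = y)
    (hh : ∀ x, x * e = x → μ (y * x) = ev φ x) : h.rp φ = y := by
  apply h.unique' (h.rp_mul _) hy
  intro x hx
  rw [h.rp_spec _ x hx, hh x hx]

theorem PD.rep_eq (h : PD K A e μ) (φ : QD K A) (x : A) (hx : x * e = x)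
    (hh : ∀ y, e * y = y → μ (y * x) = ev φ y) : h.rep φ = x := by
  apply h.unique (h.rep_mul _) hx
  intro y hy
  rw [h.rep_spec _ y hy, hh y hy]

theorem PD.rp_add (h : PD K A e μ) (φ ψ : QD K A) : h.rp (φ + ψ) = h.rp φ + h.rp ψ := by
  apply h.rp_eq
  · rw [mul_add, h.rp_mul, h.rp_mul]
  · intro x hx
    rw [add_mul, map_add, h.rp_spec _ x hx, h.rp_spec _ x hx, ev_add]

theorem PD.rp_smul (h : PD K A e μ) (b : Aᵐᵒᵖ) (φ : QD K A) :
    h.rp (b • φ) = h.rp φ * unop b := by
  apply h.rp_eq
  · rw [← mul_assoc, h.rp_mul]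
  · intro x hx
    have h1 : (unop b * x) * e = unop b * x := by rw [mul_assoc, hx]
    rw [mul_assoc, h.rp_spec _ _ h1, ev_op]

end Pair

end Run7.h692.Eq
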