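import Pool.Agent.Run7.h692.Eq.EndC

set_option autoImplicit false
set_option linter.unusedSectionVars false
open scoped TensorProduct
open CategoryTheory MulOpposite

namespace Run7.h692.Eq

theorem f3_sub_add (j : Fin 3) : j - 1 + 1 = j := by decide +revert
theorem f3_add_sub (j : Fin 3) : j + 1 - 1 = j := by decide +revert
theorem f3_ne (j : Fin 3) : j + 1 ≠ j := by decide +revert

/-- the cyclic shift of the indices -/
def sh : Fin 3 ≃ Fin 3 where
  toFun j := j + 1
  invFun j := j - 1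
  left_inv := f3_add_sub
  right_inv := f3_sub_add

section Bi

variable {K Λ : Type} [Field K] [Ring Λ] [Algebra K Λ]

/-- left action on functionals -/
def lD (a : Λ) (g : Λ →ₗ[K] K) : Λ →ₗ[K] K := g ∘ₗ LinearMap.mulRight K a

/-- right action on functionals -/
def rD (g : Λ →ₗ[K] K) (s : Λ) : Λ →ₗ[K] K := g ∘ₗ LinearMap.mulLeft K s

theorem lD_apply (a : Λ) (g : Λ →ₗ[K] K) (x : Λ) : lD a g x = g (x * a) := rfl

theorem rD_apply (g : Λ →ₗ[K] K) (s x : Λ) : rD g s x = g (s * x) := rfl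

end Bi

/-- the threefold cover of the trivial extension algebra: pairs of three elements and three
functionals -/
def T3 (K Λ : Type) [Field K] [Ring Λ] [Algebra K Λ] : Type :=
  (Fin 3 → Λ) × (Fin 3 → (Λ →ₗ[K] K))

section T3

variable (K Λ : Type) [Field K] [Ring Λ] [Algebra K Λ]

/-- the additive group -/
@[reducible]
def T3.acg : AddCommGroup (T3 K Λ) := inferInstanceAs (AddCommGroup ((Fin 3 → Λ) × _))

/-- the multiplication -/
@[reducible]
def T3.mul : Mul (T3 K Λ) :=
  ⟨fun x y => (fun j => x.1 j * y.1 j, fun j => lD (x.1 (j + 1)) (y.2 j) + rD (x.2 j) (y.1 j))⟩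

/-- the unit -/
@[reducible]
def T3.one : One (T3 K Λ) := ⟨(fun _ => 1, fun _ => 0)⟩

attribute [local instance] T3.acg T3.mul T3.one

variable {K Λ}

theorem T3.ext {x y : T3 K Λ} (h1 : ∀ j, x.1 j = y.1 j) (h2 : ∀ j a, x.2 j a = y.2 j a) :
    x = y :=
  Prod.ext (funext h1) (funext fun j => LinearMap.ext (h2 j))

theorem T3.mul_fst (x y : T3 K Λ) (j : Fin 3) : (x * y).1 j = x.1 j * y.1 j := rfl

theorem T3.mul_snd (x y : T3 K Λ) (j : Fin 3) (a : Λ) :
    (x * y).2 j a = y.2 j (a * x.1 (j + 1)) + x.2 j (y.1 j * a) := rfl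

theorem T3.add_fst (x y : T3 K Λ) (j : Fin 3) : (x + y).1 j = x.1 j + y.1 j := rfl

theorem T3.add_snd (x y : T3 K Λ) (j : Fin 3) (a : Λ) : (x + y).2 j a = x.2 j a + y.2 j a := rfl

theorem T3.zero_fst (j : Fin 3) : (0 : T3 K Λ).1 j = 0 := rfl

theorem T3.zero_snd (j : Fin 3) (a : Λ) : (0 : T3 K Λ).2 j a = 0 := rfl

theorem T3.one_fst (j : Fin 3) : (1 : T3 K Λ).1 j = 1 := rfl

theorem T3.one_snd (j : Fin 3) (a : Λ) : (1 : T3 K Λ).2 j a = 0 := rfl

variable (K Λ)

/-- the ring structure -/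
@[reducible]
def T3.ring : Ring (T3 K Λ) :=
  { T3.acg K Λ, T3.mul K Λ, T3.one K Λ with
    left_distrib := fun x y z => T3.ext
      (fun j => by rw [T3.add_fst, T3.mul_fst, T3.mul_fst, T3.mul_fst, T3.add_fst, mul_add])
      (fun j a => by
        rw [T3.add_snd, T3.mul_snd, T3.mul_snd, T3.mul_snd, T3.add_snd, T3.add_fst, add_mul,
          map_add]
        abel)
    right_distrib := fun x y z => T3.ext
      (fun j => by rw [T3.add_fst, T3.mul_fst, T3.mul_fst, T3.mul_fst, T3.add_fst, add_mul])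
      (fun j a => by
        rw [T3.add_snd, T3.mul_snd, T3.mul_snd, T3.mul_snd, T3.add_snd, T3.add_fst, mul_add,
          map_add]
        abel)
    zero_mul := fun x => T3.ext
      (fun j => by rw [T3.mul_fst, T3.zero_fst, zero_mul])
      (fun j a => by rw [T3.mul_snd, T3.zero_fst, mul_zero, map_zero, T3.zero_snd, T3.zero_snd,
        add_zero])
    mul_zero := fun x => T3.ext
      (fun j => by rw [T3.mul_fst, T3.zero_fst, mul_zero])
      (fun j a => by rw [T3.mul_snd, T3.zero_fst, zero_mul, map_zero, T3.zero_snd, T3.zero_snd,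
        add_zero])
    mul_assoc := fun x y z => T3.ext
      (fun j => by rw [T3.mul_fst, T3.mul_fst, T3.mul_fst, T3.mul_fst, mul_assoc])
      (fun j a => by
        rw [T3.mul_snd, T3.mul_snd, T3.mul_snd, T3.mul_snd, T3.mul_fst, T3.mul_fst, mul_assoc,
          mul_assoc, mul_assoc, add_assoc])
    one_mul := fun x => T3.ext
      (fun j => by rw [T3.mul_fst, T3.one_fst, one_mul])
      (fun j a => by rw [T3.mul_snd, T3.one_fst, mul_one, T3.one_snd, add_zero])
    mul_one := fun x => T3.ext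
      (fun j => by rw [T3.mul_fst, T3.one_fst, mul_one])
      (fun j a => by rw [T3.mul_snd, T3.one_fst, one_mul, T3.one_snd, zero_add]) }

attribute [local instance] T3.ring

/-- the vector space structure -/
@[reducible]
def T3.modK : Module K (T3 K Λ) :=
  inferInstanceAs (Module K ((Fin 3 → Λ) × (Fin 3 → (Λ →ₗ[K] K))))

attribute [local instance] T3.modK

theorem T3.smul_fst {K Λ : Type} [Field K] [Ring Λ] [Algebra K Λ] (c : K) (x : T3 K Λ)
    (j : Fin 3) : (c • x).1 j = c • x.1 j := rfl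

theorem T3.smul_snd {K Λ : Type} [Field K] [Ring Λ] [Algebra K Λ] (c : K) (x : T3 K Λ)
    (j : Fin 3) (a : Λ) : (c • x).2 j a = c * x.2 j a := rfl

/-- the algebra structure -/
@[reducible]
def T3.alg : Algebra K (T3 K Λ) :=
  Algebra.ofModule
    (fun c x y => T3.ext
      (fun j => by rw [T3.smul_fst, T3.mul_fst, T3.mul_fst, T3.smul_fst, smul_mul_assoc])
      (fun j a => by
        rw [T3.smul_snd, T3.mul_snd, T3.mul_snd, T3.smul_fst, T3.smul_snd, mul_smul_comm,
          map_smul, smul_eq_mul, mul_add]))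
    (fun c x y => T3.ext
      (fun j => by rw [T3.smul_fst, T3.mul_fst, T3.mul_fst, T3.smul_fst, mul_smul_comm])
      (fun j a => by
        rw [T3.smul_snd, T3.mul_snd, T3.mul_snd, T3.smul_fst, T3.smul_snd, smul_mul_assoc,
          map_smul, smul_eq_mul, mul_add]))

attribute [local instance] T3.alg

theorem T3.finite [FiniteDimensional K Λ] : FiniteDimensional K (T3 K Λ) :=
  inferInstanceAs (FiniteDimensional K ((Fin 3 → Λ) × (Fin 3 → (Λ →ₗ[K] K))))

/-- the linear form -/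
def T3.lam : T3 K Λ →ₗ[K] K where
  toFun x := ∑ j, x.2 j 1
  map_add' x y := by
    rw [← Finset.sum_add_distrib]
    rfl
  map_smul' c x := by
    rw [RingHom.id_apply, smul_eq_mul, Finset.mul_sum]
    rfl

variable {K Λ}

theorem T3.lam_mul (x y : T3 K Λ) :
    T3.lam K Λ (x * y) = ∑ j, y.2 j (x.1 (j + 1)) + ∑ j, x.2 j (y.1 j) := by
  change ∑ j, (x * y).2 j 1 = _
  rw [← Finset.sum_add_distrib]
  refine Finset.sum_congr rfl fun j _ => ?_
  rw [T3.mul_snd, one_mul, mul_one]

theorem T3.nondeg (x : T3 K Λ) (h : ∀ y, T3.lam K Λ (y * x) = 0) : x = 0 := by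
  classical
  refine T3.ext (fun j => ?_) (fun j a => ?_)
  · apply (Module.forall_dual_apply_eq_zero_iff K _).mp
    intro θ
    have h1 := h (0, Pi.single j θ)
    rw [T3.lam_mul] at h1
    have h2 : ∀ i, ((0 : Fin 3 → Λ), (Pi.single j θ : Fin 3 → (Λ →ₗ[K] K))).1 i = 0 :=
      fun i => rfl
    have h3 : ∑ i, x.2 i (((0 : Fin 3 → Λ), (Pi.single j θ : Fin 3 → (Λ →ₗ[K] K))).1 (i + 1)) = 0 :=
      Finset.sum_eq_zero fun i _ => by rw [h2, map_zero]
    rw [h3, zero_add, Finset.sum_eq_single j] at h1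
    · change (Pi.single j θ : Fin 3 → (Λ →ₗ[K] K)) j (x.1 j) = 0 at h1
      rw [Pi.single_eq_same] at h1
      exact h1
    · intro i _ hij
      change (Pi.single j θ : Fin 3 → (Λ →ₗ[K] K)) i (x.1 i) = 0
      rw [Pi.single_eq_of_ne hij, LinearMap.zero_apply]
    · intro h; exact absurd (Finset.mem_univ j) h
  · have h1 := h (Pi.single (j + 1) a, 0)
    rw [T3.lam_mul] at h1
    have h3 : ∑ i, (((Pi.single (j + 1) a : Fin 3 → Λ), (0 : Fin 3 → (Λ →ₗ[K] K))).2 i) (x.1 i) = 0 :=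
      Finset.sum_eq_zero fun i _ => rfl
    rw [h3, add_zero, Finset.sum_eq_single j] at h1
    · change x.2 j ((Pi.single (j + 1) a : Fin 3 → Λ) (j + 1)) = 0 at h1
      rw [Pi.single_eq_same] at h1
      rw [T3.zero_snd]
      exact h1
    · intro i _ hij
      change x.2 i ((Pi.single (j + 1) a : Fin 3 → Λ) (i + 1)) = 0
      have hne : i + 1 ≠ j + 1 := fun hh => hij (sh.injective hh)
      rw [Pi.single_eq_of_ne hne, map_zero]
    · intro h; exact absurd (Finset.mem_univ j) h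

variable (K Λ)

/-- the Nakayama automorphism -/
def T3.nu : T3 K Λ ≃+* T3 K Λ where
  toFun x := (fun j => x.1 (j - 1), fun j => x.2 (j - 1))
  invFun x := (fun j => x.1 (j + 1), fun j => x.2 (j + 1))
  left_inv x := T3.ext (fun j => by
      change x.1 (j + 1 - 1) = x.1 j
      rw [f3_add_sub]) (fun j a => by
      change x.2 (j + 1 - 1) a = x.2 j a
      rw [f3_add_sub])
  right_inv x := T3.ext (fun j => by
      change x.1 (j - 1 + 1) = x.1 j
      rw [f3_sub_add]) (fun j a => by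
      change x.2 (j - 1 + 1) a = x.2 j a
      rw [f3_sub_add])
  map_mul' x y := T3.ext (fun j => rfl) (fun j a => by
      change y.2 (j - 1) (a * x.1 (j - 1 + 1)) + x.2 (j - 1) (y.1 (j - 1) * a) =
        y.2 (j - 1) (a * x.1 (j + 1 - 1)) + x.2 (j - 1) (y.1 (j - 1) * a)
      rw [f3_add_sub, f3_sub_add])
  map_add' x y := rfl

variable {K Λ}

theorem T3.nu_fst (x : T3 K Λ) (j : Fin 3) : (T3.nu K Λ x).1 j = x.1 (j - 1) := rfl

theorem T3.nu_snd (x : T3 K Λ) (j : Fin 3) : (T3.nu K Λ x).2 j = x.2 (j - 1) := rfl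

theorem T3.lam_nu (x y : T3 K Λ) : T3.lam K Λ (x * y) = T3.lam K Λ (T3.nu K Λ y * x) := by
  have e1 : ∑ j, x.2 j (y.1 j) = ∑ j, x.2 j ((T3.nu K Λ y).1 (j + 1)) := by
    refine Finset.sum_congr rfl fun j _ => ?_
    rw [T3.nu_fst, f3_add_sub]
  have e2 : ∑ j, y.2 j (x.1 (j + 1)) = ∑ j, (T3.nu K Λ y).2 j (x.1 j) := by
    have h1 := Equiv.sum_comp sh (fun j => (T3.nu K Λ y).2 j (x.1 j))
    rw [← h1]
    refine Finset.sum_congr rfl fun j _ => ?_
    change y.2 j (x.1 (j + 1)) = y.2 (j + 1 - 1) (x.1 (j + 1))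
    rw [f3_add_sub]
  rw [T3.lam_mul, T3.lam_mul, e1, e2, add_comm]

end T3

end Run7.h692.Eq
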