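import Pool.Agent.Run7.h692.Eq.HBV

set_option autoImplicit false
set_option linter.unusedSectionVars false
open CategoryTheory MulOpposite Pool.Agent.Helper426Tach Pool.Agent.Helper426GSC
  Pool.Agent.Helper426TauT

namespace Run7.h692.Eq

section Dual

variable {L : Type} [Ring L] {M N P : Type} [AddCommGroup M] [AddCommGroup N] [AddCommGroup P]
  [Module L M] [Module L N] [Module L P]

/-- the dual of a linear map -/
def dm (f : M →ₗ[L] N) : (N →ₗ[L] L) →ₗ[Lᵐᵒᵖ] (M →ₗ[L] L) where
  toFun g := g ∘ₗ f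
  map_add' _ _ := rfl
  map_smul' _ _ := rfl

theorem dm_apply (f : M →ₗ[L] N) (g : N →ₗ[L] L) (m : M) : dm f g m = g (f m) := rfl

theorem dm_ses {f : M →ₗ[L] N} {g : N →ₗ[L] P} (h : SES f g)
    (he : ∀ φ : M →ₗ[L] L, ∃ ψ : N →ₗ[L] L, ∀ m, ψ (f m) = φ m) : SES (dm g) (dm f) where
  inj u v huv := by
    apply LinearMap.ext
    intro p
    obtain ⟨n, rfl⟩ := h.surj p
    exact LinearMap.congr_fun huv n
  ex u hu := by
    have hk : LinearMap.ker g ≤ LinearMap.ker u := by
      intro n hn
      obtain ⟨m, rfl⟩ := h.ex n hn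
      exact LinearMap.congr_fun hu m
    refine ⟨(LinearMap.ker g).liftQ u hk ∘ₗ (g.quotKerEquivOfSurjective h.surj).symm.toLinearMap,
      LinearMap.ext fun n => ?_⟩
    have h2 : (g.quotKerEquivOfSurjective h.surj).symm (g n) = Submodule.Quotient.mk n := by
      rw [LinearEquiv.symm_apply_eq]
      rfl
    change (LinearMap.ker g).liftQ u hk ((g.quotKerEquivOfSurjective h.surj).symm (g n)) = u n
    rw [h2]
    rfl
  comp u := LinearMap.ext fun m => by
    change u (g (f m)) = 0
    rw [h.comp, map_zero]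
  surj φ := by
    obtain ⟨ψ, hψ⟩ := he φ
    exact ⟨ψ, LinearMap.ext hψ⟩

/-- the dual of a finitely generated free module is projective -/
theorem dual_free_proj (k : ℕ) : Module.Projective Lᵐᵒᵖ ((Fin k → L) →ₗ[L] L) := by
  classical
  let s : ((Fin k → L) →ₗ[L] L) →ₗ[Lᵐᵒᵖ] (Fin k → L) :=
    { toFun := fun g i => g (Pi.single i 1)
      map_add' := fun _ _ => rfl
      map_smul' := fun _ _ => rfl }
  let r : (Fin k → L) →ₗ[Lᵐᵒᵖ] ((Fin k → L) →ₗ[L] L) :=
    { toFun := fun v =>
        { toFun := fun x => ∑ i, x i * v i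
          map_add' := fun x y => by
            rw [← Finset.sum_add_distrib]
            exact Finset.sum_congr rfl fun i _ => add_mul _ _ _
          map_smul' := fun a x => by
            rw [RingHom.id_apply, Finset.smul_sum]
            exact Finset.sum_congr rfl fun i _ => mul_assoc _ _ _ }
      map_add' := fun v w => LinearMap.ext fun x => by
        change ∑ i, x i * (v i + w i) = ∑ i, x i * v i + ∑ i, x i * w i
        rw [← Finset.sum_add_distrib]
        exact Finset.sum_congr rfl fun i _ => mul_add _ _ _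
      map_smul' := fun a v => LinearMap.ext fun x => by
        change ∑ i, x i * (v i * unop a) = (∑ i, x i * v i) * unop a
        rw [Finset.sum_mul]
        exact Finset.sum_congr rfl fun i _ => (mul_assoc _ _ _).symm }
  have hp1 : Module.Projective Lᵐᵒᵖ L := proj_opReg
  have hp : Module.Projective Lᵐᵒᵖ (Fin k → L) := projective_pi _ fun _ => hp1
  refine Module.Projective.of_split s r (LinearMap.ext fun g => LinearMap.ext fun x => ?_)
  change ∑ i, x i * g (Pi.single i 1) = g x
  conv_rhs => rw [← Finset.univ_sum_single x]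
  rw [map_sum]
  refine Finset.sum_congr rfl fun i _ => ?_
  have h2 : (Pi.single i (x i) : Fin k → L) = (x i) • Pi.single i 1 := by
    rw [← Pi.single_smul, smul_eq_mul, mul_one]
  rw [h2, map_smul, smul_eq_mul]

end Dual

section Approx

variable (K : Type) {L : Type} [Field K] [Ring L] [Algebra K L] [FiniteDimensional K L]

include K in
/-- left approximations by free modules -/
theorem exists_approx (M : Type) [AddCommGroup M] [Module L M] [Module.Finite L M] :
    ∃ (k : ℕ) (j : M →ₗ[L] (Fin k → L)), ∀ g : M →ₗ[L] L, ∃ h : (Fin k → L) →ₗ[L] L,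
      ∀ m, h (j m) = g m := by
  let _ : Module K M := Module.compHom M (algebraMap K L)
  have hst : IsScalarTower K L M := ⟨fun c r x => by
    rw [Algebra.smul_def, mul_smul]
    rfl⟩
  have hfM : Module.Finite K M := Module.Finite.trans L M
  have hfin : Module.Finite K (M →ₗ[L] L) := by
    let ι : (M →ₗ[L] L) →ₗ[K] (M →ₗ[K] L) :=
      { toFun := fun g => g.restrictScalars K
        map_add' := fun _ _ => rfl
        map_smul' := fun _ _ => rfl }
    refine Module.Finite.of_injective ι ?_
    intro f g hfg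
    apply LinearMap.ext
    intro m
    exact LinearMap.congr_fun hfg m
  obtain ⟨k, p, hp⟩ := Module.Finite.exists_fin' K (M →ₗ[L] L)
  refine ⟨k, LinearMap.pi fun i => p (Pi.single i 1), fun g => ?_⟩
  obtain ⟨c, rfl⟩ := hp g
  refine ⟨∑ i, c i • (LinearMap.proj i : (Fin k → L) →ₗ[L] L), fun m => ?_⟩
  rw [LinearMap.sum_apply]
  have h1 : c = ∑ i, c i • (Pi.single i (1 : K) : Fin k → K) := by
    conv_lhs => rw [← Finset.univ_sum_single c]
    refine Finset.sum_congr rfl fun i _ => ?_
    rw [← Pi.single_smul, smul_eq_mul, mul_one]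
  conv_rhs => rw [h1, map_sum, LinearMap.sum_apply]
  refine Finset.sum_congr rfl fun i _ => ?_
  rw [map_smul]
  rfl

end Approx

section Class

variable {K L : Type} [Field K] [Ring L] [Algebra K L] [FiniteDimensional K L]
variable (Kl : (S : Type) → [AddCommGroup S] → [Module L S] → Prop)

/-- the class of modules of the criterion -/
structure GC (M : Type) [AddCommGroup M] [Module L M] : Prop where
  fin : Module.Finite L M
  ev : EV L M L
  kl : ∀ (S : Type) [AddCommGroup S] [Module L S], Kl S →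
    (∀ (f : S →ₗ[L] M) (s : S), f s = 0) ∧ EV L S M

variable (htor : ∀ (M : Type) [AddCommGroup M] [Module L M] [Module.Finite L M],
    (∀ (S : Type) [AddCommGroup S] [Module L S], Kl S → ∀ (f : S →ₗ[L] M) (s : S), f s = 0) →
    ∀ m : M, (∀ g : M →ₗ[L] L, g m = 0) → m = 0)
  (hL : ∀ (S : Type) [AddCommGroup S] [Module L S], Kl S →
    (∀ (f : S →ₗ[L] L) (s : S), f s = 0) ∧ EV L S L)

include htor hL

variable (K) in
include K in
/-- the step of the class argument -/
theorem GC.step (M : Type) [AddCommGroup M] [Module L M] (h : GC Kl M) :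
    ∃ (k : ℕ) (j : M →ₗ[L] (Fin k → L)), (∀ g : M →ₗ[L] L, ∃ h : (Fin k → L) →ₗ[L] L,
      ∀ m, h (j m) = g m) ∧ SES j (LinearMap.range j).mkQ ∧
      GC Kl ((Fin k → L) ⧸ LinearMap.range j) := by
  have hfin : Module.Finite L M := h.fin
  obtain ⟨k, j, hj⟩ := exists_approx (L := L) K M
  have hinj : Function.Injective j := by
    rw [injective_iff_map_eq_zero]
    intro m hm
    apply htor M (fun S _ _ hS => (h.kl S hS).1) m
    intro g
    obtain ⟨h', hh'⟩ := hj g
    rw [← hh', hm, map_zero]
  have hs := SES.ofCoker hinj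
  refine ⟨k, j, hj, hs, ?_, ?_, ?_⟩
  · infer_instance
  · intro n
    cases n with
    | zero =>
      refine hs.con0 (EX.proj inferInstance) ?_
      intro φ
      obtain ⟨ψ, hψ⟩ := hj φ
      exact ⟨ψ, hψ⟩
    | succ n => exact hs.conS (EX.proj inferInstance) (h.ev n)
  · intro S _ _ hS
    obtain ⟨h1, h2⟩ := h.kl S hS
    obtain ⟨h3, h4⟩ := hL S hS
    constructor
    · intro f s
      obtain ⟨ψ, hψ⟩ := hs.lift (h2 0) f
      have h5 : ψ s = 0 := by
        funext i
        exact h3 ((LinearMap.proj i) ∘ₗ ψ) s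
      rw [← hψ, h5, map_zero]
    · intro n
      exact hs.covC ((h4 n).powR k) (h2 (n + 1))

theorem GC.torsionless (M : Type) [AddCommGroup M] [Module L M] (h : GC Kl M) (m : M)
    (hm : ∀ g : M →ₗ[L] L, g m = 0) : m = 0 := by
  have hfin : Module.Finite L M := h.fin
  exact htor M (fun S _ _ hS => (h.kl S hS).1) m hm

variable (K) in
include K in
theorem GC.reflexive (M : Type) [AddCommGroup M] [Module L M] (h : GC Kl M)
    (φ : (M →ₗ[L] L) →ₗ[Lᵐᵒᵖ] L) : ∃ m : M, ∀ f : M →ₗ[L] L, φ f = f m := by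
  classical
  obtain ⟨k, j, hj, hs, hC⟩ := h.step K Kl htor hL M
  let v : Fin k → L := fun i => φ ((LinearMap.proj i) ∘ₗ j)
  have hv : ∀ g : (Fin k → L) →ₗ[L] L, φ (g ∘ₗ j) = g v := by
    intro g
    have h1 : g ∘ₗ j = ∑ i, op (g (Pi.single i 1)) • ((LinearMap.proj i : (Fin k → L) →ₗ[L] L) ∘ₗ j) := by
      apply LinearMap.ext
      intro m
      rw [LinearMap.sum_apply]
      change g (j m) = ∑ i, (j m i) * g (Pi.single i 1)
      conv_lhs => rw [← Finset.univ_sum_single (j m)]
      rw [map_sum]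
      refine Finset.sum_congr rfl fun i _ => ?_
      have h2 : (Pi.single i (j m i) : Fin k → L) = (j m i) • Pi.single i 1 := by
        rw [← Pi.single_smul, smul_eq_mul, mul_one]
      rw [h2, map_smul, smul_eq_mul]
    rw [h1, map_sum]
    conv_rhs => rw [← Finset.univ_sum_single v, map_sum]
    refine Finset.sum_congr rfl fun i _ => ?_
    have h2 : (Pi.single i (v i) : Fin k → L) = (v i) • Pi.single i 1 := by
      rw [← Pi.single_smul, smul_eq_mul, mul_one]
    rw [h2, map_smul, map_smul, smul_eq_mul]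
    rfl
  have hmem : v ∈ LinearMap.range j := by
    rw [← Submodule.Quotient.mk_eq_zero]
    apply hC.torsionless Kl htor hL
    intro f
    have h3 : (f ∘ₗ (LinearMap.range j).mkQ) ∘ₗ j = 0 := by
      apply LinearMap.ext
      intro m
      change f ((LinearMap.range j).mkQ (j m)) = 0
      rw [hs.comp, map_zero]
    have h5 := hv (f ∘ₗ (LinearMap.range j).mkQ)
    rw [h3, map_zero] at h5
    exact h5.symm
  obtain ⟨m, hm⟩ := hmem
  refine ⟨m, fun f => ?_⟩
  obtain ⟨g, hg⟩ := hj f
  have h6 : f = g ∘ₗ j := LinearMap.ext fun y => (hg y).symm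
  rw [h6, hv, ← hm]
  rfl

/-- evaluation at an element -/
def evalAt {M : Type} [AddCommGroup M] [Module L M] (m : M) : (M →ₗ[L] L) →ₗ[Lᵐᵒᵖ] L where
  toFun f := f m
  map_add' _ _ := rfl
  map_smul' _ _ := rfl

variable (K) in
include K in
theorem GC.dual_ex (n : ℕ) : ∀ (M : Type) [AddCommGroup M] [Module L M], GC Kl M →
    EX Lᵐᵒᵖ n (M →ₗ[L] L) L := by
  induction n with
  | zero =>
    intro M _ _ h
    obtain ⟨k, j, hj, hs, hC⟩ := h.step K Kl htor hL M
    refine (dm_ses hs hj).con0 (EX.proj (dual_free_proj k)) ?_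
    intro φ
    obtain ⟨c, hc⟩ := hC.reflexive K Kl htor hL _ φ
    obtain ⟨v, rfl⟩ := hs.surj c
    refine ⟨evalAt v, fun f => ?_⟩
    rw [hc]
    rfl
  | succ n ih =>
    intro M _ _ h
    obtain ⟨k, j, hj, hs, hC⟩ := h.step K Kl htor hL M
    exact (dm_ses hs hj).conS (EX.proj (dual_free_proj k)) (ih _ hC)

end Class

end Run7.h692.Eq
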